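import Pool.Agent.Lib.Z2.Fo.SpecA

/-!
# C45, forcing part: Spec C (choice in the generic model, no list of `C`, preservation of well-foundedness)
-/

namespace Pool.Agent.Lib.Z2

/-- (PairF) A formula for `⟨x, y⟩ ∈ X`. Proof. `Nat.pair a b = if a < b then b * b + a else a * a + a + b`:
`(a < b ∧ b*b+a ∈ X) ∨ (¬ a < b ∧ a*a+a+b ∈ X)` with `Fm.lt`, `Fm.mem`, `Tm.add`, `Tm.mul`, `neg`, `and`. -/
def S_PairF : Prop := ∀ i j k : ℕ, ∃ φ : Fm, ∀ (M : Set (Set ℕ)) (e : ℕ → ℕ) (E : ℕ → Set ℕ),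
  φ.Sat M e E ↔ Nat.pair (e i) (e j) ∈ E k

/-- (Brg) The bridge (proved elsewhere): an omega model of `Z_2` is closed under the algebraic definability. -/
def S_Brg : Prop := ∀ M : Set (Set ℕ), M.Nonempty → IsZ2 M → Good ⟨M, ∅, M⟩ ∧
  ∀ P : ℕ → Prop, Dfn ⟨M, ∅, M⟩ P → {n | P n} ∈ M

/-- (NTs) Sections and joins in `NT`. Proof. `sec X n = {x | ⟨n, x⟩ ∈ X}`: `S_Comp` with the formula of `S_PairF`
(number variables `1`, `0`, set variable `0`; assignment `e = fun _ => n`, `E = fun _ => X`). Join: the formula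
`∃ y (x = y + y ∧ y ∈ X_0) ∨ ∃ y (x = y + y + 1 ∧ y ∈ X_1)`. -/
def S_NTs : Prop := ∀ (S : Str) [Good S] (Gm : Set ℕ → Set ℕ), Uni S Gm → ∀ G, Gen S Gm G → ∀ T, IsI S T →
  (∀ X ∈ NT S G T, ∀ n, sec X n ∈ NT S G T) ∧ ∀ X ∈ NT S G T, ∀ Y ∈ NT S G T, jn X Y ∈ NT S G T

/-- (NoL) No real of the generic model lists `C`. Proof. Suppose every `c ∈ C` is a section of `X = evl S G ρ`, `ρ` supported
in `T`. Let `Θ` be the formula `∀ x (⟨a, x⟩ ∈ X_0 ↔ x ∈ X_1)` (`S_PairF`; under the quantifier `x` is number variable `0`, `a` is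
number variable `1`), so with `e = fun _ => a`: `Θ.Sat M e (ex X (ex c _)) ↔ sec X a = c`. Put `τ c = ex ρ (ex (chk c) (fun _ => chk ∅))`
(`S_Chk`), `P j c` = 'there is `p` with `IsCond S p`, `InT T p`, `encode p.1 = j.unpair.1`,
`Frc S Gm Θ p (fun _ => j.unpair.2) (τ c)`'. `P` is definable. Functional: for `c`, `c'` with witnesses `p`, `p'`: `p.1 = p'.1`, so
by `S_Same` they have a common extension `r`; take a generic `G'` with `r ∈ G'` (`S_GenEx`); by `S_Truth` and `S_Mono`/`Gen.up`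
`sec (evl S G' ρ) a = c` and `= c'`. `Uni.noSurj` gives `c ∈ C` with no `P j c`. But `sec X a = c` for some `a`, so some `p ∈ G`
forces `Θ` at `a` (`S_Truth`), so `res T p` does (`S_Hom`), so `P (pair (encode (res T p).1) a) c`: contradiction. -/
def S_NoL : Prop := ∀ (S : Str) [Good S] (Gm : Set ℕ → Set ℕ), Uni S Gm → ∀ G, Gen S Gm G →
  ∀ X ∈ NN S G, ∃ c ∈ S.C, ∀ a, sec X a ≠ c

/-- (Pres) Forcing preserves the well-foundedness of relations of `U`. Proof. Let `B = evl S G σ` be nonempty without minimal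
element. The formula `Ξ`: `∃ x, x ∈ X_0 ∧ ∀ x (x ∈ X_0 → ∃ y (y ∈ X_0 ∧ ⟨y, x⟩ ∈ X_1))` holds in `NN S G` at `(B, R)`; so some `p ∈ G`
forces `Ξ` at `τ = ex σ (ex (chk R) (fun _ => chk ∅))`. `X = {x | ∃ q, IsCond S q ∧ q ≤ p ∧ q forces x ∈ σ}` is in `U`
(`S_FrcD`, `Uni.comp`). `X` is nonempty: `Ξ` holds in `NN S G`, so some `x ∈ B`, some `q ∈ G` forces it, take a common extension
with `p`. Let `x ∈ X` be minimal, `q ≤ p` forcing `x ∈ σ`, `G'` generic with `q ∈ G'`. `p ∈ G'`, so `Ξ` holds in `NN S G'`, and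
`x ∈ evl S G' σ`; so there is `y ∈ evl S G' σ` with `⟨y, x⟩ ∈ R`; some element of `G'`, hence some `q' ∈ G'` with `q' ≤ p`,
forces `y ∈ σ`; so `y ∈ X`: contradiction. -/
def S_Pres : Prop := ∀ (S : Str) [Good S] (Gm : Set ℕ → Set ℕ), Uni S Gm → ∀ G, Gen S Gm G → ∀ R ∈ S.U,
  (∀ B ∈ S.U, B.Nonempty → ∃ x ∈ B, ∀ y ∈ B, Nat.pair y x ∉ R) →
  ∀ B ∈ NN S G, B.Nonempty → ∃ x ∈ B, ∀ y ∈ B, Nat.pair y x ∉ R

/-- (PresT) Supports have no branches in the generic model. Proof. `S_Pres` for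
`R = {pair y x | y = encode (a :: s), x = encode s, a :: s ∈ T}` (in `U`: `Uni.comp`). `R` is well-founded in `U`:
let `B ∈ U` be nonempty; if some `x ∈ B` is not the code of a node of `T` then `x` is minimal (closure under parents);
otherwise the last clause of `IsI` gives a minimal element. For `B ∈ NN`: a minimal `x = encode s ∈ B`; a child `a :: s ∈ B` is in `T`
by the hypothesis. -/
def S_PresT : Prop := ∀ (S : Str) [Good S] (Gm : Set ℕ → Set ℕ), Uni S Gm → ∀ G, Gen S Gm G → ∀ T, IsI S T →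
  ∀ B ∈ NN S G, (∀ s : Node, inn B s → inn T s) → (∃ s : Node, inn B s) →
  ∃ s : Node, inn B s ∧ ∀ a, ¬ inn B (a :: s)

/-! ### Choice -/

/-- `m` bounds the columns of the children in `T`. -/
def Mb (T : Set ℕ) (m : Node → ℕ) : Prop := ∀ s a, inn T s → inn T (a :: s) → a.unpair.1 < m s

/-- (Swp) The swap of column `m s` with a new column. Proof. Let `c s` be the least `c > m s` such that all `a` with
`a :: s ∈ T'` have column `< c` (`IsI`; definable by `Nat.find`: graph `R s c ∧ ∀ c' < c, ¬ R s c'`). Put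
`κ s a = pair (c s) a.unpair.2` if `a.unpair.1 = m s`, `pair (m s) a.unpair.2` if `a.unpair.1 = c s`, `a` otherwise.
`Kap T κ`: involution as `c s ≠ m s`; `T`-children have columns `< m s < c s`; labels in columns `> c s` are fixed.
`π = pik T κ` (`S_PikA`). If `s ∈ T` and `a :: s ∈ imT π T'` then `κ s a :: s ∈ T'` has column `< c s`; if `a.unpair.1 = m s` it would
be `c s`. `T ⊆ imT π T'` since `π` fixes `T`. -/
def S_Swp : Prop := ∀ (S : Str) [Good S] (Gm : Set ℕ → Set ℕ), Uni S Gm → ∀ (T T' : Set ℕ) (m : Node → ℕ),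
  IsI S T → IsI S T' → (∀ s, inn T s → inn T' s) → DF S m → Mb T m →
  ∃ π, Aut S π ∧ (∀ s, inn T s → π s = s) ∧ (∀ s, inn T s → inn (imT π T') s) ∧
    ∀ s a, inn T s → inn (imT π T') (a :: s) → a.unpair.1 ≠ m s

/-- The data at the index `j` of the real `A`: name, support, condition. -/
def sA (A : Set ℕ) (j : ℕ) : Set ℕ := lf (rt (sec A j))
def tA (A : Set ℕ) (j : ℕ) : Set ℕ := rt (rt (sec A j))
open Classical in
noncomputable def pA (A : Set ℕ) (j : ℕ) : Cond :=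
  if h : ∃ p : Cond, lf (sec A j) = cdc p then h.choose else triv

/-- The index `j` is valid. -/
def Vd (S : Str) (T : Set ℕ) (m : Node → ℕ) (A : Set ℕ) (j : ℕ) : Prop :=
  (∃ p, IsCond S p ∧ lf (sec A j) = cdc p) ∧ IsI S (tA A j) ∧ (∀ s, inn T s → inn (tA A j) s) ∧
  InT (tA A j) (pA A j) ∧ Sup S (sA A j) (tA A j) ∧
  ∀ s a, inn T s → inn (tA A j) (a :: s) → a.unpair.1 ≠ m s

open Classical in
/-- The `k`-th copy of the data `j` sits at the labels `pair (m s) (pair (pair j k) a)` outside `T`. -/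
noncomputable def kA (T : Set ℕ) (m : Node → ℕ) (A : Set ℕ) (j k : ℕ) (s : Node) (a : ℕ) : ℕ :=
  if inn (tA A j) (a :: s) ∧ ¬ inn T (a :: s) then Nat.pair (m s) (Nat.pair (Nat.pair j k) a)
  else if a.unpair.1 = m s ∧ a.unpair.2.unpair.1 = Nat.pair j k ∧ inn (tA A j) (a.unpair.2.unpair.2 :: s) ∧
    ¬ inn T (a.unpair.2.unpair.2 :: s) then a.unpair.2.unpair.2 else a

/-- the automorphism moving the data `j` to its `k`-th copy -/
noncomputable def πA (T : Set ℕ) (m : Node → ℕ) (A : Set ℕ) (j k : ℕ) : Node → Node := pik T (kA T m A j k)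

/-- the union of all copies of the supports -/
def stA (S : Str) (T : Set ℕ) (m : Node → ℕ) (A : Set ℕ) : Set ℕ :=
  {x | ∃ s : Node, Encodable.encode s = x ∧ (inn T s ∨ ∃ j k, Vd S T m A j ∧ inn (tA A j) (πA T m A j k s))}

/-- (AcK) Proof. `Kap`, first clause, `s ∈ T`. If `a :: s ∈ T_j \ T` (`T_j = tA A j`): `b = kA s a = pair (m s) (pair (pair j k) a)` has
column `m s`, so `b :: s ∉ T_j`, and the second case gives `kA s b = a`. If `a` is in the second case, `b = a.unpair.2.unpair.2`, then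
`kA s b` is in the first case and equals `pair (m s) (pair (pair j k) b) = a` (`Nat.pair_unpair`). Second clause: `a :: s ∈ T` excludes
the first case, and the second by `Mb`. Third clause: the bound `max (m s) (bound of T_j at s) + 1`.
Exits: let `s ∉ T` and `πA s ∈ T_j`; by `S_PikB` `s = u ++ a :: t`, `t ∈ T`, `a :: t ∉ T`, `πA s = u ++ kA t a :: t`, so
`b :: t ∈ T_j` for `b = kA t a`, `b :: t ∉ T` (else `a = kA t b = b`), so `a = kA t b = pair (m t) (pair (pair j k) b)`. -/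
def S_AcK : Prop := ∀ (S : Str) (T : Set ℕ) (m : Node → ℕ) (A : Set ℕ) (j k : ℕ),
  IsI S T → Mb T m → Vd S T m A j → Kap T (kA T m A j k) ∧
  ∀ s, ¬ inn T s → inn (tA A j) (πA T m A j k s) → ∃ (u : List ℕ) (t : Node) (b : ℕ),
    s = u ++ Nat.pair (m t) (Nat.pair (Nat.pair j k) b) :: t ∧ inn T t ∧
    ¬ inn T (Nat.pair (m t) (Nat.pair (Nat.pair j k) b) :: t) ∧ πA T m A j k s = u ++ b :: t

/-- (AcD) Definability of the family (`T`, `A`, `m` are fixed parameters). Proof. `S_Gcomp` (constants), `S_Inn`, `S_Idl`, `S_Sup`,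
`S_Cdc`, `DF.ite`, `S_PikD`, `S_PinU`. `pA`: graph `pA A j = p` iff `lf (sec A j) = cdc p`, or no valid `p'` has
`lf (sec A j) = cdc p'` and `p = triv` (`S_Cdc`: such `p'` are valid and unique). -/
def S_AcD : Prop := ∀ (S : Str) [Good S] (Gm : Set ℕ → Set ℕ), Uni S Gm → ∀ (T : Set ℕ) (m : Node → ℕ) (A : Set ℕ),
  T ∈ S.U → A ∈ S.U → DF S m →
  Dfn S (fun j : ℕ => Vd S T m A j) ∧ DF S (fun j : ℕ => pA A j) ∧ DF S (fun j : ℕ => sA A j) ∧
  DF S (fun j : ℕ => tA A j) ∧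
  DF S (fun x : (ℕ × ℕ) × Node × ℕ => kA T m A x.1.1 x.1.2 x.2.1 x.2.2) ∧
  DF S (fun x : (ℕ × ℕ) × Node => πA T m A x.1.1 x.1.2 x.2) ∧
  DF S (fun x : ℕ × ℕ => pic (πA T m A x.1 x.2) (pA A x.1)) ∧
  DF S (fun x : ℕ × ℕ => pin (πA T m A x.1 x.2) (sA A x.1))

/-- (AcT) The union of the copies is a support. Proof. In `U`: `S_AcD`, `Uni.comp`. Root: `[] ∈ T`. Parents: `Aut.tl`. For `s ∉ T`
in `stA` all pairs `(j, k)` with `Vd j`, `πA j k s ∈ T_j` are equal: by `S_AcK` `s = u ++ pair (m t) (pair (pair j k) b) :: t` with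
`t ∈ T` and the next suffix outside `T`; `t` is the longest suffix of `s` in `T` (closure under parents), so it and the label are
determined by `s`. A child of `s` has the same exit, hence the same pair. Columns at `s ∈ T`: for a child `a :: s ∈ stA`
either `a :: s ∈ T` and the column is `< m s`, or (`S_AcK` for `a :: s`, here `u = []`) `a = pair (m s) _`, column `m s`. At
`s ∉ T`, `s ∈ stA` with pair `(j, k)`: the children in `stA` are in `imT (πA j k) T_j`, which is in the ideal (`Aut.idl`); at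
`s ∉ stA` there are no children (closure under parents). Well-founded: let `B ∈ U` be inside `stA`, nonempty, every element with a
child in `B`. If `B` is inside `T`: contradiction. Otherwise let `s ∈ B`, `s ∉ T`, with pair `(j, k)`; then
`B' = {s' ∈ B : s' ∉ T, πA j k s' ∈ T_j}` is in `U`, contains `s`, each element has a child in `B'` (same pair), and `B'` is inside
`imT (πA j k) T_j`: contradiction. -/
def S_AcT : Prop := ∀ (S : Str) [Good S] (Gm : Set ℕ → Set ℕ), Uni S Gm → ∀ (T : Set ℕ) (m : Node → ℕ) (A : Set ℕ),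
  IsI S T → A ∈ S.U → DF S m → Mb T m → IsI S (stA S T m A) ∧ (∀ s, inn T s → inn (stA S T m A) s) ∧
  ∀ j k, Vd S T m A j → (Aut S (πA T m A j k) ∧ ∀ s, inn (imT (πA T m A j k) (tA A j)) s → inn (stA S T m A) s)

/-- (AcN1) The name of the set of the pairs `(j, k)` whose condition is in `G`. Proof.
`α = {x | ∃ j k, x.unpair.1.unpair.1 = pair j k ∧ Vd j ∧ x.unpair.2 ∈ cdc (pic (πA j k) (pA A j))}`: `sec α (pair n i)` is the code of
`pic (πA j k) (pA A j)` if `n = pair j k`, `Vd j`, and `∅` otherwise. Support: `InT (tA A j) (pA A j)` and `S_PicM`, `S_AcT`.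
`pA A j` is a condition for valid `j` (`S_Cdc`: `cdc` injective). -/
def S_AcN1 : Prop := ∀ (S : Str) [Good S] (Gm : Set ℕ → Set ℕ), Uni S Gm → ∀ (T : Set ℕ) (m : Node → ℕ) (A : Set ℕ),
  IsI S T → A ∈ S.U → DF S m → Mb T m → ∃ α ∈ S.U, Sup S α (stA S T m A) ∧
  ∀ n w, Ent S α n w ↔ ∃ j k, n = Nat.pair j k ∧ Vd S T m A j ∧ w = pic (πA T m A j k) (pA A j)

/-- (AcN2) The name of the join of all the reals named by `pin (πA j k) (sA A j)`. Proof.
`β = {x | ∃ j k y, x.unpair.1.unpair.1 = pair (pair j k) y ∧ Vd j ∧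
x.unpair.2 ∈ sec (pin (πA j k) (sA A j)) (pair y x.unpair.1.unpair.2)}`. Support: `S_PinE`, `S_SupM`, `S_AcT`. -/
def S_AcN2 : Prop := ∀ (S : Str) [Good S] (Gm : Set ℕ → Set ℕ), Uni S Gm → ∀ (T : Set ℕ) (m : Node → ℕ) (A : Set ℕ),
  IsI S T → A ∈ S.U → DF S m → Mb T m → ∃ β ∈ S.U, Sup S β (stA S T m A) ∧
  ∀ n w, Ent S β n w ↔ ∃ j k y, n = Nat.pair (Nat.pair j k) y ∧ Vd S T m A j ∧
    Ent S (pin (πA T m A j k) (sA A j)) y w

/-- `X` codes a condition, a name and a support which witness `∃ X φ(n, X)` below the type `t` (`j = pair n t`). -/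
def Wd (S : Str) (Gm : Set ℕ → Set ℕ) (T : Set ℕ) (m : Node → ℕ) (φ : Fm) (e : ℕ → ℕ) (τ : ℕ → Set ℕ) (j : ℕ)
    (X : Set ℕ) : Prop :=
  ∃ p, IsCond S p ∧ lf X = cdc p ∧ IsI S (rt (rt X)) ∧ (∀ s, inn T s → inn (rt (rt X)) s) ∧
  InT (rt (rt X)) p ∧ Sup S (lf (rt X)) (rt (rt X)) ∧
  (∀ s a, inn T s → inn (rt (rt X)) (a :: s) → a.unpair.1 ≠ m s) ∧
  Encodable.encode (res T p).1 = j.unpair.2 ∧ Frc S Gm φ p (ex j.unpair.1 e) (ex (lf (rt X)) τ)

/-- (AcA) The choice of the data. Proof. `Wd` is definable in `(j, X)` (`S_FrcD`, `S_ResD`, ...), `Uni.ac` gives `A₀`; put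
`A = {x | Wd x.unpair.1 (sec A₀ x.unpair.1) ∧ x.unpair.2 ∈ sec A₀ x.unpair.1}` (`Uni.comp`): `sec A j = sec A₀ j` if
`Wd j (sec A₀ j)`, else `∅`, and in the second case `Vd j` fails since `lf ∅ = ∅` is not a `cdc p` (`S_Cdc`).
`pA A j` is the condition coded by `lf (sec A j)` (`cdc` injective). -/
def S_AcA : Prop := ∀ (S : Str) [Good S] (Gm : Set ℕ → Set ℕ), Uni S Gm → ∀ (T : Set ℕ) (m : Node → ℕ),
  IsI S T → DF S m → ∀ (φ : Fm) (e : ℕ → ℕ) (τ : ℕ → Set ℕ), (∀ i, τ i ∈ S.U) →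
  ∃ A ∈ S.U, (∀ j, Vd S T m A j → Wd S Gm T m φ e τ j (sec A j)) ∧
    ∀ j, ∀ X ∈ S.U, Wd S Gm T m φ e τ j X → Vd S T m A j

/-- (AcP) Predensity. Proof. By hypothesis there are `r₀ ≤ q` and a name `σ` with `r₀` forcing `φ(n, σ)`. Let `T'` be a support
containing `T`, the support of `σ`, and the nodes of `r₀` (`S_IUn`, `S_IFin`, `S_SupM`). Take `π` from `S_Swp`; `q₁ = pic π r₀`,
`σ₁ = pin π σ`, `T₁ = imT π T'`. `q₁` forces `φ(n, σ₁, τ)` (`S_FrcFx`), `InT T₁ q₁`, `Sup S σ₁ T₁` (`S_PicM`, `S_PinE`),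
`σ₁ ∈ U` (`S_NmA`), `res T q₁ = res T r₀` (`S_PicM`). So `Wd (pair n t) (jn (cdc q₁) (jn σ₁ T₁))` with `t = encode (res T r₀).1`.
So `Vd j` for `j = pair n t`. Let `p = pA A j`: `encode (res T p).1 = t` by the hypothesis on `A` (`cdc` injective), so
`(res T p).1 = (res T r₀).1`. Choose `k` larger than all labels of nodes of `r₀`. A common node `s ∉ T` of `pic (πA j k) p` and `r₀`:
`πA j k s ∈ nds p`, so in `T_j`, so by `S_AcK` `s` has the label `pair (m t') (pair (pair j k) b) ≥ k`: contradiction. So all common nodes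
are in `T`; there the bits agree: those of `pic (πA j k) p` at `s ∈ T` are those of `p` (`πA` fixes `T`), i.e. of `res T p`, i.e. of
`res T r₀`, i.e. of `r₀`; the heights are equal. `S_Same` gives the common extension. -/
def S_AcP : Prop := ∀ (S : Str) [Good S] (Gm : Set ℕ → Set ℕ), Uni S Gm → ∀ (T : Set ℕ) (m : Node → ℕ),
  IsI S T → DF S m → Mb T m → ∀ (φ : Fm) (e : ℕ → ℕ) (τ : ℕ → Set ℕ), (∀ i, τ i ∈ S.U) → (∀ i, Sup S (τ i) T) →
  ∀ A ∈ S.U, (∀ j, Vd S T m A j → Wd S Gm T m φ e τ j (sec A j)) →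
  (∀ j, ∀ X ∈ S.U, Wd S Gm T m φ e τ j X → Vd S T m A j) → ∀ (n : ℕ) (q : Cond), IsCond S q →
  (∃ r, IsCond S r ∧ Le Gm r q ∧ ∃ σ, Nm S σ ∧ Frc S Gm φ r (ex n e) (ex σ τ)) →
  ∃ t k r, Vd S T m A (Nat.pair n t) ∧ IsCond S r ∧ Le Gm r q ∧
    Le Gm r (pic (πA T m A (Nat.pair n t) k) (pA A (Nat.pair n t)))

/-- (AcM) Choice, the core: the witnesses along `G`. Proof. Let `m s` be the least bound of the columns of the `T`-children of `s`
(definable). Some `p₀ ∈ G` forces `allN (exS φ)` (`S_Truth`): for all `n`, `q ≤ p₀` there are `r ≤ q` and a name `σ` with `r` forcing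
`φ(n, σ, τ)`. `A` from `S_AcA`. For each `n`: `D = {r | (∃ t k, Vd (pair n t) ∧ r ≤ pic (πA ..) (pA ..)) or no r' ≤ r is ≤ p₀}` is
definable (`S_AcD`) and dense (`S_AcP`); so some `(t, k)` has its condition in `G`. `Y = evl S G α`, `W = evl S G β` (`S_AcN1`,
`S_AcN2`, supported in `stA`, `S_AcT`). If `pair j k ∈ Y`, `j = pair n t`: `Vd j`, the condition `w = pic (πA j k) (pA A j) ∈ G`
forces `φ(n, pin (πA j k) (sA A j), τ)` (`S_FrcFx` applied to `Wd j (sec A j)`), so `φ` holds at `(n, X)` with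
`X = evl S G (pin (πA j k) (sA A j)) = sec W (pair j k)` (`S_Truth`; it is a name by `S_PinE`, `S_AcT`). -/
def S_AcM : Prop := ∀ (S : Str) [Good S] (Gm : Set ℕ → Set ℕ), Uni S Gm → ∀ G, Gen S Gm G → ∀ T, IsI S T →
  ∀ (φ : Fm) (e : ℕ → ℕ) (E : ℕ → Set ℕ), (∀ i, E i ∈ NT S G T) →
  (∀ n, ∃ X ∈ NN S G, φ.Sat (NN S G) (ex n e) (ex X E)) →
  ∃ Y ∈ NN S G, ∃ W ∈ NN S G, (∀ n, ∃ t k, Nat.pair (Nat.pair n t) k ∈ Y) ∧
    ∀ n t k, Nat.pair (Nat.pair n t) k ∈ Y → φ.Sat (NN S G) (ex n e) (ex (sec W (Nat.pair (Nat.pair n t) k)) E)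

/-- (Ac) The choice scheme in the generic model. Proof. `S_FmL` and `S_Nms`: we may assume `E i ∈ NT S G T` for all `i` (replace the
irrelevant `E i` by `∅`). `S_AcM` gives `Y`, `W`. For each `n` let `g n` be the least `y` with
`pair (pair n y.unpair.1) y.unpair.2 ∈ Y`, and `Z = {z | pair (pair (pair n (g n).unpair.1) (g n).unpair.2) z.unpair.2 ∈ W, n = z.unpair.1}`.
`Z` is definable over `⟨NN, ∅, NN⟩` with the parameters `Y`, `W` (`S_Z2`, `S_Brg`), so in `NN`, and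
`sec Z n = sec W (pair (pair n t) k)`. -/
def S_Ac : Prop := ∀ (S : Str) [Good S] (Gm : Set ℕ → Set ℕ), Uni S Gm → ∀ G, Gen S Gm G → HasAC (NN S G)

end Pool.Agent.Lib.Z2
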