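import Pool.Agent.Lib.Z2.Fo.SpecC

/-! C45, forcing part: `S_Ac` (MP_8dbd20_lc) -/

namespace Pool.Agent.Lib.Z2

theorem tAc (h_Nms : S_Nms) (h_FmL : S_FmL) (h_Z2 : S_Z2) (h_Brg : S_Brg) (h_AcM : S_AcM) : S_Ac := by
  intro S _ Gm hU G hG φ e E hE hex
  set M := NN S G with hM
  obtain ⟨-, -, n3, -, n5⟩ := h_Nms S Gm hU G hG
  obtain ⟨kφ, hφ⟩ := h_FmL φ
  obtain ⟨T, hT, hTE⟩ := n5 kφ E hE
  classical
  set E' : ℕ → Set ℕ := fun i => if i < kφ then E i else ∅ with hE'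
  have hE'T : ∀ i, E' i ∈ NT S G T := by
    intro i
    by_cases h : i < kφ
    · simp only [hE', if_pos h]; exact hTE i h
    · simp only [hE', if_neg h]; exact n3 T ∅ (Good.ue S)
  have hiff : ∀ n X, φ.Sat M (ex n e) (ex X E') ↔ φ.Sat M (ex n e) (ex X E) := by
    intro n X
    refine hφ M _ _ _ _ (fun _ _ => rfl) ?_
    intro i hi
    rcases i with _ | i
    · rfl
    · show E' i = E i
      have : i < kφ := by omega
      simp only [hE', if_pos this]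
  obtain ⟨Y, hY, W, hW, h1, h2⟩ := h_AcM S Gm hU G hG T hT φ e E' hE'T
    (fun n => by obtain ⟨X, hX, h⟩ := hex n; exact ⟨X, hX, (hiff n X).2 h⟩)
  obtain ⟨hGood, hcomp⟩ := h_Brg M ⟨Y, hY⟩ (h_Z2 S Gm hU G hG)
  haveI : Good ⟨M, ∅, M⟩ := hGood
  set R : ℕ → ℕ → Prop := fun n y => Nat.pair (Nat.pair n y.unpair.1) y.unpair.2 ∈ Y with hR
  set Z : Set ℕ := {z | ∃ y : ℕ, (R z.unpair.1 y ∧ ∀ y' : ℕ, y' < y → ¬ R z.unpair.1 y') ∧
    Nat.pair (Nat.pair (Nat.pair z.unpair.1 y.unpair.1) y.unpair.2) z.unpair.2 ∈ W} with hZ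
  have hYP : Y ∈ (⟨M, ∅, M⟩ : Str).Pm := hY
  have hWP : W ∈ (⟨M, ∅, M⟩ : Str).Pm := hW
  have dR : Dfn ⟨M, ∅, M⟩ (fun x : ℕ × ℕ => R x.1 x.2) :=
    Dfn.mem (DF.natPair (DF.natPair DF.id.fst (DF.unp1 DF.id.snd)) (DF.unp2 DF.id.snd)) (DF.constR hYP)
  have hZM : Z ∈ M := by
    apply hcomp
    refine Dfn.exN (P := fun (z y : ℕ) => (R z.unpair.1 y ∧ ∀ y' : ℕ, y' < y → ¬ R z.unpair.1 y') ∧
      Nat.pair (Nat.pair (Nat.pair z.unpair.1 y.unpair.1) y.unpair.2) z.unpair.2 ∈ W) ?_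
    refine Dfn.and (Dfn.and ?_ ?_) ?_
    · exact Dfn.comp (f := fun x : ℕ × ℕ => (x.1.unpair.1, x.2)) dR ((DF.unp1 DF.id.fst).pair DF.id.snd)
    · refine Dfn.allN (P := fun (x : ℕ × ℕ) (y' : ℕ) => y' < x.2 → ¬ R x.1.unpair.1 y') ?_
      refine Dfn.imp (Dfn.lt DF.id.snd DF.id.fst.snd) (Dfn.not ?_)
      exact Dfn.comp (f := fun x : (ℕ × ℕ) × ℕ => (x.1.1.unpair.1, x.2)) dR
        ((DF.unp1 DF.id.fst.fst).pair DF.id.snd)
    · exact Dfn.mem (DF.natPair (DF.natPair (DF.natPair (DF.unp1 DF.id.fst) (DF.unp1 DF.id.snd))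
        (DF.unp2 DF.id.snd)) (DF.unp2 DF.id.fst)) (DF.constR hWP)
  refine ⟨Z, hZM, fun n => ?_⟩
  have hexn : ∃ y, R n y := by
    obtain ⟨t, k, h⟩ := h1 n
    exact ⟨Nat.pair t k, by simpa [hR] using h⟩
  obtain ⟨y, hy1, hy2⟩ : ∃ y, R n y ∧ ∀ y', y' < y → ¬ R n y' :=
    ⟨Nat.find hexn, Nat.find_spec hexn, fun y' h => Nat.find_min hexn h⟩
  have hsec : sec Z n = sec W (Nat.pair (Nat.pair n y.unpair.1) y.unpair.2) := by
    ext z
    constructor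
    · rintro ⟨y', ⟨h3, h4⟩, h5⟩
      simp only [Nat.unpair_pair] at h3 h4 h5
      have : y' = y := by
        rcases lt_trichotomy y' y with h | h | h
        · exact absurd h3 (hy2 y' h)
        · exact h
        · exact absurd hy1 (h4 y h)
      subst this
      exact h5
    · intro h
      refine ⟨y, ?_⟩
      simp only [Nat.unpair_pair]
      exact ⟨⟨hy1, hy2⟩, h⟩
  rw [← hiff, hsec]
  exact h2 n _ _ hy1

end Pool.Agent.Lib.Z2
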