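import Pool.Agent.Lib.Z2.Fo.SpecC

/-! C45, forcing part: `S_AcA` (MP_8dbd20_lc) -/

namespace Pool.Agent.Lib.Z2

theorem tAcA (h_Inn : S_Inn) (h_Ic : S_Ic) (h_Cdc : S_Cdc) (h_Sup : S_Sup) (h_Idl : S_Idl)
    (h_ResD : S_ResD) (h_FrcD : S_FrcD) : S_AcA := by
  intro S _ Gm hU T m hT hm φ e τ hτ
  have hTP : T ∈ S.Pm := by rw [hU.pm]; exact hT.1
  obtain ⟨cinj, cne, hcdc⟩ := h_Cdc
  obtain ⟨cvl, cIc, cDF⟩ := hcdc S
  have hcons : ∀ {α : Type} [Shp α] {f : α → ℕ} {g : α → Node}, DF S f → DF S g → DF S (fun a => f a :: g a) := by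
    intro α _ f g hf hg
    exact DF.prim₂ (F := fun (a : ℕ) (s : Node) => a :: s) Primrec.list_cons hf hg
  have hinT : ∀ {α : Type} [Shp α] {s : α → Node}, DF S s → Dfn S (fun a => inn T (s a)) := by
    intro α _ s hs
    exact h_Inn S α (fun _ => T) s (DF.constR hTP) hs
  have dW : Dfn S (fun x : ℕ × Set ℕ => Wd S Gm T m φ e τ x.1 x.2) := by
    have hj : DF S (fun x : (ℕ × Set ℕ) × Cond => x.1.1) := DF.id.fst.fst
    have hX : DF S (fun x : (ℕ × Set ℕ) × Cond => x.1.2) := DF.id.fst.snd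
    have hp : DF S (fun x : (ℕ × Set ℕ) × Cond => x.2) := DF.id.snd
    have hs : DF S (fun x : (ℕ × Set ℕ) × Cond => lf (rt x.1.2)) := DF.lf (DF.rt hX)
    have ht : DF S (fun x : (ℕ × Set ℕ) × Cond => rt (rt x.1.2)) := DF.rt (DF.rt hX)
    have d1 := (h_Ic S _ _ hp).2.2.2.2
    have d2 : Dfn S (fun x : (ℕ × Set ℕ) × Cond => lf x.1.2 = cdc x.2) := Dfn.eq (DF.lf hX) (cDF _ _ hp)
    have d3 := (h_Idl S _ _ ht).1
    have d4 : Dfn S (fun x : (ℕ × Set ℕ) × Cond => ∀ s : Node, inn T s → inn (rt (rt x.1.2)) s) := by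
      refine Dfn.allN (P := fun (x : (ℕ × Set ℕ) × Cond) (s : Node) => inn T s → inn (rt (rt x.1.2)) s) ?_
      refine Dfn.imp (hinT DF.id.snd) ?_
      exact h_Inn S _ (fun x : ((ℕ × Set ℕ) × Cond) × Node => rt (rt x.1.1.2)) (fun x => x.2)
        (DF.rt (DF.rt DF.id.fst.fst.snd)) DF.id.snd
    have d5 := (h_Sup S _ _ _ _ hs ht hp).1
    have d6 := (h_Sup S _ _ _ _ hs ht hp).2
    have d7 : Dfn S (fun x : (ℕ × Set ℕ) × Cond => ∀ (s : Node) (a : ℕ), inn T s →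
        inn (rt (rt x.1.2)) (a :: s) → a.unpair.1 ≠ m s) := by
      refine Dfn.allN (P := fun (x : (ℕ × Set ℕ) × Cond) (s : Node) => ∀ a : ℕ, inn T s →
        inn (rt (rt x.1.2)) (a :: s) → a.unpair.1 ≠ m s) ?_
      refine Dfn.allN (P := fun (x : ((ℕ × Set ℕ) × Cond) × Node) (a : ℕ) => inn T x.2 →
        inn (rt (rt x.1.1.2)) (a :: x.2) → a.unpair.1 ≠ m x.2) ?_
      refine Dfn.imp (hinT DF.id.fst.snd) (Dfn.imp ?_ (Dfn.not ?_))
      · exact h_Inn S _ (fun x : (((ℕ × Set ℕ) × Cond) × Node) × ℕ => rt (rt x.1.1.1.2)) (fun x => x.2 :: x.1.2)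
          (DF.rt (DF.rt DF.id.fst.fst.fst.snd)) (hcons DF.id.snd DF.id.fst.snd)
      · exact Dfn.eq (DF.unp1 DF.id.snd) (hm.comp DF.id.fst.snd)
    have d8 : Dfn S (fun x : (ℕ × Set ℕ) × Cond => Encodable.encode (res T x.2).1 = x.1.1.unpair.2) := by
      refine Dfn.eq (DF.enc (DF.fst (h_ResD S _ (fun _ => T) _ (DF.constR hTP) hp))) (DF.unp2 hj)
    have d9 : Dfn S (fun x : (ℕ × Set ℕ) × Cond => Frc S Gm φ x.2 (ex x.1.1.unpair.1 e) (ex (lf (rt x.1.2)) τ)) := by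
      refine h_FrcD S Gm hU.gm φ _ (fun x : (ℕ × Set ℕ) × Cond => x.2) (fun x => ex x.1.1.unpair.1 e)
        (fun x => ex (lf (rt x.1.2)) τ) hp ?_ ?_
      · intro i
        rcases i with _ | i
        · exact DF.unp1 hj
        · exact DF.constN (e i)
      · intro i
        rcases i with _ | i
        · exact hs
        · exact DF.constR (by rw [hU.pm]; exact hτ i)
    have d := Dfn.exV (P := fun (x : ℕ × Set ℕ) (p : Cond) => IsCond S p ∧ lf x.2 = cdc p ∧ IsI S (rt (rt x.2)) ∧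
      (∀ s, inn T s → inn (rt (rt x.2)) s) ∧ InT (rt (rt x.2)) p ∧ Sup S (lf (rt x.2)) (rt (rt x.2)) ∧
      (∀ s a, inn T s → inn (rt (rt x.2)) (a :: s) → a.unpair.1 ≠ m s) ∧
      Encodable.encode (res T p).1 = x.1.unpair.2 ∧ Frc S Gm φ p (ex x.1.unpair.1 e) (ex (lf (rt x.2)) τ))
      (d1.and (d2.and (d3.and (d4.and (d5.and (d6.and (d7.and (d8.and d9))))))))
    refine d.congr (fun x _ => ?_)
    constructor
    · rintro ⟨p, h1, h2⟩; exact ⟨p, cIc p h1, h1, h2⟩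
    · rintro ⟨p, -, h⟩; exact ⟨p, h⟩
  obtain ⟨A₀, hA₀, hac⟩ := hU.ac (fun j X => Wd S Gm T m φ e τ j X) dW
  have hA₀P : A₀ ∈ S.Pm := by rw [hU.pm]; exact hA₀
  set A : Set ℕ := {x | Wd S Gm T m φ e τ x.unpair.1 (sec A₀ x.unpair.1) ∧ x.unpair.2 ∈ sec A₀ x.unpair.1} with hA
  have hAU : A ∈ S.U := by
    apply hU.comp
    have e1 : DF S (fun x : ℕ => x.unpair.1) := DF.unp1 DF.id
    have e2 : DF S (fun x : ℕ => sec A₀ x.unpair.1) := DF.sec (DF.constR hA₀P) e1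
    exact Dfn.and (Dfn.comp (f := fun x : ℕ => (x.unpair.1, sec A₀ x.unpair.1)) dW (e1.pair e2))
      (Dfn.mem (DF.unp2 DF.id) e2)
  have hs1 : ∀ j, Wd S Gm T m φ e τ j (sec A₀ j) → sec A j = sec A₀ j := by
    intro j hj
    ext z
    constructor
    · rintro ⟨-, h⟩; simpa using h
    · intro h
      show Wd S Gm T m φ e τ (Nat.pair j z).unpair.1 (sec A₀ (Nat.pair j z).unpair.1) ∧
        (Nat.pair j z).unpair.2 ∈ sec A₀ (Nat.pair j z).unpair.1
      simp only [Nat.unpair_pair]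
      exact ⟨hj, h⟩
  have hs2 : ∀ j, ¬ Wd S Gm T m φ e τ j (sec A₀ j) → sec A j = ∅ := by
    intro j hj
    ext z
    simp only [Set.mem_empty_iff_false, iff_false]
    rintro ⟨h, -⟩
    simp only [Nat.unpair_pair] at h
    exact hj h
  refine ⟨A, hAU, ?_, ?_⟩
  · intro j hj
    by_cases h : Wd S Gm T m φ e τ j (sec A₀ j)
    · rw [hs1 j h]; exact h
    · exfalso
      obtain ⟨⟨p, -, hp⟩, -⟩ := hj
      rw [hs2 j h] at hp
      apply cne p
      rw [← hp]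
      rfl
  · intro j X hX hW
    have h := hac j ⟨X, hX, hW⟩
    have h' : Wd S Gm T m φ e τ j (sec A j) := by rw [hs1 j h]; exact h
    obtain ⟨p, h1, h2, h3, h4, h5, h6, h7, -⟩ := h'
    have hpA : pA A j = p := by
      have hex : ∃ p : Cond, lf (sec A j) = cdc p := ⟨p, h2⟩
      have e1 : pA A j = hex.choose := by simp only [pA, dif_pos hex]
      rw [e1]
      exact cinj _ _ (hex.choose_spec.symm.trans h2)
    exact ⟨⟨p, h1, h2⟩, h3, h4, by rw [hpA]; exact h5, h6, h7⟩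

end Pool.Agent.Lib.Z2
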