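import Pool.Agent.Lib.Z2.Fo.SpecC

/-! C45, forcing part: `S_AcD` (MP_8dbd20_lc) -/

namespace Pool.Agent.Lib.Z2

theorem tAcD (h_Inn : S_Inn) (h_Ic : S_Ic) (h_Cdc : S_Cdc) (h_Sup : S_Sup) (h_Idl : S_Idl) (h_Gcomp : S_Gcomp)
    (h_Triv : S_Triv) (h_PikD : S_PikD) (h_PinU : S_PinU) : S_AcD := by
  intro S _ Gm hU T m A hT hA hm
  have hTP : T ∈ S.Pm := by rw [hU.pm]; exact hT
  have hAP : A ∈ S.Pm := by rw [hU.pm]; exact hA
  have hsec : DF S (fun j : ℕ => sec A j) := DF.sec (DF.constR hAP) DF.id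
  have hs : DF S (fun j : ℕ => sA A j) := DF.lf (DF.rt hsec)
  have ht : DF S (fun j : ℕ => tA A j) := DF.rt (DF.rt hsec)
  obtain ⟨cinj, -, hcdc⟩ := h_Cdc
  obtain ⟨cvl, cIc, cDF⟩ := hcdc S
  have htr : vl S.U triv := cIc _ (h_Triv S Gm).1
  have hp : DF S (fun j : ℕ => pA A j) := by
    have hspec : ∀ (j : ℕ) (p : Cond), pA A j = p ↔ lf (sec A j) = cdc p ∨
        ((¬ ∃ p' : Cond, vl S.U p' ∧ lf (sec A j) = cdc p') ∧ p = triv) := by
      intro j p
      have hj : lf (sec A j) ∈ S.U := (DF.lf hsec).1 j (PShp.vl_all _ _)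
      have hex : (∃ p' : Cond, vl S.U p' ∧ lf (sec A j) = cdc p') ↔ ∃ p' : Cond, lf (sec A j) = cdc p' := by
        constructor
        · rintro ⟨p', -, h⟩; exact ⟨p', h⟩
        · rintro ⟨p', h⟩; exact ⟨p', (cvl p').2 (h ▸ hj), h⟩
      rw [hex]
      by_cases h : ∃ p' : Cond, lf (sec A j) = cdc p'
      · have e : pA A j = h.choose := by simp only [pA, dif_pos h]
        have e2 := h.choose_spec
        rw [e]
        constructor
        · intro he; left; rw [← he]; exact e2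
        · rintro (he | ⟨he, -⟩)
          · exact cinj _ _ (e2.symm.trans he)
          · exact absurd h he
      · have e : pA A j = triv := by simp only [pA, dif_neg h]
        rw [e]
        constructor
        · intro he; right; exact ⟨h, he.symm⟩
        · rintro (he | ⟨-, he⟩)
          · exact absurd ⟨p, he⟩ h
          · exact he.symm
    refine ⟨?_, ?_⟩
    · intro j hj
      have hj' : lf (sec A j) ∈ S.U := (DF.lf hsec).1 j hj
      rcases (hspec j (pA A j)).1 rfl with h | ⟨-, h⟩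
      · exact (cvl _).2 (h ▸ hj')
      · show vl S.U (pA A j)
        rw [h]; exact htr
    · have d1 : Dfn S (fun x : ℕ × Cond => lf (sec A x.1) = cdc x.2) :=
        Dfn.eq ((DF.lf hsec).comp DF.id.fst) (cDF _ _ DF.id.snd)
      have d2 : Dfn S (fun x : ℕ × Cond => ∃ p' : Cond, vl S.U p' ∧ lf (sec A x.1) = cdc p') := by
        refine Dfn.exV (P := fun (x : ℕ × Cond) (p' : Cond) => lf (sec A x.1) = cdc p') ?_
        exact Dfn.comp (f := fun x : (ℕ × Cond) × Cond => (x.1.1, x.2)) d1 (DF.id.fst.fst.pair DF.id.snd)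
      have d3 : Dfn S (fun x : ℕ × Cond => x.2 = triv) :=
        Dfn.eq DF.id.snd ((h_Gcomp S Gm hU).1 (ℕ × Cond) Cond triv htr)
      exact (d1.or (d2.not.and d3)).congr (fun x _ => hspec x.1 x.2)
  have hcons : ∀ {α : Type} [Shp α] {f : α → ℕ} {g : α → Node}, DF S f → DF S g → DF S (fun a => f a :: g a) := by
    intro α _ f g hf hg
    exact DF.prim₂ (F := fun (a : ℕ) (s : Node) => a :: s) Primrec.list_cons hf hg
  have hinT : ∀ {α : Type} [Shp α] {s : α → Node}, DF S s → Dfn S (fun a => inn T (s a)) := by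
    intro α _ s hs
    exact h_Inn S α (fun _ => T) s (DF.constR hTP) hs
  have hinA : ∀ {α : Type} [Shp α] {j : α → ℕ} {s : α → Node}, DF S j → DF S s →
      Dfn S (fun a => inn (tA A (j a)) (s a)) := by
    intro α _ j s hj hs
    exact h_Inn S α (fun a => tA A (j a)) s (ht.comp hj) hs
  have hV : Dfn S (fun j : ℕ => Vd S T m A j) := by
    refine Dfn.and ?_ (Dfn.and ?_ (Dfn.and ?_ (Dfn.and ?_ (Dfn.and ?_ ?_))))
    · have : Dfn S (fun j : ℕ => ∃ p : Cond, vl S.U p ∧ (IsCond S p ∧ lf (sec A j) = cdc p)) := by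
        refine Dfn.exV (P := fun (j : ℕ) (p : Cond) => IsCond S p ∧ lf (sec A j) = cdc p) ?_
        exact Dfn.and (h_Ic S _ (fun x : ℕ × Cond => x.2) DF.id.snd).2.2.2.2
          (Dfn.eq ((DF.lf hsec).comp DF.id.fst) (cDF _ _ DF.id.snd))
      refine this.congr (fun j _ => ?_)
      constructor
      · rintro ⟨p, h1, h2⟩; exact ⟨p, cIc p h1, h1, h2⟩
      · rintro ⟨p, -, h⟩; exact ⟨p, h⟩
    · exact (h_Idl S ℕ _ ht).1
    · refine Dfn.allN (P := fun (j : ℕ) (s : Node) => inn T s → inn (tA A j) s) ?_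
      exact Dfn.imp (hinT DF.id.snd) (hinA DF.id.fst DF.id.snd)
    · exact (h_Sup S ℕ _ _ _ hs ht hp).1
    · exact (h_Sup S ℕ _ _ _ hs ht hp).2
    · refine Dfn.allN (P := fun (j : ℕ) (s : Node) => ∀ a : ℕ, inn T s → inn (tA A j) (a :: s) → a.unpair.1 ≠ m s) ?_
      refine Dfn.allN (P := fun (x : ℕ × Node) (a : ℕ) => inn T x.2 → inn (tA A x.1) (a :: x.2) → a.unpair.1 ≠ m x.2) ?_
      refine Dfn.imp (hinT DF.id.fst.snd) (Dfn.imp (hinA DF.id.fst.fst (hcons DF.id.snd DF.id.fst.snd)) (Dfn.not ?_))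
      exact Dfn.eq (DF.unp1 DF.id.snd) (hm.comp DF.id.fst.snd)
  have hk : DF S (fun x : (ℕ × ℕ) × Node × ℕ => kA T m A x.1.1 x.1.2 x.2.1 x.2.2) := by
    classical
    have e1 : DF S (fun x : (ℕ × ℕ) × Node × ℕ => m x.2.1) := hm.comp DF.id.snd.fst
    have e2 : DF S (fun x : (ℕ × ℕ) × Node × ℕ => Nat.pair x.1.1 x.1.2) := DF.natPair DF.id.fst.fst DF.id.fst.snd
    have e3 : DF S (fun x : (ℕ × ℕ) × Node × ℕ => x.2.2.unpair.2.unpair.2) := DF.unp2 (DF.unp2 DF.id.snd.snd)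
    have c1 : DF S (fun x : (ℕ × ℕ) × Node × ℕ => x.2.2 :: x.2.1) := hcons DF.id.snd.snd DF.id.snd.fst
    have c2 : DF S (fun x : (ℕ × ℕ) × Node × ℕ => x.2.2.unpair.2.unpair.2 :: x.2.1) := hcons e3 DF.id.snd.fst
    refine DF.congr (DF.ite (p := fun x : (ℕ × ℕ) × Node × ℕ => inn (tA A x.1.1) (x.2.2 :: x.2.1) ∧
        ¬ inn T (x.2.2 :: x.2.1)) (Dfn.and (hinA DF.id.fst.fst c1) (hinT c1).not)
      (DF.natPair e1 (DF.natPair e2 DF.id.snd.snd))
      (DF.ite (p := fun x : (ℕ × ℕ) × Node × ℕ => x.2.2.unpair.1 = m x.2.1 ∧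
        x.2.2.unpair.2.unpair.1 = Nat.pair x.1.1 x.1.2 ∧
        inn (tA A x.1.1) (x.2.2.unpair.2.unpair.2 :: x.2.1) ∧ ¬ inn T (x.2.2.unpair.2.unpair.2 :: x.2.1))
        (Dfn.and (Dfn.eq (DF.unp1 DF.id.snd.snd) e1)
          (Dfn.and (Dfn.eq (DF.unp1 (DF.unp2 DF.id.snd.snd)) e2)
            (Dfn.and (hinA DF.id.fst.fst c2) (hinT c2).not)))
        e3 DF.id.snd.snd)) ?_
    intro x _
    simp only [kA]
  have hπ : DF S (fun x : (ℕ × ℕ) × Node => πA T m A x.1.1 x.1.2 x.2) :=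
    h_PikD S (ℕ × ℕ) (fun _ => T) (fun x => kA T m A x.1 x.2) (DF.constR hTP) hk
  obtain ⟨q1, q2, -⟩ := h_PinU S Gm hU (ℕ × ℕ) (fun x => πA T m A x.1 x.2) hπ
  exact ⟨hV, hp, hs, ht, hk, hπ, q1 _ (hp.comp DF.id.fst), q2 _ (hs.comp DF.id.fst)⟩

end Pool.Agent.Lib.Z2
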