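import Pool.Agent.Lib.Z2.Fo.SpecC

/-! C45, forcing part: `S_AcK` (MP_8dbd20_lc) -/

namespace Pool.Agent.Lib.Z2

theorem tAcK (h_PikB : S_PikB) : S_AcK := by
  intro S T m A j k hT hm hV
  obtain ⟨-, hroot, hTC, hcol, -⟩ := hT
  obtain ⟨-, ⟨-, -, hTCj, hcolj, -⟩, -, -, -, hV6⟩ := hV
  have k1 : ∀ s a, inn (tA A j) (a :: s) → ¬ inn T (a :: s) →
      kA T m A j k s a = Nat.pair (m s) (Nat.pair (Nat.pair j k) a) := by
    intro s a h h'
    simp [kA, h, h']
  have k2 : ∀ s b, inn T s → inn (tA A j) (b :: s) → ¬ inn T (b :: s) →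
      kA T m A j k s (Nat.pair (m s) (Nat.pair (Nat.pair j k) b)) = b := by
    intro s b hs h h'
    have : ¬ inn (tA A j) (Nat.pair (m s) (Nat.pair (Nat.pair j k) b) :: s) := by
      intro hc
      have := hV6 s _ hs hc
      simp at this
    simp [kA, h, h', this]
  have k3 : ∀ s a, ¬ (inn (tA A j) (a :: s) ∧ ¬ inn T (a :: s)) →
      ¬ (a.unpair.1 = m s ∧ a.unpair.2.unpair.1 = Nat.pair j k ∧ inn (tA A j) (a.unpair.2.unpair.2 :: s) ∧
        ¬ inn T (a.unpair.2.unpair.2 :: s)) → kA T m A j k s a = a := by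
    intro s a h h'
    simp only [kA, if_neg h, if_neg h']
  have hK : Kap T (kA T m A j k) := by
    refine ⟨?_, ?_, ?_⟩
    · intro s a hs
      by_cases ha : inn (tA A j) (a :: s) ∧ ¬ inn T (a :: s)
      · rw [k1 s a ha.1 ha.2, k2 s a hs ha.1 ha.2]
      · by_cases hb : a.unpair.1 = m s ∧ a.unpair.2.unpair.1 = Nat.pair j k ∧
            inn (tA A j) (a.unpair.2.unpair.2 :: s) ∧ ¬ inn T (a.unpair.2.unpair.2 :: s)
        · have e : a = Nat.pair (m s) (Nat.pair (Nat.pair j k) a.unpair.2.unpair.2) := by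
            rw [← hb.2.1, Nat.pair_unpair, ← hb.1, Nat.pair_unpair]
          have e2 : kA T m A j k s a = a.unpair.2.unpair.2 := by
            conv_lhs => rw [e]
            exact k2 s _ hs hb.2.2.1 hb.2.2.2
          rw [e2, k1 s _ hb.2.2.1 hb.2.2.2]
          exact e.symm
        · rw [k3 s a ha hb, k3 s a ha hb]
    · intro s a ha
      have hs : inn T s := hTC _ ha
      apply k3
      · exact fun h => h.2 ha
      · rintro ⟨e, -⟩
        have := hm s a hs ha
        omega
    · intro s hs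
      obtain ⟨m', hm'⟩ := hcolj s
      refine ⟨max (m s) m' + 1, fun a ha => ?_⟩
      have h1 := le_max_left (m s) m'
      have h2 := le_max_right (m s) m'
      apply k3
      · rintro ⟨h, -⟩
        have := hm' a h
        omega
      · rintro ⟨h, -⟩
        omega
  refine ⟨hK, ?_⟩
  obtain ⟨b1, b2, b3, b4, b5, b6⟩ := h_PikB T (kA T m A j k) hroot hTC hK
  intro s hs hπs
  obtain ⟨u, a, t, rfl, ht, hat, hπ⟩ := b6 s hs
  have hπ' : πA T m A j k (u ++ a :: t) = u ++ kA T m A j k t a :: t := hπ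
  rw [hπ'] at hπs
  have hsuf : ∀ (u : List ℕ) (v : Node), inn (tA A j) (u ++ v) → inn (tA A j) v := by
    intro u v
    induction u with
    | nil => intro h; exact h
    | cons x u ih => intro h; exact ih (hTCj _ h)
  have hb : inn (tA A j) (kA T m A j k t a :: t) := hsuf u _ hπs
  have hbT : ¬ inn T (kA T m A j k t a :: t) := by
    intro hc
    have e1 := hK.2.1 t _ hc
    have e2 := hK.1 t a ht
    rw [e1] at e2
    rw [e2] at hc
    exact hat hc
  have e := k1 t (kA T m A j k t a) hb hbT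
  rw [hK.1 t a ht] at e
  refine ⟨u, t, kA T m A j k t a, ?_, ht, ?_, hπ'⟩
  · rw [← e]
  · rw [← e]; exact hat

end Pool.Agent.Lib.Z2
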