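import Pool.Agent.Lib.Z2.Fo.SpecC

/-! C45, forcing part: `S_AcM` (MP_8dbd20_lc) -/

namespace Pool.Agent.Lib.Z2

private theorem acm_find {S : Str} [Good S] {α : Type} [Shp α] {R : α → ℕ → Prop} {f : α → ℕ}
    (hR : Dfn S (fun x : α × ℕ => R x.1 x.2)) (hf : ∀ a, R a (f a) ∧ ∀ y < f a, ¬ R a y) : DF S f := by
  refine ⟨fun _ _ => PShp.vl_all _ _, ?_⟩
  have h1 : Dfn S (fun x : α × ℕ => R x.1 x.2 ∧ ∀ y : ℕ, y < x.2 → ¬ R x.1 y) := by
    refine hR.and ?_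
    refine Dfn.allN (P := fun (x : α × ℕ) (y : ℕ) => y < x.2 → ¬ R x.1 y) ?_
    refine Dfn.imp (Dfn.lt DF.id.snd DF.id.fst.snd) (Dfn.not ?_)
    exact hR.comp (f := fun x : (α × ℕ) × ℕ => (x.1.1, x.2)) (DF.id.fst.fst.pair DF.id.snd)
  refine h1.congr (fun x _ => ?_)
  constructor
  · intro h
    rw [← h]; exact hf x.1
  · rintro ⟨h, h'⟩
    obtain ⟨g, g'⟩ := hf x.1
    rcases lt_trichotomy (f x.1) x.2 with hlt | heq | hgt
    · exact absurd g (h' _ hlt)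
    · exact heq
    · exact absurd h (g' _ hgt)

theorem tAcM (h_Trans : S_Trans) (h_Inn : S_Inn) (h_Le : S_Le) (h_Ic : S_Ic) (h_Cdc : S_Cdc)
    (h_Gcomp : S_Gcomp) (h_PicM : S_PicM)
    (h_NmA : S_NmA) (h_FrcFx : S_FrcFx) (h_PikB : S_PikB)
    (h_Truth : S_Truth) (h_AcK : S_AcK) (h_AcD : S_AcD) (h_AcT : S_AcT) (h_AcN1 : S_AcN1)
    (h_AcN2 : S_AcN2) (h_AcA : S_AcA) (h_AcP : S_AcP) : S_AcM := by
  intro S _ Gm hU G hG T hI φ e E hE hex
  choose τ hτU hτT hτE using hE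
  have hNm : ∀ i, Nm S (τ i) := fun i => ⟨hτU i, T, hI, hτT i⟩
  obtain rfl : E = fun i => evl S G (τ i) := funext hτE
  have hTP : T ∈ S.Pm := by rw [hU.pm]; exact hI.1
  -- p₀
  obtain ⟨p₀, hp₀G, hp₀⟩ := (h_Truth S Gm hU G hG (.allN (.exS φ)) e τ hNm).1 (by
    intro n hcon
    obtain ⟨X, hX, hs⟩ := hex n
    exact hcon X hX hs)
  have hp₀c := hG.cond _ hp₀G
  have h0 : ∀ n q, IsCond S q → Le Gm q p₀ → ∃ r, IsCond S r ∧ Le Gm r q ∧ ∃ σ, Nm S σ ∧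
      Frc S Gm φ r (ex n e) (ex σ τ) := by
    intro n q hq hqp
    by_contra hcon
    refine hp₀ n q hq hqp ?_
    intro σ hσ r hr hrq hF
    exact hcon ⟨r, hr, hrq, σ, hσ, hF⟩
  -- m
  have hcol := hI.2.2.2.1
  classical
  let m : Node → ℕ := fun s => Nat.find (hcol s)
  have hm1 : ∀ s, ∀ a, inn T (a :: s) → a.unpair.1 < m s := fun s => Nat.find_spec (hcol s)
  have hm : DF S m := by
    refine acm_find (R := fun (s : Node) (y : ℕ) => ∀ a : ℕ, inn T (a :: s) → a.unpair.1 < y) ?_ (fun s =>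
      ⟨Nat.find_spec (hcol s), fun y hy => Nat.find_min (hcol s) hy⟩)
    refine Dfn.allN (P := fun (x : Node × ℕ) (a : ℕ) => inn T (a :: x.1) → a.unpair.1 < x.2) ?_
    refine Dfn.imp ?_ (Dfn.lt (DF.unp1 DF.id.snd) DF.id.fst.snd)
    exact h_Inn S _ (fun _ => T) (fun x : (Node × ℕ) × ℕ => x.2 :: x.1.1) (DF.constR hTP)
      (DF.prim₂ (F := fun (a : ℕ) (s : Node) => a :: s) Primrec.list_cons DF.id.snd DF.id.fst.fst)
  have hMb : Mb T m := fun s a _ ha => hm1 s a ha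
  clear_value m
  obtain ⟨A, hA, hA1, hA2⟩ := h_AcA S Gm hU T m hI hm φ e τ hτU
  obtain ⟨dVd, dpA, -, -, -, -, dpic, -⟩ := h_AcD S Gm hU T m A hI.1 hA hm
  have hPA := h_AcP S Gm hU T m hI hm hMb φ e τ hτU hτT A hA hA1 hA2
  obtain ⟨hst, -, hstA⟩ := h_AcT S Gm hU T m A hI hA hm hMb
  have hpAc : ∀ j, Vd S T m A j → IsCond S (pA A j) := by
    intro j hj
    obtain ⟨p, hp, hcp⟩ := hj.1
    have hex' : ∃ p : Cond, lf (sec A j) = cdc p := ⟨p, hcp⟩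
    have e1 : pA A j = hex'.choose := by simp only [pA, dif_pos hex']
    have e2 := hex'.choose_spec
    rw [e1, h_Cdc.1 _ _ (e2.symm.trans hcp)]
    exact hp
  have hpicc : ∀ j k, Vd S T m A j → IsCond S (pic (πA T m A j k) (pA A j)) := by
    intro j k hj
    have hAut := (hstA j k hj).1
    obtain ⟨-, -, -, -, -, -, -, hc, -⟩ := (h_PicM S Gm _ hAut.nil hAut.tl hAut.inv).2 (pA A j)
    exact hc (hpAc j hj)
  -- density
  have hdens : ∀ n : ℕ, ∃ t k, Vd S T m A (Nat.pair n t) ∧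
      G (pic (πA T m A (Nat.pair n t) k) (pA A (Nat.pair n t))) := by
    intro n
    obtain ⟨r, hrG, hr⟩ := hG.meet (fun r => (∃ t k, Vd S T m A (Nat.pair n t) ∧
        Le Gm r (pic (πA T m A (Nat.pair n t) k) (pA A (Nat.pair n t)))) ∨
        ∀ r', vl S.U r' → IsCond S r' → Le Gm r' r → ¬ Le Gm r' p₀) (by
      refine Dfn.or ?_ ?_
      · refine Dfn.exN (P := fun (r : Cond) (t : ℕ) => ∃ k, Vd S T m A (Nat.pair n t) ∧
          Le Gm r (pic (πA T m A (Nat.pair n t) k) (pA A (Nat.pair n t)))) ?_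
        refine Dfn.exN (P := fun (x : Cond × ℕ) (k : ℕ) => Vd S T m A (Nat.pair n x.2) ∧
          Le Gm x.1 (pic (πA T m A (Nat.pair n x.2) k) (pA A (Nat.pair n x.2)))) ?_
        have dj : DF S (fun x : (Cond × ℕ) × ℕ => Nat.pair n x.1.2) := DF.natPair (DF.constN n) DF.id.fst.snd
        refine (dVd.comp dj).and ?_
        refine h_Le S Gm _ (fun x : (Cond × ℕ) × ℕ => x.1.1)
          (fun x => pic (πA T m A (Nat.pair n x.1.2) x.2) (pA A (Nat.pair n x.1.2))) hU.gm DF.id.fst.fst ?_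
        exact dpic.comp (f := fun x : (Cond × ℕ) × ℕ => (Nat.pair n x.1.2, x.2)) (dj.pair DF.id.snd)
      · refine Dfn.allV (P := fun (r : Cond) (r' : Cond) => IsCond S r' → Le Gm r' r → ¬ Le Gm r' p₀) ?_
        have hp0v : DF S (fun _ : Cond × Cond => p₀) :=
          (h_Gcomp S Gm hU).1 _ _ p₀ ((h_Cdc.2.2 S).2.1 p₀ hp₀c)
        refine Dfn.imp (h_Ic S _ (fun x : Cond × Cond => x.2) DF.id.snd).2.2.2.2 (Dfn.imp ?_ (Dfn.not ?_))
        · exact h_Le S Gm _ (fun x : Cond × Cond => x.2) (fun x => x.1) hU.gm DF.id.snd DF.id.fst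
        · exact h_Le S Gm _ (fun x : Cond × Cond => x.2) (fun x => p₀) hU.gm DF.id.snd hp0v) (by
      intro q hq
      by_cases hcq : ∃ r', IsCond S r' ∧ Le Gm r' q ∧ Le Gm r' p₀
      · obtain ⟨r', hr', hr'q, hr'p⟩ := hcq
        obtain ⟨t, k, r, hV, hr, hrr', hrp⟩ := hPA n r' hr' (h0 n r' hr' hr'p)
        exact ⟨r, hr, h_Trans S Gm q r' r hq hr' hr hrr' hr'q, Or.inl ⟨t, k, hV, hrp⟩⟩
      · refine ⟨q, hq, ?_, Or.inr ?_⟩
        · -- reflexivity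
          refine ⟨fun s hs => hs, le_refl _, fun s _ k _ => Iff.rfl, fun c hc => hc, ?_⟩
          intro s hs k hk hle
          exact absurd (hq.2.1 _ hk).2 (by simpa using hle)
        · intro r' _ hr' hr'q hr'p
          exact hcq ⟨r', hr', hr'q, hr'p⟩)
    rcases hr with ⟨t, k, hV, hle⟩ | hr
    · exact ⟨t, k, hV, hG.up _ _ hrG (hpicc _ k hV) hle⟩
    · obtain ⟨r'', hr''G, h1, h2⟩ := hG.dir _ _ hrG hp₀G
      have hc := hG.cond _ hr''G
      exact absurd h2 (hr r'' ((h_Cdc.2.2 S).2.1 _ hc) hc h1)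
  obtain ⟨α, hα, hαst, hαE⟩ := h_AcN1 S Gm hU T m A hI hA hm hMb
  obtain ⟨β, hβ, hβst, hβE⟩ := h_AcN2 S Gm hU T m A hI hA hm hMb
  refine ⟨evl S G α, ⟨α, ⟨hα, _, hst, hαst⟩, rfl⟩, evl S G β, ⟨β, ⟨hβ, _, hst, hβst⟩, rfl⟩, ?_, ?_⟩
  · intro n
    obtain ⟨t, k, hV, hGp⟩ := hdens n
    exact ⟨t, k, _, (hαE _ _).2 ⟨_, _, rfl, hV, rfl⟩, hGp⟩
  · rintro n t k ⟨w, hw, hwG⟩
    obtain ⟨j', k', hjk, hV, rfl⟩ := (hαE _ _).1 hw
    obtain ⟨rfl, rfl⟩ := Nat.pair_eq_pair.1 hjk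
    set j := Nat.pair n t with hj
    obtain ⟨p', hp', hcp', -, -, -, -, -, -, hF⟩ := hA1 j hV
    have hpA : pA A j = p' := by
      have hex' : ∃ p : Cond, lf (sec A j) = cdc p := ⟨p', hcp'⟩
      have e1 : pA A j = hex'.choose := by simp only [pA, dif_pos hex']
      have e2 := hex'.choose_spec
      rw [e1]
      exact h_Cdc.1 _ _ (e2.symm.trans hcp')
    have hAut := (hstA j k hV).1
    have hK := h_AcK S T m A j k hI hMb hV
    have hfix2 : ∀ s, inn T s → πA T m A j k s = s :=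
      (h_PikB T (kA T m A j k) hI.2.1 hI.2.2.1 hK.1).2.2.2.1
    have hF2 := (h_FrcFx S Gm hU _ hAut T hfix2 φ p' _ τ hp' hτT).2 _ hF
    have hnj : (Nat.unpair j).1 = n := by rw [hj, Nat.unpair_pair]
    rw [hnj] at hF2
    have hsAU : sA A j ∈ S.U := Good.lf_mem S (Good.rt_mem S (Good.sec_mem S hA j))
    have hNs : Nm S (pin (πA T m A j k) (sA A j)) := (h_NmA S Gm hU _ hAut).2 _ ⟨hsAU, _, hV.2.1, hV.2.2.2.2.1⟩
    have hsat := (h_Truth S Gm hU G hG φ (ex n e) (ex (pin (πA T m A j k) (sA A j)) τ) (by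
      intro i
      rcases i with _ | i
      · exact hNs
      · exact hNm i)).2 ⟨_, (by rw [← hpA]; exact hwG), hF2⟩
    have hassign : (fun i => evl S G (ex (pin (πA T m A j k) (sA A j)) τ i)) =
        ex (sec (evl S G β) (Nat.pair j k)) (fun i => evl S G (τ i)) := by
      funext i
      rcases i with _ | i
      · show evl S G (pin (πA T m A j k) (sA A j)) = sec (evl S G β) (Nat.pair j k)
        ext y
        show (∃ p, Ent S _ y p ∧ G p) ↔ ∃ p, Ent S β (Nat.pair (Nat.pair j k) y) p ∧ G p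
        constructor
        · rintro ⟨w, hw, hwG⟩
          exact ⟨w, (hβE _ _).2 ⟨_, _, _, rfl, hV, hw⟩, hwG⟩
        · rintro ⟨w, hw, hwG⟩
          obtain ⟨j₁, k₁, y₁, h1, -, h3⟩ := (hβE _ _).1 hw
          obtain ⟨h4, rfl⟩ := Nat.pair_eq_pair.1 h1
          obtain ⟨rfl, rfl⟩ := Nat.pair_eq_pair.1 h4
          exact ⟨w, h3, hwG⟩
      · rfl
    rw [hassign] at hsat
    exact hsat

end Pool.Agent.Lib.Z2
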