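import Pool.Agent.Lib.Z2.Fo.SpecC

/-!
# The name of the set of the pairs whose condition is in the filter
-/

namespace Pool.Agent.Lib.Z2

private theorem AcN1_pA (h_Cdc : S_Cdc) {A : Set ℕ} {j : ℕ} {p : Cond} (hp : lf (sec A j) = cdc p) :
    pA A j = p := by
  have h : ∃ p : Cond, lf (sec A j) = cdc p := ⟨p, hp⟩
  unfold pA
  rw [dif_pos h]
  exact h_Cdc.1 _ _ (h.choose_spec.symm.trans hp)

private def AcN1_a (S : Str) (T : Set ℕ) (m : Node → ℕ) (A : Set ℕ) : Set ℕ :=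
  {x | ∃ j k : ℕ, x.unpair.1.unpair.1 = Nat.pair j k ∧ Vd S T m A j ∧
    x.unpair.2 ∈ cdc (pic (πA T m A j k) (pA A j))}

private theorem AcN1_mem (S : Str) (T : Set ℕ) (m : Node → ℕ) (A : Set ℕ) (n i y : ℕ) :
    y ∈ sec (AcN1_a S T m A) (Nat.pair n i) ↔ ∃ j k : ℕ, n = Nat.pair j k ∧ Vd S T m A j ∧
      y ∈ cdc (pic (πA T m A j k) (pA A j)) := by
  rw [mem_sec]
  show (∃ j k : ℕ, (Nat.pair (Nat.pair n i) y).unpair.1.unpair.1 = Nat.pair j k ∧ Vd S T m A j ∧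
    (Nat.pair (Nat.pair n i) y).unpair.2 ∈ cdc (pic (πA T m A j k) (pA A j))) ↔ _
  rw [Nat.unpair_pair, Nat.unpair_pair]

private theorem AcN1_sec (S : Str) (T : Set ℕ) (m : Node → ℕ) (A : Set ℕ) (j k i : ℕ)
    (h : Vd S T m A j) :
    sec (AcN1_a S T m A) (Nat.pair (Nat.pair j k) i) = cdc (pic (πA T m A j k) (pA A j)) := by
  ext y
  rw [AcN1_mem]
  constructor
  · rintro ⟨j', k', e, -, hy⟩
    obtain ⟨rfl, rfl⟩ := Nat.pair_eq_pair.1 e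
    exact hy
  · intro hy
    exact ⟨j, k, rfl, h, hy⟩

private theorem AcN1_dfn (h_Cdc : S_Cdc) (h_AcD : S_AcD) (S : Str) [Good S] (Gm : Set ℕ → Set ℕ)
    (hU : Uni S Gm) (T : Set ℕ) (m : Node → ℕ) (A : Set ℕ) (hT : T ∈ S.U) (hA : A ∈ S.U)
    (hm : DF S m) : Dfn S (fun x : ℕ => ∃ j k : ℕ, x.unpair.1.unpair.1 = Nat.pair j k ∧ Vd S T m A j ∧
    x.unpair.2 ∈ cdc (pic (πA T m A j k) (pA A j))) := by
  obtain ⟨d1, -, -, -, -, -, d2, -⟩ := h_AcD S Gm hU T m A hT hA hm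
  have d3 := (h_Cdc.2.2 S).2.2 (ℕ × ℕ) (fun x => pic (πA T m A x.1 x.2) (pA A x.1)) d2
  have v1 : DF S (fun x : (ℕ × ℕ) × ℕ => x.1.1) := Smp.id.fst.fst.df
  have v2 : DF S (fun x : (ℕ × ℕ) × ℕ => x.1.2) := Smp.id.fst.snd.df
  have v3 : DF S (fun x : (ℕ × ℕ) × ℕ => x.2) := Smp.id.snd.df
  have e1 : Dfn S (fun x : (ℕ × ℕ) × ℕ => x.1.1.unpair.1.unpair.1 = Nat.pair x.1.2 x.2) :=
    Dfn.eq (DF.unp1 (DF.unp1 v1)) (DF.natPair v2 v3)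
  have e2 : Dfn S (fun x : (ℕ × ℕ) × ℕ => Vd S T m A x.1.2) :=
    Dfn.comp (P := fun j : ℕ => Vd S T m A j) (f := fun x : (ℕ × ℕ) × ℕ => x.1.2) d1 v2
  have e3 : DF S (fun x : (ℕ × ℕ) × ℕ => cdc (pic (πA T m A x.1.2 x.2) (pA A x.1.2))) :=
    DF.comp (g := fun x : ℕ × ℕ => cdc (pic (πA T m A x.1 x.2) (pA A x.1)))
      (f := fun x : (ℕ × ℕ) × ℕ => (x.1.2, x.2)) d3 (v2.pair v3)
  have e4 : Dfn S (fun x : (ℕ × ℕ) × ℕ =>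
      x.1.1.unpair.2 ∈ cdc (pic (πA T m A x.1.2 x.2) (pA A x.1.2))) :=
    Dfn.mem (DF.unp2 v1) e3
  have e5 := e1.and (e2.and e4)
  have e6 : Dfn S (fun x : ℕ × ℕ => ∃ k : ℕ, x.1.unpair.1.unpair.1 = Nat.pair x.2 k ∧
      Vd S T m A x.2 ∧ x.1.unpair.2 ∈ cdc (pic (πA T m A x.2 k) (pA A x.2))) :=
    Dfn.exN (P := fun (x : ℕ × ℕ) (k : ℕ) => x.1.unpair.1.unpair.1 = Nat.pair x.2 k ∧
      Vd S T m A x.2 ∧ x.1.unpair.2 ∈ cdc (pic (πA T m A x.2 k) (pA A x.2))) e5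
  exact Dfn.exN (P := fun (x : ℕ) (j : ℕ) => ∃ k : ℕ, x.unpair.1.unpair.1 = Nat.pair j k ∧
    Vd S T m A j ∧ x.unpair.2 ∈ cdc (pic (πA T m A j k) (pA A j))) e6

theorem tAcN1 (h_Cdc : S_Cdc) (h_PicM : S_PicM) (h_AcD : S_AcD) (h_AcT : S_AcT) : S_AcN1 := by
  intro S _ Gm hU T m A hT hA hm hb
  obtain ⟨-, -, hst⟩ := h_AcT S Gm hU T m A hT hA hm hb
  have key : ∀ n w, Ent S (AcN1_a S T m A) n w ↔ ∃ j k, n = Nat.pair j k ∧ Vd S T m A j ∧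
      w = pic (πA T m A j k) (pA A j) := by
    intro n w
    constructor
    · rintro ⟨hw, i, hi⟩
      obtain ⟨y, hy⟩ := Set.nonempty_iff_ne_empty.2 (h_Cdc.2.1 w)
      rw [← hi, AcN1_mem] at hy
      obtain ⟨j, k, rfl, hj, -⟩ := hy
      rw [AcN1_sec S T m A j k i hj] at hi
      exact ⟨j, k, rfl, hj, (h_Cdc.1 _ _ hi).symm⟩
    · rintro ⟨j, k, rfl, hj, rfl⟩
      obtain ⟨aut, -⟩ := hst j k hj
      refine ⟨?_, 0, AcN1_sec S T m A j k 0 hj⟩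
      obtain ⟨p, hp, hp'⟩ := hj.1
      have hc := (h_PicM S Gm (πA T m A j k) aut.nil aut.tl aut.inv).2 (pA A j)
      refine hc.2.2.2.2.2.2.2.1 ?_
      rw [AcN1_pA h_Cdc hp']
      exact hp
  refine ⟨AcN1_a S T m A, hU.comp _ (AcN1_dfn h_Cdc h_AcD S Gm hU T m A hT.1 hA hm), ?_, key⟩
  intro n w hw
  obtain ⟨j, k, rfl, hj, rfl⟩ := (key n w).1 hw
  obtain ⟨aut, hsub⟩ := hst j k hj
  have hc := (h_PicM S Gm (πA T m A j k) aut.nil aut.tl aut.inv).2 (pA A j)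
  have h1 := hc.2.2.2.2.2.2.2.2.1 (tA A j) hj.2.2.2.1
  intro s hs
  exact hsub s (h1 s hs)

end Pool.Agent.Lib.Z2
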