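import Pool.Agent.Lib.Z2.Fo.SpecC

/-! C45, forcing part: `S_AcN2` (MP_8dbd20_lc) -/

namespace Pool.Agent.Lib.Z2

theorem tAcN2 (h_Cdc : S_Cdc) (h_PinE : S_PinE) (h_AcD : S_AcD) (h_AcT : S_AcT) : S_AcN2 := by
  intro S _ Gm hU T m A hT hA hm hMb
  obtain ⟨dV, -, ds, dt, dk, dπ, -, dpin⟩ := h_AcD S Gm hU T m A hT.1 hA hm
  obtain ⟨-, -, hst⟩ := h_AcT S Gm hU T m A hT hA hm hMb
  obtain ⟨-, cne, -⟩ := h_Cdc
  set β : Set ℕ := {x | ∃ j k y : ℕ, x.unpair.1.unpair.1 = Nat.pair (Nat.pair j k) y ∧ Vd S T m A j ∧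
    x.unpair.2 ∈ sec (pin (πA T m A j k) (sA A j)) (Nat.pair y x.unpair.1.unpair.2)} with hβ
  have hβU : β ∈ S.U := by
    apply hU.comp
    refine Dfn.exN (P := fun (x : ℕ) (j : ℕ) => ∃ k y : ℕ, x.unpair.1.unpair.1 = Nat.pair (Nat.pair j k) y ∧
      Vd S T m A j ∧ x.unpair.2 ∈ sec (pin (πA T m A j k) (sA A j)) (Nat.pair y x.unpair.1.unpair.2)) ?_
    refine Dfn.exN (P := fun (x : ℕ × ℕ) (k : ℕ) => ∃ y : ℕ, x.1.unpair.1.unpair.1 = Nat.pair (Nat.pair x.2 k) y ∧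
      Vd S T m A x.2 ∧ x.1.unpair.2 ∈ sec (pin (πA T m A x.2 k) (sA A x.2)) (Nat.pair y x.1.unpair.1.unpair.2)) ?_
    refine Dfn.exN (P := fun (x : (ℕ × ℕ) × ℕ) (y : ℕ) => x.1.1.unpair.1.unpair.1 = Nat.pair (Nat.pair x.1.2 x.2) y ∧
      Vd S T m A x.1.2 ∧ x.1.1.unpair.2 ∈ sec (pin (πA T m A x.1.2 x.2) (sA A x.1.2))
        (Nat.pair y x.1.1.unpair.1.unpair.2)) ?_
    have e0 : DF S (fun x : ((ℕ × ℕ) × ℕ) × ℕ => x.1.1.1) := DF.id.fst.fst.fst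
    have ej : DF S (fun x : ((ℕ × ℕ) × ℕ) × ℕ => x.1.1.2) := DF.id.fst.fst.snd
    have ek : DF S (fun x : ((ℕ × ℕ) × ℕ) × ℕ => x.1.2) := DF.id.fst.snd
    have ey : DF S (fun x : ((ℕ × ℕ) × ℕ) × ℕ => x.2) := DF.id.snd
    refine Dfn.and (Dfn.eq (DF.unp1 (DF.unp1 e0)) (DF.natPair (DF.natPair ej ek) ey)) (Dfn.and ?_ ?_)
    · exact Dfn.comp (f := fun x : ((ℕ × ℕ) × ℕ) × ℕ => x.1.1.2) dV ej
    · refine Dfn.mem (DF.unp2 e0) (DF.sec ?_ (DF.natPair ey (DF.unp2 (DF.unp1 e0))))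
      exact DF.comp (f := fun x : ((ℕ × ℕ) × ℕ) × ℕ => (x.1.1.2, x.1.2)) dpin (ej.pair ek)
  have hsec : ∀ j k y i, Vd S T m A j → sec β (Nat.pair (Nat.pair (Nat.pair j k) y) i) =
      sec (pin (πA T m A j k) (sA A j)) (Nat.pair y i) := by
    intro j k y i hj
    ext z
    constructor
    · rintro ⟨j', k', y', h1, h2, h3⟩
      simp only [Nat.unpair_pair] at h1 h3
      obtain ⟨h4, rfl⟩ := Nat.pair_eq_pair.1 h1
      obtain ⟨rfl, rfl⟩ := Nat.pair_eq_pair.1 h4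
      exact h3
    · intro hz
      refine ⟨j, k, y, by simp, hj, ?_⟩
      simp only [Nat.unpair_pair]
      exact hz
  have hent : ∀ n w, Ent S β n w ↔ ∃ j k y, n = Nat.pair (Nat.pair j k) y ∧ Vd S T m A j ∧
      Ent S (pin (πA T m A j k) (sA A j)) y w := by
    intro n w
    constructor
    · rintro ⟨hw, i, hi⟩
      have hne : (sec β (Nat.pair n i)).Nonempty := by
        rw [hi]; exact Set.nonempty_iff_ne_empty.2 (cne w)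
      obtain ⟨z, j, k, y, h1, h2, -⟩ := hne
      simp only [Nat.unpair_pair] at h1
      subst h1
      rw [hsec j k y i h2] at hi
      exact ⟨j, k, y, rfl, h2, hw, i, hi⟩
    · rintro ⟨j, k, y, rfl, hj, hw, i, hi⟩
      exact ⟨hw, i, by rw [hsec j k y i hj]; exact hi⟩
  refine ⟨β, hβU, ?_, hent⟩
  intro n w hw
  obtain ⟨j, k, y, -, hj, he⟩ := (hent n w).1 hw
  obtain ⟨hA', hs'⟩ := hst j k hj
  obtain ⟨-, p2, -⟩ := h_PinE S (πA T m A j k) hA'.nil hA'.tl hA'.inv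
  have h1 := p2 (sA A j) (tA A j) hj.2.2.2.2.1 y w he
  exact fun s hs => hs' s (h1 s hs)

end Pool.Agent.Lib.Z2
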