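import Pool.Agent.Lib.Z2.Fo.SpecC

/-! C45, forcing part: `S_AcP` (MP_8dbd20_lc) -/

namespace Pool.Agent.Lib.Z2

private theorem acp_bound : ∀ L : List Node, ∃ k : ℕ, ∀ s ∈ L, ∀ a ∈ s, a < k := by
  have h1 : ∀ s : Node, ∃ k : ℕ, ∀ a ∈ s, a < k := by
    intro s
    induction s with
    | nil => exact ⟨0, fun a ha => absurd ha (by simp)⟩
    | cons b s ih =>
      obtain ⟨k, hk⟩ := ih
      refine ⟨max k (b + 1), fun a ha => ?_⟩
      rcases List.mem_cons.1 ha with rfl | ha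
      · exact lt_of_lt_of_le (Nat.lt_succ_self _) (le_max_right _ _)
      · exact lt_of_lt_of_le (hk a ha) (le_max_left _ _)
  intro L
  induction L with
  | nil => exact ⟨0, fun a ha => absurd ha (by simp)⟩
  | cons b L ih =>
    obtain ⟨k, hk⟩ := ih
    obtain ⟨k', hk'⟩ := h1 b
    refine ⟨max k k', fun s hs a ha => ?_⟩
    rcases List.mem_cons.1 hs with rfl | hs
    · exact lt_of_lt_of_le (hk' a ha) (le_max_right _ _)
    · exact lt_of_lt_of_le (hk s hs a ha) (le_max_left _ _)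

theorem tAcP (h_Trans : S_Trans) (h_Same : S_Same) (h_Res : S_Res) (h_Cdc : S_Cdc) (h_PicM : S_PicM)
    (h_PinE : S_PinE) (h_NmA : S_NmA) (h_FrcFx : S_FrcFx) (h_PikB : S_PikB)
    (h_IUn : S_IUn) (h_IFin : S_IFin) (h_SupM : S_SupM) (h_Swp : S_Swp) (h_AcK : S_AcK) (h_AcT : S_AcT) :
    S_AcP := by
  intro S _ Gm hU T m hI hm hMb φ e τ hτU hτ A hA h1 h2 n q hq hr
  obtain ⟨r₀, hr₀, hr₀q, σ, ⟨hσU, Tσ, hTσ, hσT⟩, hF⟩ := hr
  obtain ⟨T3, hT3, hT3r, -⟩ := h_IFin S (nds r₀)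
  have hIT' : IsI S ((T ∪ Tσ) ∪ T3) := h_IUn S _ _ (h_IUn S _ _ hI hTσ) hT3
  set T' : Set ℕ := (T ∪ Tσ) ∪ T3 with hT'
  have hsub : ∀ s, inn T s → inn T' s := fun s hs => Or.inl (Or.inl hs)
  have hsubσ : ∀ s, inn Tσ s → inn T' s := fun s hs => Or.inl (Or.inr hs)
  have hsub3 : ∀ s, inn T3 s → inn T' s := fun s hs => Or.inr hs
  clear_value T'
  obtain ⟨π, hπ, hfix, hsub', hav⟩ := h_Swp S Gm hU T T' m hI hIT' hsub hm hMb
  have hPM := h_PicM S Gm π hπ.nil hπ.tl hπ.inv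
  have hPM0 := hPM.2 r₀
  obtain ⟨-, -, -, -, -, -, -, hc, hin, -, -, hres⟩ := hPM0
  have hq1 : IsCond S (pic π r₀) := hc hr₀
  have hT1 : IsI S (imT π T') := hπ.idl _ hIT'
  have hσ1 : pin π σ ∈ S.U := (h_NmA S Gm hU π hπ).1 σ hσU
  have hcdcU : ∀ p, IsCond S p → cdc p ∈ S.U := fun p hp =>
    ((h_Cdc.2.2 S).1 p).1 ((h_Cdc.2.2 S).2.1 p hp)
  set X : Set ℕ := jn (cdc (pic π r₀)) (jn (pin π σ) (imT π T')) with hX
  have hXU : X ∈ S.U := Good.uj _ (hcdcU _ hq1) _ (Good.uj _ hσ1 _ hT1.1)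
  have hX1 : lf X = cdc (pic π r₀) := by rw [hX, lf_jn]
  have hX2 : lf (rt X) = pin π σ := by rw [hX, rt_jn, lf_jn]
  have hX3 : rt (rt X) = imT π T' := by rw [hX, rt_jn, rt_jn]
  clear_value X
  set t := Encodable.encode (res T r₀).1 with htt
  have hresq : res T (pic π r₀) = res T r₀ := hres T hI.2.2.1 hfix
  have hWd : Wd S Gm T m φ e τ (Nat.pair n t) X := by
    refine ⟨pic π r₀, hq1, hX1, ?_, ?_, ?_, ?_, ?_, ?_, ?_⟩
    · rw [hX3]; exact hT1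
    · rw [hX3]; exact hsub'
    · rw [hX3]
      exact hin T' (fun s hs => hsub3 s (hT3r s hs))
    · rw [hX3, hX2]
      exact (h_PinE S π hπ.nil hπ.tl hπ.inv).2.1 σ T' (h_SupM S σ Tσ T' hσT hsubσ)
    · rw [hX3]; exact hav
    · rw [hresq, Nat.unpair_pair]
    · rw [hX2, Nat.unpair_pair]
      exact (h_FrcFx S Gm hU π hπ T hfix φ r₀ (ex n e) τ hr₀ hτ).2 σ hF
  have hV : Vd S T m A (Nat.pair n t) := h2 _ X hXU hWd
  set j := Nat.pair n t with hj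
  obtain ⟨p', hp', hcp', -, -, -, -, -, hty, -⟩ := h1 j hV
  -- p' is pA A j
  have hpA : pA A j = p' := by
    have hex : ∃ p : Cond, lf (sec A j) = cdc p := ⟨p', hcp'⟩
    have e1 : pA A j = hex.choose := by simp only [pA, dif_pos hex]
    have e2 := hex.choose_spec
    rw [e1]
    exact h_Cdc.1 _ _ (e2.symm.trans hcp')
  have htype : (res T p').1 = (res T r₀).1 := by
    rw [hj, Nat.unpair_pair] at hty
    exact Encodable.encode_injective hty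
  obtain ⟨k, hk⟩ := acp_bound (nds r₀)
  have hAut := ((h_AcT S Gm hU T m A hI hA hm hMb).2.2 j k hV).1
  have hK := h_AcK S T m A j k hI hMb hV
  have hfix2 : ∀ s, inn T s → πA T m A j k s = s :=
    (h_PikB T (kA T m A j k) hI.2.1 hI.2.2.1 hK.1).2.2.2.1
  have hPM2 := (h_PicM S Gm (πA T m A j k) hAut.nil hAut.tl hAut.inv).2 p'
  obtain ⟨-, hht, -, hnd, hbt, -, -, hc2, -⟩ := hPM2
  obtain ⟨-, -, -, hhtp, -, -, hbtp, -⟩ := h_Res S Gm T p' hI.2.2.1 hp'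
  obtain ⟨-, -, -, hhtr, -, -, hbtr, -⟩ := h_Res S Gm T r₀ hI.2.2.1 hr₀
  have hcommon : ∀ s ∈ nds (pic (πA T m A j k) p'), s ∈ nds r₀ → inn T s := by
    intro s hs hs'
    by_contra hsT
    have h3 : inn (tA A j) (πA T m A j k s) := by
      have := hV.2.2.2.1
      rw [hpA] at this
      exact this _ ((hnd s).1 hs)
    obtain ⟨u, t', b, rfl, -, -, -⟩ := hK.2 s hsT h3
    have h4 := hk _ hs' (Nat.pair (m t') (Nat.pair (Nat.pair j k) b)) (by simp)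
    have h5 : k ≤ Nat.pair j k := Nat.right_le_pair _ _
    have h6 : Nat.pair j k ≤ Nat.pair (Nat.pair j k) b := Nat.left_le_pair _ _
    have h7 : Nat.pair (Nat.pair j k) b ≤ Nat.pair (m t') (Nat.pair (Nat.pair j k) b) := Nat.right_le_pair _ _
    omega
  have hhteq : ht (pic (πA T m A j k) p') = ht r₀ := by
    rw [hht, ← hhtp, ← hhtr]
    show (res T p').1.2.1 = (res T r₀).1.2.1
    rw [htype]
  have hbeq : bts (res T p') = bts (res T r₀) := by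
    show (res T p').1.2.2 = (res T r₀).1.2.2
    rw [htype]
  obtain ⟨c1, c2, c3⟩ := h_Same S Gm (pic (πA T m A j k) p') r₀ (hc2 hp') hr₀ hhteq (by
    intro s hs hs' x
    have hsT := hcommon s hs hs'
    rw [hbt, hfix2 s hsT]
    have e1 := hbtp s x
    have e2 := hbtr s x
    rw [hbeq] at e1
    constructor
    · intro h
      exact (e2.1 (e1.2 ⟨h, hsT⟩)).1
    · intro h
      exact (e1.1 (e2.2 ⟨h, hsT⟩)).1)
  refine ⟨t, k, _, hV, c1, ?_, ?_⟩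
  · exact h_Trans S Gm q r₀ _ hq hr₀ c1 c3 hr₀q
  · rw [hpA]; exact c2

end Pool.Agent.Lib.Z2
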