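import Pool.Agent.Lib.Z2.Fo.SpecC

/-! C45, forcing part: `S_AcT` (MP_8dbd20_lc) -/

namespace Pool.Agent.Lib.Z2

private theorem act_suf {T : Set ℕ} (hT : TC T) : ∀ (u : List ℕ) (v : Node), inn T (u ++ v) → inn T v := by
  intro u v
  induction u with
  | nil => intro h; exact h
  | cons x u ih => intro h; exact ih (hT _ h)

private theorem act_uniq {T : Set ℕ} (hT : TC T) {u u' : List ℕ} {a a' : ℕ} {t t' : Node}
    (h : u ++ a :: t = u' ++ a' :: t') (ht : inn T t) (ht' : inn T t') (hn : ¬ inn T (a :: t))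
    (hn' : ¬ inn T (a' :: t')) : a = a' ∧ t = t' := by
  have key : ∀ {u u' : List ℕ} {a a' : ℕ} {t t' : Node}, u ++ a :: t = u' ++ a' :: t' → inn T t' →
      ¬ inn T (a :: t) → ¬ t.length < t'.length := by
    intro u u' a a' t t' h ht' hn hlt
    have h1 : (a :: t) <:+ (u ++ a :: t) := List.suffix_append _ _
    have h2 : t' <:+ (u ++ a :: t) := by
      rw [h]; exact ⟨u' ++ [a'], by simp⟩
    obtain ⟨w, hw⟩ := List.suffix_of_suffix_length_le h1 h2 (by simpa using hlt)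
    rw [← hw] at ht'
    exact hn (act_suf hT _ _ ht')
  have e1 := key h ht' hn
  have e2 := key h.symm ht hn'
  have hl : (a :: t).length = (a' :: t').length := by simp; omega
  have h1 : (a :: t) <:+ (u ++ a :: t) := List.suffix_append _ _
  have h2 : (a' :: t') <:+ (u ++ a :: t) := by rw [h]; exact List.suffix_append _ _
  have h3 := (List.suffix_of_suffix_length_le h1 h2 hl.le).eq_of_length hl
  simpa using h3

theorem tAcT (h_Inn : S_Inn) (h_PicM : S_PicM) (h_PikA : S_PikA)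
    (h_AcK : S_AcK) (h_AcD : S_AcD) : S_AcT := by
  intro S _ Gm hU T m A hI hA hm hMb
  have hI' := hI
  obtain ⟨hTU, hroot, hTC, hcol, hwf⟩ := hI
  obtain ⟨dVd, dpA, dsA, dtA, dkA, dπA, -, -⟩ := h_AcD S Gm hU T m A hTU hA hm
  have hTP : T ∈ S.Pm := by rw [hU.pm]; exact hTU
  have hin : ∀ s, inn (stA S T m A) s ↔ (inn T s ∨ ∃ j k, Vd S T m A j ∧ inn (tA A j) (πA T m A j k s)) := by
    intro s
    constructor
    · rintro ⟨s', hs', h⟩
      rw [Encodable.encode_injective hs'] at h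
      exact h
    · intro h; exact ⟨s, rfl, h⟩
  have hAut : ∀ j k, Vd S T m A j → Aut S (πA T m A j k) := by
    intro j k hj
    refine h_PikA S Gm hU T (kA T m A j k) hI' (h_AcK S T m A j k hI' hMb hj).1 ?_
    exact dkA.comp (f := fun y : Node × ℕ => (((j, k) : ℕ × ℕ), y.1, y.2))
      ((DF.constN (j, k)).pair (DF.id.fst.pair DF.id.snd))
  have himT : ∀ j k, Vd S T m A j → ∀ T' s, inn (imT (πA T m A j k) T') s ↔ inn T' (πA T m A j k s) := by
    intro j k hj
    have h := hAut j k hj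
    exact (h_PicM S Gm _ h.nil h.tl h.inv).1
  have hexit : ∀ j k, Vd S T m A j → ∀ s, ¬ inn T s → inn (tA A j) (πA T m A j k s) →
      ∃ (u : List ℕ) (t : Node) (b : ℕ), s = u ++ Nat.pair (m t) (Nat.pair (Nat.pair j k) b) :: t ∧ inn T t ∧
      ¬ inn T (Nat.pair (m t) (Nat.pair (Nat.pair j k) b) :: t) := by
    intro j k hj s hs hs'
    obtain ⟨u, t, b, h1, h2, h3, -⟩ := (h_AcK S T m A j k hI' hMb hj).2 s hs hs'
    exact ⟨u, t, b, h1, h2, h3⟩
  -- uniqueness of the pair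
  have huq : ∀ j k j' k', Vd S T m A j → Vd S T m A j' → ∀ (v : List ℕ) (s : Node), ¬ inn T s →
      inn (tA A j) (πA T m A j k s) → inn (tA A j') (πA T m A j' k' (v ++ s)) → j' = j ∧ k' = k := by
    intro j k j' k' hj hj' v s hs h h'
    obtain ⟨u, t, b, e1, e2, e3⟩ := hexit j k hj s hs h
    obtain ⟨u', t', b', f1, f2, f3⟩ := hexit j' k' hj' (v ++ s) (fun hc => hs (act_suf hTC _ _ hc)) h'
    rw [e1, ← List.append_assoc] at f1
    obtain ⟨g1, rfl⟩ := act_uniq hTC f1 e2 f2 e3 f3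
    have g2 := (Nat.pair_eq_pair.1 g1).2
    have g3 := (Nat.pair_eq_pair.1 g2).1
    have g4 := Nat.pair_eq_pair.1 g3
    exact ⟨g4.1.symm, g4.2.symm⟩
  have hTCst : ∀ s, inn (stA S T m A) s → inn (stA S T m A) s.tail := by
    intro s hs
    rw [hin] at hs ⊢
    rcases hs with hs | ⟨j, k, hj, hs⟩
    · exact Or.inl (hTC s hs)
    · right
      refine ⟨j, k, hj, ?_⟩
      rw [← (hAut j k hj).tl]
      exact hj.2.1.2.2.1 _ hs
  refine ⟨⟨?_, ?_, hTCst, ?_, ?_⟩, fun s hs => (hin s).2 (Or.inl hs), ?_⟩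
  · -- membership in U
    apply hU.comp
    have dk : Dfn S (fun x : (ℕ × Node) × (ℕ × ℕ) => Vd S T m A x.2.1 ∧ inn (tA A x.2.1) (πA T m A x.2.1 x.2.2 x.1.2)) := by
      refine (dVd.comp (f := fun x : (ℕ × Node) × (ℕ × ℕ) => x.2.1) DF.id.snd.fst).and ?_
      refine h_Inn S _ (fun x : (ℕ × Node) × (ℕ × ℕ) => tA A x.2.1)
        (fun x => πA T m A x.2.1 x.2.2 x.1.2) (dtA.comp DF.id.snd.fst) ?_
      exact dπA.comp (f := fun x : (ℕ × Node) × (ℕ × ℕ) => ((x.2.1, x.2.2), x.1.2))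
        ((DF.id.snd.fst.pair DF.id.snd.snd).pair DF.id.fst.snd)
    have dk2 : Dfn S (fun x : ℕ × Node => ∃ j k, Vd S T m A j ∧ inn (tA A j) (πA T m A j k x.2)) := by
      refine Dfn.exN (P := fun (x : ℕ × Node) (j : ℕ) => ∃ k, Vd S T m A j ∧ inn (tA A j) (πA T m A j k x.2)) ?_
      refine Dfn.exN (P := fun (x : (ℕ × Node) × ℕ) (k : ℕ) => Vd S T m A x.2 ∧ inn (tA A x.2) (πA T m A x.2 k x.1.2)) ?_
      exact dk.comp (f := fun y : ((ℕ × Node) × ℕ) × ℕ => ((y.1.1.1, y.1.1.2), (y.1.2, y.2)))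
        ((DF.id.fst.fst.fst.pair DF.id.fst.fst.snd).pair (DF.id.fst.snd.pair DF.id.snd))
    refine Dfn.exN (P := fun (x : ℕ) (s : Node) => Encodable.encode s = x ∧ (inn T s ∨ ∃ j k, Vd S T m A j ∧
      inn (tA A j) (πA T m A j k s))) ?_
    refine (Dfn.eq (DF.enc DF.id.snd) DF.id.fst).and (Dfn.or ?_ dk2)
    exact h_Inn S _ (fun _ => T) (fun x : ℕ × Node => x.2) (DF.constR hTP) DF.id.snd
  · exact (hin []).2 (Or.inl hroot)
  · -- columns
    intro s
    by_cases hs : inn T s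
    · refine ⟨m s + 1, fun a ha => ?_⟩
      by_cases hat : inn T (a :: s)
      · have := hMb s a hs hat; omega
      · rw [hin] at ha
        rcases ha with ha | ⟨j, k, hj, ha⟩
        · exact absurd ha hat
        · obtain ⟨u, t, b, e1, e2, e3⟩ := hexit j k hj _ hat ha
          rcases u with _ | ⟨x, u⟩
          · simp only [List.nil_append, List.cons.injEq] at e1
            rw [e1.1, e1.2]; simp
          · simp only [List.cons_append, List.cons.injEq] at e1
            rw [e1.2] at hs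
            exact absurd (act_suf hTC _ _ hs) e3
    · by_cases hst : inn (stA S T m A) s
      · obtain ⟨j, k, hj, hjs⟩ := ((hin s).1 hst).resolve_left hs
        obtain ⟨M, hM⟩ := ((hAut j k hj).idl _ hj.2.1).2.2.2.1 s
        refine ⟨M, fun a ha => hM a ?_⟩
        rw [himT j k hj]
        obtain ⟨j', k', hj', hjs'⟩ := ((hin _).1 ha).resolve_left (fun hc => hs (hTC _ hc))
        obtain ⟨rfl, rfl⟩ := huq j k j' k' hj hj' [a] s hs hjs hjs'
        exact hjs'
      · exact ⟨0, fun a ha => absurd (hTCst _ ha) hst⟩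
  · -- well-foundedness
    intro B hB hBst hne
    by_contra hcon
    push Not at hcon
    by_cases hBT : ∀ s : Node, inn B s → inn T s
    · obtain ⟨s, hs, hs'⟩ := hwf B hB hBT hne
      obtain ⟨a, ha⟩ := hcon s hs
      exact hs' a ha
    · push Not at hBT
      obtain ⟨s, hsB, hsT⟩ := hBT
      obtain ⟨j, k, hj, hjs⟩ := ((hin s).1 (hBst s hsB)).resolve_left hsT
      have hBP : B ∈ S.Pm := by rw [hU.pm]; exact hB
      let B' : Set ℕ := {x | ∃ s : Node, Encodable.encode s = x ∧ inn B s ∧ ¬ inn T s ∧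
        inn (tA A j) (πA T m A j k s)}
      have hinB' : ∀ s, inn B' s ↔ inn B s ∧ ¬ inn T s ∧ inn (tA A j) (πA T m A j k s) := by
        intro s
        constructor
        · rintro ⟨s', hs', h⟩
          rw [Encodable.encode_injective hs'] at h
          exact h
        · intro h; exact ⟨s, rfl, h⟩
      have hB' : B' ∈ S.U := by
        apply hU.comp
        refine Dfn.exN (P := fun (x : ℕ) (s : Node) => Encodable.encode s = x ∧ inn B s ∧ ¬ inn T s ∧
          inn (tA A j) (πA T m A j k s)) ?_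
        refine (Dfn.eq (DF.enc DF.id.snd) DF.id.fst).and (Dfn.and ?_ (Dfn.and (Dfn.not ?_) ?_))
        · exact h_Inn S _ (fun _ => B) (fun x : ℕ × Node => x.2) (DF.constR hBP) DF.id.snd
        · exact h_Inn S _ (fun _ => T) (fun x : ℕ × Node => x.2) (DF.constR hTP) DF.id.snd
        · refine h_Inn S _ (fun _ : ℕ × Node => tA A j) (fun x : ℕ × Node => πA T m A j k x.2)
            (dtA.comp (DF.constN j)) ?_
          exact dπA.comp (f := fun x : ℕ × Node => (((j, k) : ℕ × ℕ), x.2)) ((DF.constN (j, k)).pair DF.id.snd)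
      obtain ⟨s', hs', hs''⟩ := ((hAut j k hj).idl _ hj.2.1).2.2.2.2 B' hB'
        (fun s hs => (himT j k hj _ s).2 ((hinB' s).1 hs).2.2) ⟨s, (hinB' s).2 ⟨hsB, hsT, hjs⟩⟩
      rw [hinB'] at hs'
      obtain ⟨a, ha⟩ := hcon s' hs'.1
      refine hs'' a ((hinB' _).2 ⟨ha, fun hc => hs'.2.1 (hTC _ hc), ?_⟩)
      obtain ⟨j', k', hj', hjs'⟩ := ((hin _).1 (hBst _ ha)).resolve_left (fun hc => hs'.2.1 (hTC _ hc))
      obtain ⟨rfl, rfl⟩ := huq j k j' k' hj hj' [a] s' hs'.2.1 hs'.2.2 hjs'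
      exact hjs'
  · intro j k hj
    refine ⟨hAut j k hj, fun s hs => ?_⟩
    rw [himT j k hj] at hs
    exact (hin s).2 (Or.inr ⟨j, k, hj, hs⟩)

end Pool.Agent.Lib.Z2
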