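import Pool.Agent.Lib.Z2.Fo.SpecP

/-!
# C45, forcing part: (Amal) the amalgamation
-/

namespace Pool.Agent.Lib.Z2

theorem tAmal (h_Res : S_Res) : S_Amal := by
  intro S Gm T p q hT hp hq hle hcom
  obtain ⟨-, -, -, r4, r5, r6, r7, -, -⟩ := h_Res S Gm T p hT hp
  obtain ⟨l1, l2, l3, l4, l5⟩ := hle
  rw [r4] at l2 l3 l5
  rw [r5] at l4 l5
  obtain ⟨p1, p2, p3⟩ := hp
  obtain ⟨q1, q2, q3⟩ := hq
  have hA : ∀ s ∈ nds p, inn T s → s ∈ nds q := fun s hs ht => l1 s ((r6 s).2 ⟨hs, ht⟩)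
  have hB : ∀ s ∈ nds p, inn T s → ∀ k, k < ht p → ((s, k) ∈ bts q ↔ (s, k) ∈ bts p) := by
    intro s hs ht k hk
    rw [l3 s ((r6 s).2 ⟨hs, ht⟩) k hk, r7]
    exact and_iff_left ht
  have hC : ∀ s k, inn T s → (s, k) ∈ bts p → (s, k) ∈ bts q := fun s k ht hs =>
    (hB s (p2 _ hs).1 ht k (p2 _ hs).2).2 hs
  have hn : ∀ s, s ∈ nds (jnc q p) ↔ s ∈ nds q ∨ s ∈ nds p := fun s => List.mem_append
  have hb : ∀ x, x ∈ bts (jnc q p) ↔ x ∈ bts q ∨ x ∈ bts p := fun x => List.mem_append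
  have hf : ∀ c, c ∈ fs (jnc q p) ↔ c ∈ fs q ∨ c ∈ fs p := fun c => List.mem_append
  have hh : ht (jnc q p) = ht q := rfl
  have hE : ∀ s k, inn T s → ((s, k) ∈ bts (jnc q p) ↔ (s, k) ∈ bts q) := by
    intro s k ht
    rw [hb]
    exact ⟨fun h => h.elim id (hC s k ht), Or.inl⟩
  have hF : ∀ s, inn T s → (s ∈ nds (jnc q p) ↔ s ∈ nds q) := by
    intro s ht
    rw [hn]
    exact ⟨fun h => h.elim id (fun h => hA s h ht), Or.inl⟩
  have hlt : ∀ x ∈ bts (jnc q p), x.2 < ht q := by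
    intro x hx
    rcases (hb x).1 hx with h | h
    · exact (q2 x h).2
    · exact lt_of_lt_of_le (p2 x h).2 l2
  refine ⟨⟨?_, ?_, ?_⟩, ⟨?_, le_rfl, ?_, ?_, ?_⟩, ⟨?_, l2, ?_, ?_, ?_⟩, hF, hE⟩
  · intro s hs
    rw [hn] at hs ⊢
    exact hs.imp (q1 s) (p1 s)
  · intro x hx
    refine ⟨?_, hlt x hx⟩
    rw [hn]
    exact ((hb x).1 hx).imp (fun h => (q2 x h).1) (fun h => (p2 x h).1)
  · intro c hc
    exact ((hf c).1 hc).elim (q3 c) (p3 c)
  · intro s hs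
    exact (hn s).2 (Or.inl hs)
  · intro s hs k hk
    rw [hb]
    refine ⟨fun h => h.elim id fun h => ?_, Or.inl⟩
    exact hC s k (hcom s hs (p2 _ h).1) h
  · intro c hc
    exact (hf c).2 (Or.inl hc)
  · intro s hs k hk hle
    exact absurd (hlt _ hk) (not_lt.2 hle)
  · intro s hs
    exact (hn s).2 (Or.inr hs)
  · intro s hs k hk
    rw [hb]
    refine ⟨fun h => h.elim (fun h => ?_) id, Or.inr⟩
    exact (hB s hs (hcom s (q2 _ h).1 hs) k hk).1 h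
  · intro c hc
    exact (hf c).2 (Or.inr hc)
  · intro s hs k hk hle c hc
    have h : (s, k) ∈ bts q := by
      rcases (hb _).1 hk with h | h
      · exact h
      · exact absurd (p2 _ h).2 (not_lt.2 hle)
    have ht := hcom s (q2 _ h).1 hs
    have e1 : ub (jnc q p) s = ub q s := Set.ext fun j => hE s j ht
    have e2 : ubp (jnc q p) s = ubp q s :=
      Set.ext fun j => and_congr_right fun _ => hE s.tail j (hT s ht)
    rw [e1, e2]
    exact l5 s ((r6 s).2 ⟨hs, ht⟩) k h hle c hc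

end Pool.Agent.Lib.Z2
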