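import Pool.Agent.Lib.Z2.Fo.SpecP

/-!
# C45 Fo/Cdc: the real coding a condition
-/

namespace Pool.Agent.Lib.Z2

private theorem Cdc_single (hF : S_Fin) (S : Str) [Good S] (n : ℕ) : ({n} : Set ℕ) ∈ S.U := by
  have h := (hF S).2 [n]
  have h1 : {k | k ∈ [n]} = ({n} : Set ℕ) := by
    ext k
    simp
  rw [h1] at h
  exact h

private theorem Cdc_re (p : Cond) : rt (re p) = lre (fs p) := by
  show rt (jn (re p.1) (lre p.2)) = lre p.2
  rw [rt_jn]

private theorem Cdc_vl (S : Str) (p : Cond) : vl S.U p ↔ ∀ X ∈ fs p, X ∈ S.U := by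
  constructor
  · intro h
    exact h.2
  · intro h
    exact ⟨PShp.vl_all _ p.1, h⟩

theorem tCdc (h_Fin : S_Fin) : S_Cdc := by
  refine ⟨?_, ?_, ?_⟩
  · intro p q h
    have h1 := jn_inj h
    refine Shp.inj p q ?_ h1.2
    exact Set.singleton_injective h1.1
  · intro p h
    have h1 : 2 * num p ∈ cdc p := (mem_jn_even _ _ _).2 rfl
    rw [h] at h1
    exact h1
  · intro S _
    refine ⟨fun p => ⟨fun h => ?_, fun h => ?_⟩, fun p hp => ?_, fun α _ p hp => ?_⟩
    · exact Good.uj _ (Cdc_single h_Fin S _) _ (Shp.re_mem S p h)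
    · rw [Cdc_vl]
      have h1 : re p ∈ S.U := by
        have h2 := Good.rt_mem S h
        have h3 : rt (cdc p) = re p := rt_jn _ _
        rw [h3] at h2
        exact h2
      have h2 := Good.rt_mem S h1
      rw [Cdc_re] at h2
      intro X hX
      obtain ⟨i, hi, rfl⟩ := List.mem_iff_getElem.1 hX
      rw [← sec_lre _ i hi]
      exact Good.sec_mem S h2 i
    · rw [Cdc_vl]
      exact fun X hX => Good.cu X (hp.2.2 X hX)
    · refine DF.jn ?_ (DF.re hp)
      refine DF.set (fun a _ => Cdc_single h_Fin S _) ?_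
      have h1 : Dfn S (fun x : α × ℕ => x.2 = num (p x.1)) :=
        Dfn.eq Smp.id.snd.df (DF.num (hp.comp Smp.id.fst.df))
      exact h1.congr (fun x _ => Set.mem_singleton_iff)

end Pool.Agent.Lib.Z2
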