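import Pool.Agent.Lib.Z2.Fo.SpecA

/-!
# C45, forcing part, Chk: check names (MP_8dbd20_lc)
-/

namespace Pool.Agent.Lib.Z2

/-- the check name of `X` -/
def chkNm (X : Set ℕ) : Set ℕ := {k | k.unpair.1.unpair.1 ∈ X ∧ k.unpair.2 ∈ cdc triv}

private theorem Chk_sec (X : Set ℕ) (n i : ℕ) :
    sec (chkNm X) (Nat.pair n i) = {m | n ∈ X ∧ m ∈ cdc triv} := by
  ext m
  rw [mem_sec]
  simp only [chkNm, Set.mem_ofPred_eq, Nat.unpair_pair]

/-- (Chk) Check names. -/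
theorem tChk (h_Refl : S_Refl) (h_Triv : S_Triv) (h_Cdc : S_Cdc) (h_Gcomp : S_Gcomp) : S_Chk := by
  intro S _ Gm hU
  obtain ⟨hct, hlt, hTt⟩ := h_Triv S Gm
  have hE : ∀ X n w, Ent S (chkNm X) n w ↔ n ∈ X ∧ w = triv := by
    intro X n w
    constructor
    · rintro ⟨_, i, h⟩
      rw [Chk_sec] at h
      by_cases hn : n ∈ X
      · refine ⟨hn, ?_⟩
        have h1 : {m | n ∈ X ∧ m ∈ cdc triv} = cdc triv := by
          ext m
          rw [Set.mem_ofPred_eq]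
          exact ⟨fun h => h.2, fun h => ⟨hn, h⟩⟩
        rw [h1] at h
        exact (h_Cdc.1 _ _ h).symm
      · exfalso
        apply h_Cdc.2.1 w
        rw [← h]
        ext m
        rw [Set.mem_ofPred_eq]
        exact ⟨fun h => absurd h.1 hn, fun h => absurd h (Set.notMem_empty m)⟩
    · rintro ⟨hn, rfl⟩
      refine ⟨hct, 0, ?_⟩
      rw [Chk_sec]
      ext m
      rw [Set.mem_ofPred_eq]
      exact ⟨fun h => h.2, fun h => ⟨hn, h⟩⟩
  refine ⟨chkNm, ?_, ?_, hE, ?_⟩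
  · refine (h_Gcomp S Gm hU).2 (Set ℕ)
      (fun X k => k.unpair.1.unpair.1 ∈ X ∧ k.unpair.2 ∈ cdc triv) ?_
    have hc : DF S (fun _ : Set ℕ × ℕ => cdc triv) := by
      refine (h_Gcomp S Gm hU).1 (Set ℕ × ℕ) (Set ℕ) (cdc triv) ?_
      exact ((h_Cdc.2.2 S).1 triv).1 ((h_Cdc.2.2 S).2.1 triv hct)
    refine Dfn.and (Dfn.mem (DF.unp1 (DF.unp1 Smp.id.snd.df)) Smp.id.fst.df) ?_
    exact Dfn.mem (DF.unp2 Smp.id.snd.df) hc
  · intro X T n w hw
    rw [((hE X n w).1 hw).2]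
    exact hTt T
  · intro G hG X
    have hGt : G triv := by
      obtain ⟨q, hq, -⟩ := hG.meet (fun _ => True) dfn_true
        (fun p hp => ⟨p, hp, h_Refl S Gm p hp, trivial⟩)
      exact hG.up q triv hq hct (hlt q (hG.cond q hq))
    ext n
    constructor
    · rintro ⟨p, hp, _⟩
      exact ((hE X n p).1 hp).1
    · intro hn
      exact ⟨triv, (hE X n triv).2 ⟨hn, rfl⟩, hGt⟩

end Pool.Agent.Lib.Z2
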