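import Pool.Agent.Lib.Z2.Fo.SpecA

/-!
# C45 Fo/Comp: comprehension with supports (helper7)
-/

set_option autoImplicit false

namespace Pool.Agent.Lib.Z2

theorem Comp (hRefl : S_Refl) (hTrans : S_Trans) (hSame : S_Same) (hRes : S_Res) (hFrcD : S_FrcD)
    (hGc : S_Gcomp) (hCdc : S_Cdc) (hIc : S_Ic) (hLe : S_Le) (hEnt : S_Ent) (hSup : S_Sup)
    (hHom : S_Hom) (hTruth : S_Truth) : S_Comp := by
  intro S _ Gm hU G hG T hT φ e E hE
  have hcst : ∀ (α β : Type) [Shp α] [Shp β] (b : β), vl S.U b → DF S (fun _ : α => b) := (hGc S Gm hU).1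
  have hval : ∀ p, IsCond S p → vl S.U p := (hCdc.2.2 S).2.1
  choose τ hτU hτS hτE using hE
  have hNm : ∀ i, Nm S (τ i) := fun i => ⟨hτU i, T, hT, hτS i⟩
  have hEE : E = fun i => evl S G (τ i) := funext hτE
  have hTC : TC T := hT.2.2.1
  -- the choice predicate
  let P : ℕ → Set ℕ → Prop := fun j X => ∃ w, IsCond S w ∧ X = cdc w ∧ InT T w ∧
    Encodable.encode w.1 = j.unpair.2 ∧ Frc S Gm φ w (ex j.unpair.1 e) τ
  have hP : Dfn S (fun x : ℕ × Set ℕ => P x.1 x.2) := by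
    have h1 : Dfn S (fun x : (ℕ × Set ℕ) × Cond => IsCond S x.2 ∧ x.1.2 = cdc x.2 ∧ InT T x.2 ∧
        Encodable.encode x.2.1 = x.1.1.unpair.2 ∧ Frc S Gm φ x.2 (ex x.1.1.unpair.1 e) τ) := by
      refine Dfn.and ?_ (Dfn.and ?_ (Dfn.and ?_ (Dfn.and ?_ ?_)))
      · exact (hIc S ((ℕ × Set ℕ) × Cond) (fun x => x.2) (DF.snd DF.id)).2.2.2.2
      · exact Dfn.eq (DF.snd (DF.fst DF.id)) ((hCdc.2.2 S).2.2 _ _ (DF.snd DF.id))
      · exact (hSup S ((ℕ × Set ℕ) × Cond) (fun _ => T) (fun _ => T) (fun x => x.2)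
          (hcst _ _ T hT.1) (hcst _ _ T hT.1) (DF.snd DF.id)).1
      · exact Dfn.eq (DF.enc (DF.fst (DF.snd DF.id))) (DF.unp2 (DF.fst (DF.fst DF.id)))
      · refine hFrcD S Gm hU.gm φ ((ℕ × Set ℕ) × Cond) (fun x => x.2) (fun x => ex x.1.1.unpair.1 e) (fun _ => τ)
          (DF.snd DF.id) (fun i => ?_) (fun i => hcst _ _ (τ i) (hτU i))
        rcases i with _ | i
        · exact DF.unp1 (DF.fst (DF.fst DF.id))
        · exact DF.constN (e i)
    refine (Dfn.exV (P := fun (a : ℕ × Set ℕ) (w : Cond) => IsCond S w ∧ a.2 = cdc w ∧ InT T w ∧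
        Encodable.encode w.1 = a.1.unpair.2 ∧ Frc S Gm φ w (ex a.1.unpair.1 e) τ) h1).congr (fun a _ => ?_)
    constructor
    · rintro ⟨w, hw, h⟩
      exact ⟨w, hval w hw, hw, h⟩
    · rintro ⟨w, -, hw, h⟩
      exact ⟨w, hw, h⟩
  obtain ⟨A, hA, hAP⟩ := hU.ac P hP
  let ρ : Set ℕ := {k | P k.unpair.1 (sec A k.unpair.1) ∧ k.unpair.2 ∈ sec A k.unpair.1}
  have hρU : ρ ∈ S.U := by
    refine hU.comp (fun k => P k.unpair.1 (sec A k.unpair.1) ∧ k.unpair.2 ∈ sec A k.unpair.1) ?_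
    have hs : DF S (fun k : ℕ => sec A k.unpair.1) := DF.sec (hcst ℕ (Set ℕ) A hA) (DF.unp1 DF.id)
    refine Dfn.and ?_ ?_
    · exact Dfn.comp₂ (R := P) hP (DF.unp1 DF.id) hs
    · exact Dfn.mem (DF.unp2 DF.id) hs
  have hsec : ∀ j m, m ∈ sec ρ j ↔ P j (sec A j) ∧ m ∈ sec A j := by
    intro j m
    show P (Nat.pair j m).unpair.1 (sec A (Nat.pair j m).unpair.1) ∧
      (Nat.pair j m).unpair.2 ∈ sec A (Nat.pair j m).unpair.1 ↔ _
    rw [Nat.unpair_pair]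
  have hsec1 : ∀ j, P j (sec A j) → sec ρ j = sec A j := by
    intro j hj
    ext m
    rw [hsec]
    exact ⟨fun h => h.2, fun h => ⟨hj, h⟩⟩
  have claim1 : ∀ n w, Ent S ρ n w → InT T w ∧ Frc S Gm φ w (ex n e) τ := by
    rintro n w ⟨hw, i, hi⟩
    have hPj : P (Nat.pair n i) (sec A (Nat.pair n i)) := by
      by_contra hc
      apply hCdc.2.1 w
      rw [← hi]
      ext m
      rw [hsec]
      exact ⟨fun h => absurd h.1 hc, fun h => absurd h (Set.notMem_empty m)⟩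
    rw [hsec1 _ hPj] at hi
    obtain ⟨w', hw', h1, h2, h3, h4⟩ := hPj
    have h5 : w' = w := hCdc.1 _ _ (h1.symm.trans hi)
    subst h5
    rw [Nat.unpair_pair] at h4
    exact ⟨h2, h4⟩
  have claim2 : ∀ n w', IsCond S w' → InT T w' → Frc S Gm φ w' (ex n e) τ → ∃ w, Ent S ρ n w ∧ w.1 = w'.1 := by
    intro n w' hw' hi hf
    have h1 : P (Nat.pair n (Encodable.encode w'.1)) (cdc w') := by
      refine ⟨w', hw', rfl, hi, ?_, ?_⟩
      · rw [Nat.unpair_pair]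
      · rw [Nat.unpair_pair]; exact hf
    have h2 := hAP _ ⟨cdc w', ((hCdc.2.2 S).1 w').1 (hval w' hw'), h1⟩
    have h3 := hsec1 _ h2
    obtain ⟨w, hw, h4, h5, h6, h7⟩ := h2
    refine ⟨w, ⟨hw, Encodable.encode w'.1, by rw [h3, h4]⟩, ?_⟩
    rw [Nat.unpair_pair] at h6
    exact Encodable.encode_injective h6
  refine ⟨ρ, hρU, fun n w h => (claim1 n w h).1, ?_⟩
  rw [hEE]
  ext n
  constructor
  · intro hn
    have hdne : Dfn S (fun q : Cond => (∃ w, Ent S ρ n w ∧ Le Gm q w) ∨ Frc S Gm (.neg φ) q (ex n e) τ) := by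
      refine Dfn.or ?_ ?_
      · have h1 : Dfn S (fun x : Cond × Cond => Ent S ρ n x.2 ∧ Le Gm x.1 x.2) := by
          refine Dfn.and ?_ ?_
          · exact hEnt S (Cond × Cond) (fun _ => ρ) (fun _ => n) (fun x => x.2)
              (hcst _ _ ρ hρU) (DF.constN _) (DF.snd DF.id)
          · exact hLe S Gm (Cond × Cond) (fun x => x.1) (fun x => x.2) hU.gm (DF.fst DF.id) (DF.snd DF.id)
        refine (Dfn.exV (P := fun (a b : Cond) => Ent S ρ n b ∧ Le Gm a b) h1).congr (fun a _ => ?_)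
        constructor
        · rintro ⟨w, hw, h⟩
          exact ⟨w, hval w hw.1, hw, h⟩
        · rintro ⟨w, -, hw, h⟩
          exact ⟨w, hw, h⟩
      · refine hFrcD S Gm hU.gm (.neg φ) Cond (fun r => r) (fun _ => ex n e) (fun _ => τ) DF.id
          (fun i => DF.constN (ex n e i)) (fun i => hcst Cond (Set ℕ) (τ i) (hτU i))
    obtain ⟨q, hGq, hq⟩ := hG.meet _ hdne (fun q hq => by
      by_cases hc : Frc S Gm (.neg φ) q (ex n e) τ
      · exact ⟨q, hq, hRefl S Gm q hq, Or.inr hc⟩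
      · have h1 : ∃ q', IsCond S q' ∧ Le Gm q' q ∧ Frc S Gm φ q' (ex n e) τ := by
          by_contra h2
          exact hc (fun q' hq' hle hf => h2 ⟨q', hq', hle, hf⟩)
        obtain ⟨q', hq', hle, hf⟩ := h1
        obtain ⟨hr1, hr2, hr3, hr4, hr5, hr6, hr7, -, -⟩ := hRes S Gm T q' hTC hq'
        have hf' := hHom S Gm hU T q' hT hq' φ (ex n e) τ hτS hf
        obtain ⟨w, hw, hw1⟩ := claim2 n (res T q') hr1 hr2 hf'
        have hwn : nds w = nds (res T q') := congrArg (fun t : Ty => t.1) hw1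
        have hwh : ht w = ht (res T q') := congrArg (fun t : Ty => t.2.1) hw1
        have hwb : bts w = bts (res T q') := congrArg (fun t : Ty => t.2.2) hw1
        obtain ⟨hj1, hj2, hj3⟩ := hSame S Gm w q' hw.1 hq' (by rw [hwh, hr4]) (fun s hs _ k => by
          rw [hwn, hr6] at hs
          rw [hwb, hr7]
          exact ⟨fun h => h.1, fun h => ⟨h, hs.2⟩⟩)
        exact ⟨jnc w q', hj1, hTrans S Gm q q' (jnc w q') hq hq' hj1 hj3 hle, Or.inl ⟨w, hw, hj2⟩⟩)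
    rcases hq with ⟨w, hw, hqw⟩ | hq
    · exact ⟨w, hw, hG.up q w hGq hw.1 hqw⟩
    · exfalso
      exact (hTruth S Gm hU G hG (.neg φ) (ex n e) τ hNm).2 ⟨q, hGq, hq⟩ hn
  · rintro ⟨w, hw, hGw⟩
    exact (hTruth S Gm hU G hG φ (ex n e) τ hNm).2 ⟨w, hGw, (claim1 n w hw).2⟩

end Pool.Agent.Lib.Z2
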