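import Pool.Agent.Lib.Z2.Count
import Pool.Agent.Lib.Z2.L2

/-!
# The forcing: definitions (MP_8dbd20_lc)

`S = (U, C, U)` is the universe, `Gm c` the canonical Cohen real of `c`.
Nodes are lists of labels (the LAST label is the head of the list, the parent is the tail, the
root is `[]`); a label `a` lies in the column `a.unpair.1`.
-/

namespace Pool.Agent.Lib.Z2

/-- The interface to the hierarchy. -/
structure Uni (S : Str) (Gm : Set ℕ → Set ℕ) : Prop where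
  pm : S.Pm = S.U
  cnt : S.U.Countable
  comp : ∀ P : ℕ → Prop, Dfn S P → {n | P n} ∈ S.U
  ac : ∀ P : ℕ → Set ℕ → Prop, Dfn S (fun x : ℕ × Set ℕ => P x.1 x.2) →
    ∃ A ∈ S.U, ∀ n, (∃ X ∈ S.U, P n X) → P n (sec A n)
  noSurj : ∀ P : ℕ → Set ℕ → Prop, Dfn S (fun x : ℕ × Set ℕ => P x.1 x.2) →
    (∀ n, ∀ X ∈ S.C, ∀ Y ∈ S.C, P n X → P n Y → X = Y) → ∃ X ∈ S.C, ∀ n, ¬ P n X
  gm : DF S Gm

/-- Nodes of the tree. -/
abbrev Node := List ℕ

/-- The node `s` belongs to the set of nodes coded by `T`. -/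
def inn (T : Set ℕ) (s : Node) : Prop := Encodable.encode s ∈ T

/-- Types of conditions: the list of nodes, the height, the list of pairs (node, bit). -/
abbrev Ty := List Node × ℕ × List (Node × ℕ)

/-- Conditions: a type and a finite list of elements of `C`. -/
abbrev Cond := Ty × List (Set ℕ)

def nds (p : Cond) : List Node := p.1.1
def ht (p : Cond) : ℕ := p.1.2.1
def bts (p : Cond) : List (Node × ℕ) := p.1.2.2
def fs (p : Cond) : List (Set ℕ) := p.2

/-- The finite set `u_s`. -/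
def ub (p : Cond) (s : Node) : Set ℕ := {k | (s, k) ∈ bts p}
/-- The finite set `u_{s^-}` (empty for the root). -/
def ubp (p : Cond) (s : Node) : Set ℕ := {k | s ≠ [] ∧ (s.tail, k) ∈ bts p}

open Classical in
/-- The initial segment `Y | k`, as an increasing list. -/
noncomputable def tr (Y : Set ℕ) (k : ℕ) : List ℕ := (List.range k).filter (fun j => j ∈ Y)

/-- `sg k z y` codes `(k, z | k, y | k)`. -/
noncomputable def sg (k : ℕ) (z y : Set ℕ) : ℕ :=
  Nat.pair k (Nat.pair (Encodable.encode (tr z k)) (Encodable.encode (tr y k)))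

/-- `p` is a condition. -/
def IsCond (S : Str) (p : Cond) : Prop :=
  (∀ s ∈ nds p, s.tail ∈ nds p) ∧ (∀ x ∈ bts p, x.1 ∈ nds p ∧ x.2 < ht p) ∧ ∀ c ∈ fs p, c ∈ S.C

/-- `q` is stronger than `p`. -/
def Le (Gm : Set ℕ → Set ℕ) (q p : Cond) : Prop :=
  (∀ s ∈ nds p, s ∈ nds q) ∧ ht p ≤ ht q ∧
  (∀ s ∈ nds p, ∀ k, k < ht p → ((s, k) ∈ bts q ↔ (s, k) ∈ bts p)) ∧
  (∀ c ∈ fs p, c ∈ fs q) ∧
  ∀ s ∈ nds p, ∀ k, (s, k) ∈ bts q → ht p ≤ k → ∀ c ∈ fs p, sg k (ub q s) (ubp q s) ∉ Gm c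

/-- `p` lives on the nodes in `T`. -/
def InT (T : Set ℕ) (p : Cond) : Prop := ∀ s ∈ nds p, inn T s

/-- The ideal of supports. -/
def IsI (S : Str) (T : Set ℕ) : Prop :=
  T ∈ S.U ∧ inn T [] ∧ (∀ s : Node, inn T s → inn T s.tail) ∧
  (∀ s : Node, ∃ m, ∀ a, inn T (a :: s) → a.unpair.1 < m) ∧
  ∀ B ∈ S.U, (∀ s : Node, inn B s → inn T s) → (∃ s : Node, inn B s) →
    ∃ s : Node, inn B s ∧ ∀ a, ¬ inn B (a :: s)

/-- The real coding a condition. -/
noncomputable def cdc (p : Cond) : Set ℕ := jn {num p} (re p)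

/-- The entries of a name. -/
def Ent (S : Str) (σ : Set ℕ) (n : ℕ) (p : Cond) : Prop :=
  IsCond S p ∧ ∃ i : ℕ, sec σ (Nat.pair n i) = cdc p

/-- The name `σ` is supported in `T`. -/
def Sup (S : Str) (σ T : Set ℕ) : Prop := ∀ n p, Ent S σ n p → InT T p

/-- Names. -/
def Nm (S : Str) (σ : Set ℕ) : Prop := σ ∈ S.U ∧ ∃ T, IsI S T ∧ Sup S σ T

/-- The forcing relation. -/
def Frc (S : Str) (Gm : Set ℕ → Set ℕ) : Fm → Cond → (ℕ → ℕ) → (ℕ → Set ℕ) → Prop
  | .eq s t, _, e, _ => s.val e = t.val e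
  | .lt s t, _, e, _ => s.val e < t.val e
  | .mem t i, p, e, τ => ∀ q, IsCond S q → Le Gm q p →
      ∃ r, IsCond S r ∧ Le Gm r q ∧ ∃ w, Ent S (τ i) (t.val e) w ∧ Le Gm r w
  | .neg φ, p, e, τ => ∀ q, IsCond S q → Le Gm q p → ¬ Frc S Gm φ q e τ
  | .and φ ψ, p, e, τ => Frc S Gm φ p e τ ∧ Frc S Gm ψ p e τ
  | .allN φ, p, e, τ => ∀ n, Frc S Gm φ p (ex n e) τ
  | .allS φ, p, e, τ => ∀ σ, Nm S σ → Frc S Gm φ p e (ex σ τ)

/-- Generic filters. -/
structure Gen (S : Str) (Gm : Set ℕ → Set ℕ) (G : Cond → Prop) : Prop where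
  cond : ∀ p, G p → IsCond S p
  up : ∀ p q, G p → IsCond S q → Le Gm p q → G q
  dir : ∀ p q, G p → G q → ∃ r, G r ∧ Le Gm r p ∧ Le Gm r q
  meet : ∀ D : Cond → Prop, Dfn S D → (∀ p, IsCond S p → ∃ q, IsCond S q ∧ Le Gm q p ∧ D q) → ∃ q, G q ∧ D q

/-- Evaluation of names. -/
def evl (S : Str) (G : Cond → Prop) (σ : Set ℕ) : Set ℕ := {n | ∃ p, Ent S σ n p ∧ G p}

/-- The generic model. -/
def NN (S : Str) (G : Cond → Prop) : Set (Set ℕ) := {X | ∃ σ, Nm S σ ∧ X = evl S G σ}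

/-- The generic real at the node `s`. -/
def gen (G : Cond → Prop) (s : Node) : Set ℕ := {k | ∃ p, G p ∧ (s, k) ∈ bts p}

/-- The class of reals with a name supported in `T`. -/
def NT (S : Str) (G : Cond → Prop) (T : Set ℕ) : Set (Set ℕ) :=
  {X | ∃ σ ∈ S.U, Sup S σ T ∧ X = evl S G σ}

open Classical in
/-- The part of `p` on the nodes in `T`. -/
noncomputable def res (T : Set ℕ) (p : Cond) : Cond :=
  (((nds p).filter (fun s => inn T s), ht p, (bts p).filter (fun x => inn T x.1)), fs p)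

/-- The union of two conditions (meaningful if the height of `q` is at least the height of `p`). -/
def jnc (q p : Cond) : Cond := ((nds q ++ nds p, ht q, bts q ++ bts p), fs q ++ fs p)

end Pool.Agent.Lib.Z2
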