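import Pool.Agent.Lib.Z2.Fo.SpecA

/-!
# C45, forcing part: density criterion for forcing (MP_8dbd20_lc)
-/

namespace Pool.Agent.Lib.Z2

/-- (Dens) If it is dense below `p` to force `φ` then `p` forces `φ`. -/
theorem tDens (h_Refl : S_Refl) (h_Trans : S_Trans) (h_Mono : S_Mono) : S_Dens := by
  intro S Gm φ
  induction φ with
  | eq s t =>
    intro p e τ hp h
    obtain ⟨r, _, _, hr⟩ := h p hp (h_Refl S Gm p hp)
    exact hr
  | lt s t =>
    intro p e τ hp h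
    obtain ⟨r, _, _, hr⟩ := h p hp (h_Refl S Gm p hp)
    exact hr
  | mem t i =>
    intro p e τ hp h q hq hqp
    obtain ⟨r, hr, hrq, hf⟩ := h q hq hqp
    obtain ⟨r', hr', hr'r, hw⟩ := hf r hr (h_Refl S Gm r hr)
    exact ⟨r', hr', h_Trans S Gm q r r' hq hr hr' hr'r hrq, hw⟩
  | neg φ ih =>
    intro p e τ hp h q hq hqp hf
    obtain ⟨r, hr, hrq, hn⟩ := h q hq hqp
    exact hn r hr (h_Refl S Gm r hr) (h_Mono S Gm φ q r e τ hq hr hrq hf)
  | and φ ψ ih1 ih2 =>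
    intro p e τ hp h
    refine ⟨ih1 p e τ hp ?_, ih2 p e τ hp ?_⟩
    · intro q hq hqp
      obtain ⟨r, hr, hrq, hf⟩ := h q hq hqp
      exact ⟨r, hr, hrq, hf.1⟩
    · intro q hq hqp
      obtain ⟨r, hr, hrq, hf⟩ := h q hq hqp
      exact ⟨r, hr, hrq, hf.2⟩
  | allN φ ih =>
    intro p e τ hp h n
    refine ih p (ex n e) τ hp ?_
    intro q hq hqp
    obtain ⟨r, hr, hrq, hf⟩ := h q hq hqp
    exact ⟨r, hr, hrq, hf n⟩
  | allS φ ih =>
    intro p e τ hp h σ hσ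
    refine ih p e (ex σ τ) hp ?_
    intro q hq hqp
    obtain ⟨r, hr, hrq, hf⟩ := h q hq hqp
    exact ⟨r, hr, hrq, hf σ hσ⟩

end Pool.Agent.Lib.Z2
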