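import Pool.Agent.Lib.Z2.Fo.SpecP

/-!
# C45, forcing part: `Ent` (MP_8dbd20_lc)
-/

set_option autoImplicit false

namespace Pool.Agent.Lib.Z2

theorem tEnt (h_Ic : S_Ic) (h_Cdc : S_Cdc) : S_Ent := by
  intro S _ α _ σ n p hσ hn hp
  obtain ⟨-, -, -, -, h5⟩ := h_Ic S α p hp
  have hc : DF S (fun a => cdc (p a)) := (h_Cdc.2.2 S).2.2 α p hp
  refine Dfn.and h5 ?_
  refine Dfn.exN (P := fun (a : α) (i : ℕ) => sec (σ a) (Nat.pair (n a) i) = cdc (p a)) ?_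
  exact Dfn.eq (DF.sec (hσ.comp DF.id.fst) (DF.natPair (hn.comp DF.id.fst) DF.id.snd))
    (hc.comp DF.id.fst)

end Pool.Agent.Lib.Z2
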