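import Pool.Agent.Lib.Z2.Fo.SpecP

/-!
# C45, forcing part: definability of `List.filter`
-/

namespace Pool.Agent.Lib.Z2

/-- the sublist of `l` selected by the bits `bs` -/
def filtF {T : Type} (l : List T) (bs : List Bool) : List T :=
  (List.range l.length).filterMap (fun i => if bs[i]? = some true then l[i]? else none)

theorem filtF_prim {T : Type} [Primcodable T] : Primrec₂ (filtF : List T → List Bool → List T) := by
  unfold filtF
  refine Primrec.listFilterMap (f := fun p : List T × List Bool => List.range p.1.length)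
    (g := fun p i => if p.2[i]? = some true then p.1[i]? else none) ?_ ?_
  · exact Primrec.list_range.comp (Primrec.list_length.comp Primrec.fst)
  · refine Primrec.ite ?_ ?_ ?_
    · exact Primrec.eq.comp
        (Primrec.list_getElem?.comp (Primrec.snd.comp Primrec.fst) Primrec.snd)
        (Primrec.const (some true))
    · exact Primrec.list_getElem?.comp (Primrec.fst.comp Primrec.fst) Primrec.snd
    · exact Primrec.const none

theorem filtF_eq {T : Type} (P : T → Prop) [DecidablePred P] : ∀ (l : List T) (bs : List Bool),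
    (∀ (i : ℕ) (t : T), l[i]? = some t → (bs[i]? = some true ↔ P t)) →
      filtF l bs = l.filter (fun t => P t)
  | [], bs, _ => by simp [filtF]
  | t :: l, bs, h => by
    have ih := filtF_eq P l bs.tail (fun i s hs => by
      have := h (i + 1) s (by simpa using hs)
      rw [← this, List.getElem?_tail])
    have h0 := h 0 t (by simp)
    unfold filtF at ih ⊢
    rw [List.length_cons, List.range_succ_eq_map, List.filterMap_cons, List.filterMap_map]
    have e : (fun i => if bs[i]? = some true then (t :: l)[i]? else none) ∘ Nat.succ =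
        fun i => if bs.tail[i]? = some true then l[i]? else none := by
      funext i
      simp [List.getElem?_tail]
    rw [e, ih]
    by_cases hP : P t
    · rw [if_pos (h0.2 hP)]
      simp [hP]
    · rw [if_neg (fun h1 => hP (h0.1 h1))]
      simp [hP]

theorem tFilt : S_Filt := by
  intro S _ α T _ _ _ _ P g hP hg
  classical
  refine ⟨fun a _ => PShp.vl_all _ _, ?_⟩
  have h1 : Dfn S (fun x : (((α × List T) × List Bool) × ℕ) × T =>
      (g x.1.1.1.1)[x.1.2]? = some x.2 → (x.1.1.2[x.1.2]? = some true ↔ P x.1.1.1.1 x.2)) := by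
    refine Dfn.imp ?_ (Dfn.iff ?_ ?_)
    · refine Dfn.eq (f := fun x : (((α × List T) × List Bool) × ℕ) × T => (g x.1.1.1.1)[x.1.2]?)
        (g := fun x : (((α × List T) × List Bool) × ℕ) × T => some x.2) ?_ ?_
      · exact DF.prim₂ (F := fun (l : List T) (i : ℕ) => l[i]?) Primrec.list_getElem?
          (hg.comp Smp.id.fst.fst.fst.fst.df) Smp.id.fst.snd.df
      · exact DF.prim Primrec.option_some Smp.id.snd.df
    · refine Dfn.eq (f := fun x : (((α × List T) × List Bool) × ℕ) × T => x.1.1.2[x.1.2]?)
        (g := fun _ => some true) ?_ (DF.constN (some true))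
      exact DF.prim₂ (F := fun (l : List Bool) (i : ℕ) => l[i]?) Primrec.list_getElem?
          Smp.id.fst.fst.snd.df Smp.id.fst.snd.df
    · exact hP.smp (f := fun x : (((α × List T) × List Bool) × ℕ) × T => (x.1.1.1.1, x.2))
        (Smp.id.fst.fst.fst.fst.pair Smp.id.snd)
  have h2 : Dfn S (fun x : (α × List T) × List Bool => ∀ i : ℕ, ∀ t : T,
      (g x.1.1)[i]? = some t → (x.2[i]? = some true ↔ P x.1.1 t)) := by
    refine Dfn.allN (P := fun (x : (α × List T) × List Bool) (i : ℕ) => ∀ t : T,
      (g x.1.1)[i]? = some t → (x.2[i]? = some true ↔ P x.1.1 t)) ?_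
    exact Dfn.allN (P := fun (x : ((α × List T) × List Bool) × ℕ) (t : T) =>
      (g x.1.1.1)[x.2]? = some t → (x.1.2[x.2]? = some true ↔ P x.1.1.1 t)) h1
  have h3 : Dfn S (fun x : (α × List T) × List Bool => filtF (g x.1.1) x.2 = x.1.2) := by
    refine Dfn.eq (f := fun x : (α × List T) × List Bool => filtF (g x.1.1) x.2)
      (g := fun x : (α × List T) × List Bool => x.1.2) ?_ Smp.id.fst.snd.df
    exact DF.prim₂ (F := filtF) filtF_prim (hg.comp Smp.id.fst.fst.df) Smp.id.snd.df
  have h4 : Dfn S (fun x : α × List T => ∃ bs : List Bool, (∀ i : ℕ, ∀ t : T,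
      (g x.1)[i]? = some t → (bs[i]? = some true ↔ P x.1 t)) ∧ filtF (g x.1) bs = x.2) :=
    Dfn.exN (P := fun (x : α × List T) (bs : List Bool) => (∀ i : ℕ, ∀ t : T,
      (g x.1)[i]? = some t → (bs[i]? = some true ↔ P x.1 t)) ∧ filtF (g x.1) bs = x.2) (h2.and h3)
  refine h4.congr (fun x _ => ?_)
  constructor
  · intro h
    refine ⟨(g x.1).map (fun t => decide (P x.1 t)), ?_, ?_⟩
    · intro i t hi
      rw [List.getElem?_map, hi]
      simp
    · rw [← h]
      apply filtF_eq
      intro i t hi
      rw [List.getElem?_map, hi]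
      simp
  · rintro ⟨bs, hbs, hF⟩
    rw [← hF]
    exact (filtF_eq _ _ _ hbs).symm

end Pool.Agent.Lib.Z2
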