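import Pool.Agent.Lib.Z2.Fo.SpecP

/-!
# C45, forcing part: module Fin (MP_8dbd20_lc)
-/

namespace Pool.Agent.Lib.Z2

private theorem Fin_pred (S : Str) [Good S] (p : ℕ → Prop) [DecidablePred p] (hp : PrimrecPred p) :
    {n | p n} ∈ S.U := by
  have hu : (Set.univ : Set ℕ) ∈ S.U := by
    have h := Good.uc (S := S) _ (Good.ue S)
    rwa [Set.compl_empty] at h
  have hf : Primrec (fun n : ℕ => if p n then some 0 else none) :=
    Primrec.ite hp (Primrec.const _) (Primrec.const _)
  have h1 := Good.prf_mem S hf hu
  have h2 : prf (fun n : ℕ => if p n then some 0 else none) Set.univ = {n | p n} := by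
    ext n
    simp only [prf, Set.mem_ofPred_eq]
    by_cases h : p n
    · simp [h]
    · simp [h]
  rwa [h2] at h1

private theorem Fin_list (l : List ℕ) : PrimrecPred (fun n : ℕ => n ∈ l) := by
  induction l with
  | nil =>
      refine (Primrec.eq.comp (Primrec.const (0 : ℕ)) (Primrec.const 1)).of_eq ?_
      intro n
      simp
  | cons a l ih =>
      have h1 : PrimrecPred (fun n : ℕ => n = a) := Primrec.eq.comp Primrec.id (Primrec.const a)
      refine (h1.or ih).of_eq ?_
      intro n
      simp

theorem tFin : S_Fin := by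
  intro S _
  refine ⟨fun p _ hp => Fin_pred S p hp, fun l => ?_⟩
  exact Fin_pred S (fun n => n ∈ l) (Fin_list l)

end Pool.Agent.Lib.Z2
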