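import Pool.Agent.Lib.Z2.Fo.SpecA

/-!
# C45, forcing part, FmL: a formula depends on finitely many variables (MP_8dbd20_lc)
-/

namespace Pool.Agent.Lib.Z2

private theorem FmL_tm (t : Tm) : ∃ k : ℕ, ∀ e e' : ℕ → ℕ, (∀ i < k, e i = e' i) →
    t.val e = t.val e' := by
  induction t with
  | var i => exact ⟨i + 1, fun e e' h => h i (Nat.lt_succ_self i)⟩
  | zero => exact ⟨0, fun _ _ _ => rfl⟩
  | one => exact ⟨0, fun _ _ _ => rfl⟩
  | add s t hs ht =>
    obtain ⟨k, hk⟩ := hs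
    obtain ⟨l, hl⟩ := ht
    refine ⟨max k l, fun e e' h => ?_⟩
    have h1 := hk e e' (fun i hi => h i (lt_of_lt_of_le hi (le_max_left _ _)))
    have h2 := hl e e' (fun i hi => h i (lt_of_lt_of_le hi (le_max_right _ _)))
    simp only [Tm.val, h1, h2]
  | mul s t hs ht =>
    obtain ⟨k, hk⟩ := hs
    obtain ⟨l, hl⟩ := ht
    refine ⟨max k l, fun e e' h => ?_⟩
    have h1 := hk e e' (fun i hi => h i (lt_of_lt_of_le hi (le_max_left _ _)))
    have h2 := hl e e' (fun i hi => h i (lt_of_lt_of_le hi (le_max_right _ _)))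
    simp only [Tm.val, h1, h2]

private theorem FmL_ex {α : Type} (k : ℕ) (a : α) (e e' : ℕ → α) (h : ∀ i < k, e i = e' i) :
    ∀ i < k, ex a e i = ex a e' i := by
  intro i hi
  rcases i with _ | i
  · rfl
  · exact h i (Nat.lt_of_succ_lt hi)

/-- (FmL) A formula depends on finitely many variables. -/
theorem tFmL : S_FmL := by
  intro φ
  induction φ with
  | eq s t =>
    obtain ⟨k, hk⟩ := FmL_tm s
    obtain ⟨l, hl⟩ := FmL_tm t
    refine ⟨max k l, fun M e e' E E' h _ => ?_⟩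
    have h1 := hk e e' (fun i hi => h i (lt_of_lt_of_le hi (le_max_left _ _)))
    have h2 := hl e e' (fun i hi => h i (lt_of_lt_of_le hi (le_max_right _ _)))
    simp only [Fm.Sat, h1, h2]
  | lt s t =>
    obtain ⟨k, hk⟩ := FmL_tm s
    obtain ⟨l, hl⟩ := FmL_tm t
    refine ⟨max k l, fun M e e' E E' h _ => ?_⟩
    have h1 := hk e e' (fun i hi => h i (lt_of_lt_of_le hi (le_max_left _ _)))
    have h2 := hl e e' (fun i hi => h i (lt_of_lt_of_le hi (le_max_right _ _)))
    simp only [Fm.Sat, h1, h2]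
  | mem t i =>
    obtain ⟨k, hk⟩ := FmL_tm t
    refine ⟨max k (i + 1), fun M e e' E E' h h' => ?_⟩
    have h1 := hk e e' (fun i hi => h i (lt_of_lt_of_le hi (le_max_left _ _)))
    have h2 := h' i (lt_of_lt_of_le (Nat.lt_succ_self i) (le_max_right _ _))
    simp only [Fm.Sat, h1, h2]
  | neg φ ih =>
    obtain ⟨k, hk⟩ := ih
    exact ⟨k, fun M e e' E E' h h' => not_congr (hk M e e' E E' h h')⟩
  | and φ ψ ih1 ih2 =>
    obtain ⟨k, hk⟩ := ih1
    obtain ⟨l, hl⟩ := ih2
    refine ⟨max k l, fun M e e' E E' h h' => and_congr ?_ ?_⟩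
    · exact hk M e e' E E' (fun i hi => h i (lt_of_lt_of_le hi (le_max_left _ _)))
        (fun i hi => h' i (lt_of_lt_of_le hi (le_max_left _ _)))
    · exact hl M e e' E E' (fun i hi => h i (lt_of_lt_of_le hi (le_max_right _ _)))
        (fun i hi => h' i (lt_of_lt_of_le hi (le_max_right _ _)))
  | allN φ ih =>
    obtain ⟨k, hk⟩ := ih
    exact ⟨k, fun M e e' E E' h h' => forall_congr' fun n =>
      hk M _ _ E E' (FmL_ex k n e e' h) h'⟩
  | allS φ ih =>
    obtain ⟨k, hk⟩ := ih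
    exact ⟨k, fun M e e' E E' h h' => forall_congr' fun X => imp_congr_right fun _ =>
      hk M e e' _ _ h (FmL_ex k X E E' h')⟩

end Pool.Agent.Lib.Z2
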