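import Pool.Agent.Lib.Z2.Fo.SpecA

/-!
# C45, forcing part, FrcA: invariance of forcing (MP_8dbd20_lc)
-/

namespace Pool.Agent.Lib.Z2

/-- (FrcA) Invariance of forcing. -/
theorem tFrcA (h_PicM : S_PicM) (h_PinE : S_PinE) (h_NmA : S_NmA) (h_FrcC : S_FrcC) :
    S_FrcA := by
  intro S _ Gm hU π hA φ
  obtain ⟨-, hp⟩ := h_PicM S Gm π hA.nil hA.tl hA.inv
  have hinv : ∀ p : Cond, pic π (pic π p) = p := fun p => (hp p).1
  have hcond : ∀ p, IsCond S p → IsCond S (pic π p) := fun p => (hp p).2.2.2.2.2.2.2.1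
  have hle : ∀ p q, Le Gm q p → Le Gm (pic π q) (pic π p) := fun p => (hp p).2.2.2.2.2.2.2.2.2.1
  have hE := (h_PinE S π hA.nil hA.tl hA.inv).1
  have hEE : ∀ σ n w, Ent S (pin π (pin π σ)) n w ↔ Ent S σ n w := by
    intro σ n w
    rw [hE, hE, hinv]
  have hNm := (h_NmA S Gm hU π hA).2
  induction φ with
  | eq s t => intro p e τ _ h; exact h
  | lt s t => intro p e τ _ h; exact h
  | mem t i =>
    intro p e τ hpc h
    simp only [Frc] at h ⊢
    intro q hq hqp
    have h1 : Le Gm (pic π q) p := by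
      have := hle _ _ hqp
      rwa [hinv] at this
    obtain ⟨r, hr, hrq, w, hw, hrw⟩ := h (pic π q) (hcond q hq) h1
    refine ⟨pic π r, hcond r hr, ?_, pic π w, ?_, hle _ _ hrw⟩
    · have := hle _ _ hrq
      rwa [hinv] at this
    · rw [hE, hinv]
      exact hw
  | neg φ ih =>
    intro p e τ hpc h
    simp only [Frc] at h ⊢
    intro q hq hqp hf
    have h1 : Le Gm (pic π q) p := by
      have := hle _ _ hqp
      rwa [hinv] at this
    refine h (pic π q) (hcond q hq) h1 ?_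
    have h2 := ih q e _ hq hf
    exact (h_FrcC S Gm φ _ e _ _ (fun i n w => hEE (τ i) n w)).1 h2
  | and φ ψ ih1 ih2 =>
    intro p e τ hpc h
    simp only [Frc] at h ⊢
    exact ⟨ih1 p e τ hpc h.1, ih2 p e τ hpc h.2⟩
  | allN φ ih =>
    intro p e τ hpc h
    simp only [Frc] at h ⊢
    intro n
    exact ih p (ex n e) τ hpc (h n)
  | allS φ ih =>
    intro p e τ hpc h
    simp only [Frc] at h ⊢
    intro σ hσ
    have h1 := ih p e (ex (pin π σ) τ) hpc (h (pin π σ) (hNm σ hσ))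
    refine (h_FrcC S Gm φ _ e _ _ ?_).1 h1
    intro i n w
    rcases i with _ | i
    · exact hEE σ n w
    · exact Iff.rfl

end Pool.Agent.Lib.Z2
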