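import Pool.Agent.Lib.Z2.Fo.SpecA

/-!
# C45, forcing part, FrcC: forcing depends only on the entries of the names (MP_8dbd20_lc)
-/

namespace Pool.Agent.Lib.Z2

/-- (FrcC) Forcing depends only on the entries of the names. -/
theorem tFrcC : S_FrcC := by
  intro S Gm φ
  induction φ with
  | eq s t => intro p e τ τ' _; exact Iff.rfl
  | lt s t => intro p e τ τ' _; exact Iff.rfl
  | mem t i =>
    intro p e τ τ' h
    simp only [Frc]
    refine forall_congr' fun q => imp_congr_right fun _ => imp_congr_right fun _ =>
      exists_congr fun r => and_congr_right fun _ => and_congr_right fun _ =>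
      exists_congr fun w => and_congr_left fun _ => ?_
    exact h i _ w
  | neg φ ih =>
    intro p e τ τ' h
    simp only [Frc]
    exact forall_congr' fun q => imp_congr_right fun _ => imp_congr_right fun _ =>
      not_congr (ih q e τ τ' h)
  | and φ ψ ih1 ih2 =>
    intro p e τ τ' h
    simp only [Frc]
    exact and_congr (ih1 p e τ τ' h) (ih2 p e τ τ' h)
  | allN φ ih =>
    intro p e τ τ' h
    simp only [Frc]
    exact forall_congr' fun n => ih p (ex n e) τ τ' h
  | allS φ ih =>
    intro p e τ τ' h
    simp only [Frc]
    refine forall_congr' fun σ => imp_congr_right fun _ => ih p e (ex σ τ) (ex σ τ') ?_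
    intro i n w
    rcases i with _ | i
    · exact Iff.rfl
    · exact h i n w

end Pool.Agent.Lib.Z2
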