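import Pool.Agent.Lib.Z2.Fo.SpecP

/-!
# C45, forcing part, FrcD: definability of forcing (MP_8dbd20_lc)
-/

namespace Pool.Agent.Lib.Z2

/-- (FrcD) Definability of forcing. -/
theorem tFrcD (h_Ic : S_Ic) (h_Le : S_Le) (h_Cdc : S_Cdc) (h_Ent : S_Ent) (h_Idl : S_Idl) :
    S_FrcD := by
  intro S _ Gm hG φ
  have hvl : ∀ p, IsCond S p → vl S.U p := (h_Cdc.2.2 S).2.1
  induction φ with
  | eq s t => intro α _ p e τ _ he _; exact Dfn.eq (df_val s he) (df_val t he)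
  | lt s t => intro α _ p e τ _ he _; exact Dfn.lt (df_val s he) (df_val t he)
  | mem t i =>
    intro α _ p e τ hp he hτ
    -- the entry
    have h1 : Dfn S (fun x : ((α × Cond) × Cond) × Cond =>
        Ent S (τ x.1.1.1 i) (t.val (e x.1.1.1)) x.2 ∧ Le Gm x.1.2 x.2) := by
      refine Dfn.and ?_ ?_
      · exact h_Ent S _ _ _ _ ((hτ i).comp Smp.id.fst.fst.fst.df)
          ((df_val t he).comp Smp.id.fst.fst.fst.df) Smp.id.snd.df
      · exact h_Le S Gm _ _ _ hG Smp.id.fst.snd.df Smp.id.snd.df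
    have h2 : Dfn S (fun x : (α × Cond) × Cond =>
        ∃ w, Ent S (τ x.1.1 i) (t.val (e x.1.1)) w ∧ Le Gm x.2 w) := by
      refine (Dfn.exV (P := fun (x : (α × Cond) × Cond) (w : Cond) =>
        Ent S (τ x.1.1 i) (t.val (e x.1.1)) w ∧ Le Gm x.2 w) h1).congr (fun x _ => ?_)
      exact exists_congr fun w => ⟨fun h => ⟨hvl w h.1.1, h⟩, fun h => h.2⟩
    have h3 : Dfn S (fun x : (α × Cond) × Cond => IsCond S x.2 ∧ Le Gm x.2 x.1.2 ∧
        ∃ w, Ent S (τ x.1.1 i) (t.val (e x.1.1)) w ∧ Le Gm x.2 w) := by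
      refine Dfn.and ?_ (Dfn.and ?_ h2)
      · exact (h_Ic S _ _ Smp.id.snd.df).2.2.2.2
      · exact h_Le S Gm _ _ _ hG Smp.id.snd.df Smp.id.fst.snd.df
    have h4 : Dfn S (fun x : α × Cond => ∃ r, IsCond S r ∧ Le Gm r x.2 ∧
        ∃ w, Ent S (τ x.1 i) (t.val (e x.1)) w ∧ Le Gm r w) := by
      refine (Dfn.exV (P := fun (x : α × Cond) (r : Cond) => IsCond S r ∧ Le Gm r x.2 ∧
        ∃ w, Ent S (τ x.1 i) (t.val (e x.1)) w ∧ Le Gm r w) h3).congr (fun x _ => ?_)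
      exact exists_congr fun r => ⟨fun h => ⟨hvl r h.1, h⟩, fun h => h.2⟩
    have h5 : Dfn S (fun x : α × Cond => IsCond S x.2 → Le Gm x.2 (p x.1) →
        ∃ r, IsCond S r ∧ Le Gm r x.2 ∧ ∃ w, Ent S (τ x.1 i) (t.val (e x.1)) w ∧ Le Gm r w) := by
      refine Dfn.imp ?_ (Dfn.imp ?_ h4)
      · exact (h_Ic S _ _ Smp.id.snd.df).2.2.2.2
      · exact h_Le S Gm _ _ _ hG Smp.id.snd.df (hp.comp Smp.id.fst.df)
    refine (Dfn.allV (P := fun (a : α) (q : Cond) => IsCond S q → Le Gm q (p a) →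
        ∃ r, IsCond S r ∧ Le Gm r q ∧ ∃ w, Ent S (τ a i) (t.val (e a)) w ∧ Le Gm r w)
        h5).congr (fun a _ => ?_)
    exact ⟨fun h q _ hq => h q hq, fun h q hq => h q (hvl q hq) hq⟩
  | neg φ ih =>
    intro α _ p e τ hp he hτ
    have h5 : Dfn S (fun x : α × Cond => IsCond S x.2 → Le Gm x.2 (p x.1) →
        ¬ Frc S Gm φ x.2 (e x.1) (τ x.1)) := by
      refine Dfn.imp ?_ (Dfn.imp ?_ (Dfn.not ?_))
      · exact (h_Ic S _ _ Smp.id.snd.df).2.2.2.2
      · exact h_Le S Gm _ _ _ hG Smp.id.snd.df (hp.comp Smp.id.fst.df)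
      · exact ih (α × Cond) (fun x => x.2) (fun x => e x.1) (fun x => τ x.1) Smp.id.snd.df
          (fun i => (he i).comp Smp.id.fst.df) (fun i => (hτ i).comp Smp.id.fst.df)
    refine (Dfn.allV (P := fun (a : α) (q : Cond) => IsCond S q → Le Gm q (p a) →
        ¬ Frc S Gm φ q (e a) (τ a)) h5).congr (fun a _ => ?_)
    exact ⟨fun h q _ hq => h q hq, fun h q hq => h q (hvl q hq) hq⟩
  | and φ ψ ih1 ih2 =>
    intro α _ p e τ hp he hτ
    exact (ih1 α p e τ hp he hτ).and (ih2 α p e τ hp he hτ)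
  | allN φ ih =>
    intro α _ p e τ hp he hτ
    refine Dfn.allN (P := fun (a : α) (n : ℕ) => Frc S Gm φ (p a) (ex n (e a)) (τ a)) ?_
    refine ih (α × ℕ) (fun x => p x.1) (fun x => ex x.2 (e x.1)) (fun x => τ x.1)
      (hp.comp Smp.id.fst.df) ?_ (fun i => (hτ i).comp Smp.id.fst.df)
    intro i
    rcases i with _ | i
    · exact Smp.id.snd.df
    · exact (he i).comp Smp.id.fst.df
  | allS φ ih =>
    intro α _ p e τ hp he hτ
    have h1 : Dfn S (fun x : α × Set ℕ => Nm S x.2 →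
        Frc S Gm φ (p x.1) (e x.1) (ex x.2 (τ x.1))) := by
      refine Dfn.imp ?_ ?_
      · exact (h_Idl S (α × Set ℕ) (fun x => x.2) Smp.id.snd.df).2
      · refine ih (α × Set ℕ) (fun x => p x.1) (fun x => e x.1) (fun x => ex x.2 (τ x.1))
          (hp.comp Smp.id.fst.df) (fun i => (he i).comp Smp.id.fst.df) ?_
        intro i
        rcases i with _ | i
        · exact Smp.id.snd.df
        · exact (hτ i).comp Smp.id.fst.df
    refine (Dfn.allR (P := fun (a : α) (X : Set ℕ) => Nm S X →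
        Frc S Gm φ (p a) (e a) (ex X (τ a))) h1).congr (fun a _ => ?_)
    exact ⟨fun h X _ hX => h X hX, fun h X hX => h X hX.1 hX⟩

end Pool.Agent.Lib.Z2
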