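import Pool.Agent.Lib.Z2.Fo.SpecA

/-!
# C45, forcing part, FrcFx: names supported in a fixed set (MP_8dbd20_lc)
-/

namespace Pool.Agent.Lib.Z2

/-- (FrcFx) Names supported in a fixed set. -/
theorem tFrcFx (h_PinE : S_PinE) (h_FrcC : S_FrcC) (h_FrcA : S_FrcA) : S_FrcFx := by
  intro S _ Gm hU π hA T hT φ p e τ hp hτ
  have hE := (h_PinE S π hA.nil hA.tl hA.inv).2.2
  constructor
  · intro h
    have h1 := h_FrcA S Gm hU π hA φ p e τ hp h
    exact (h_FrcC S Gm φ _ e _ _ (fun i n w => hE (τ i) T hT (hτ i) n w)).1 h1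
  · intro σ h
    have h1 := h_FrcA S Gm hU π hA φ p e (ex σ τ) hp h
    refine (h_FrcC S Gm φ _ e _ _ ?_).1 h1
    intro i n w
    rcases i with _ | i
    · exact Iff.rfl
    · exact hE (τ i) T hT (hτ i) n w

end Pool.Agent.Lib.Z2
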