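import Pool.Agent.Lib.Z2.Fo.SpecP

/-!
# C45, forcing part: (Gcomp) comprehension with parameters
-/

namespace Pool.Agent.Lib.Z2

theorem tGcomp : S_Gcomp := by
  intro S _ Gm hU
  have h1 : ∀ (α β : Type) [Shp α] [Shp β] (b : β), vl S.U b → DF S (fun _ : α => b) := by
    intro α β _ _ b hb
    refine ⟨fun _ _ => hb, ?_⟩
    have hre : re b ∈ S.Pm := by
      rw [hU.pm]
      exact Shp.re_mem S b hb
    have h2 : Dfn S (fun x : α × β => num b = num x.2) :=
      Dfn.eq (DF.constN (num b)) (DF.num (DF.snd DF.id))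
    have h3 : Dfn S (fun x : α × β => re b = re x.2) :=
      Dfn.eq (DF.constR hre) (DF.re (DF.snd DF.id))
    refine (h2.and h3).congr fun x _ => ?_
    exact ⟨fun h => ⟨congrArg num h, congrArg re h⟩, fun h => Shp.inj _ _ h.1 h.2⟩
  refine ⟨h1, fun α _ P hP => DF.set (fun a ha => ?_) hP⟩
  exact hU.comp _ (hP.comp₂ (R := P) (h1 ℕ α a ha) DF.id)

end Pool.Agent.Lib.Z2
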