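import Pool.Agent.Lib.Z2.Fo.SpecA

/-! C45, forcing part: `S_GenEx` (MP_8dbd20_lc) -/

namespace Pool.Agent.Lib.Z2

theorem tGenEx (h_Refl : S_Refl) (h_Trans : S_Trans) (h_Cdc : S_Cdc) : S_GenEx := by
  intro S _ Gm hU p hp
  have hPc : S.Pm.Countable := by rw [hU.pm]; exact hU.cnt
  obtain ⟨D, hD⟩ := dfn_countable hPc ⟨∅, Good.pe⟩ Cond
  classical
  let f : ℕ → {q : Cond // IsCond S q} := fun n => Nat.rec (⟨p, hp⟩ : {q : Cond // IsCond S q})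
    (fun n q => if h : ∃ r : {q : Cond // IsCond S q}, Le Gm r.1 q.1 ∧ D n r.1 then h.choose else q) n
  have f0 : f 0 = ⟨p, hp⟩ := rfl
  have fs : ∀ n, f (n + 1) = if h : ∃ r : {q : Cond // IsCond S q}, Le Gm r.1 (f n).1 ∧ D n r.1 then h.choose
      else f n := fun n => rfl
  clear_value f
  have hstep : ∀ n, Le Gm (f (n + 1)).1 (f n).1 := by
    intro n
    rw [fs]
    split_ifs with h
    · exact h.choose_spec.1
    · exact h_Refl S Gm _ (f n).2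
  have hmono : ∀ n k, Le Gm (f (n + k)).1 (f n).1 := by
    intro n k
    induction k with
    | zero => exact h_Refl S Gm _ (f n).2
    | succ k ih => exact h_Trans S Gm _ _ _ (f n).2 (f (n + k)).2 (f (n + k + 1)).2 (hstep (n + k)) ih
  refine ⟨fun q => IsCond S q ∧ ∃ n, Le Gm (f n).1 q, ⟨fun q h => h.1, ?_, ?_, ?_⟩, ⟨hp, 0, ?_⟩⟩
  · rintro q q' ⟨hq, n, hn⟩ hq' hle
    exact ⟨hq', n, h_Trans S Gm _ _ _ hq' hq (f n).2 hn hle⟩
  · rintro q q' ⟨hq, n, hn⟩ ⟨hq', n', hn'⟩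
    refine ⟨(f (n + n')).1, ⟨(f (n + n')).2, n + n', h_Refl S Gm _ (f (n + n')).2⟩, ?_, ?_⟩
    · exact h_Trans S Gm _ _ _ hq (f n).2 (f (n + n')).2 (hmono n n') hn
    · have := hmono n' n
      rw [Nat.add_comm n' n] at this
      exact h_Trans S Gm _ _ _ hq' (f n').2 (f (n + n')).2 this hn'
  · intro P hP hdense
    obtain ⟨n, hn⟩ := hD P hP
    have hv : ∀ q, IsCond S q → vl S.U q := (h_Cdc.2.2 S).2.1
    obtain ⟨q, hq, hqf, hPq⟩ := hdense (f n).1 (f n).2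
    have hex : ∃ r : {q : Cond // IsCond S q}, Le Gm r.1 (f n).1 ∧ D n r.1 :=
      ⟨⟨q, hq⟩, hqf, (hn q (hv q hq)).1 hPq⟩
    have e := fs n
    rw [dif_pos hex] at e
    refine ⟨(f (n + 1)).1, ⟨(f (n + 1)).2, n + 1, h_Refl S Gm _ (f (n + 1)).2⟩, ?_⟩
    have h1 := hex.choose_spec.2
    rw [← e] at h1
    exact (hn _ (hv _ (f (n + 1)).2)).2 h1
  · rw [f0]
    exact h_Refl S Gm p hp

end Pool.Agent.Lib.Z2
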