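import Pool.Agent.Lib.Z2.Fo.SpecA

/-! C45, forcing part: `S_GenR` (MP_8dbd20_lc) -/

namespace Pool.Agent.Lib.Z2

theorem tGenR (h_Ic : S_Ic) (h_Cdc : S_Cdc) : S_GenR := by
  intro S _ Gm hU G hG T hI s hs
  let Q : Ty → ℕ → Prop := fun t k => IsCond S (t, []) ∧ (∀ s' ∈ t.1, s' ∈ s.tails) ∧ (s, k) ∈ t.2.2
  let ρ : Set ℕ := {x | ∃ t : Ty, Encodable.encode t = x.unpair.1.unpair.2 ∧ Q t x.unpair.1.unpair.1 ∧
    x.unpair.2 ∈ cdc (t, [])}
  have hsec : ∀ k i (w : Cond), sec ρ (Nat.pair k i) = cdc w ↔ ∃ t : Ty, Encodable.encode t = i ∧ Q t k ∧ w = (t, []) := by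
    intro k i w
    constructor
    · intro h
      obtain ⟨y, hy⟩ : ∃ y, y ∈ cdc w := Set.nonempty_iff_ne_empty.2 (h_Cdc.2.1 w)
      rw [← h] at hy
      obtain ⟨t, h1, h2, h3⟩ := hy
      simp only [Nat.unpair_pair] at h1 h2 h3
      refine ⟨t, h1, h2, ?_⟩
      apply h_Cdc.1
      rw [← h]
      ext z
      constructor
      · rintro ⟨t', h1', h2', h3'⟩
        simp only [Nat.unpair_pair] at h1' h2' h3'
        have : t' = t := Encodable.encode_injective (h1'.trans h1.symm)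
        rw [this] at h3'
        exact h3'
      · intro hz
        refine ⟨t, ?_, ?_, ?_⟩
        · simp only [Nat.unpair_pair]; exact h1
        · simp only [Nat.unpair_pair]; exact h2
        · simp only [Nat.unpair_pair]; exact hz
    · rintro ⟨t, h1, h2, rfl⟩
      ext z
      constructor
      · rintro ⟨t', h1', h2', h3'⟩
        simp only [Nat.unpair_pair] at h1' h2' h3'
        have : t' = t := Encodable.encode_injective (h1'.trans h1.symm)
        rw [this] at h3'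
        exact h3'
      · intro hz
        refine ⟨t, ?_, ?_, ?_⟩
        · simp only [Nat.unpair_pair]; exact h1
        · simp only [Nat.unpair_pair]; exact h2
        · simp only [Nat.unpair_pair]; exact hz
  have hEnt : ∀ k w, Ent S ρ k w ↔ ∃ t : Ty, Q t k ∧ w = (t, []) := by
    intro k w
    constructor
    · rintro ⟨hw, i, hi⟩
      obtain ⟨t, -, h2, h3⟩ := (hsec k i w).1 hi
      exact ⟨t, h2, h3⟩
    · rintro ⟨t, h2, rfl⟩
      exact ⟨h2.1, Encodable.encode t, (hsec k _ _).2 ⟨t, rfl, h2, rfl⟩⟩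
  have hρU : ρ ∈ S.U := by
    apply hU.comp
    have dx1 : DF S (fun x : ℕ × Ty => x.1.unpair.1.unpair.2) := DF.unp2 (DF.unp1 DF.id.fst)
    have dx2 : DF S (fun x : ℕ × Ty => x.1.unpair.1.unpair.1) := DF.unp1 (DF.unp1 DF.id.fst)
    have dx3 : DF S (fun x : ℕ × Ty => x.1.unpair.2) := DF.unp2 DF.id.fst
    have dc : DF S (fun x : ℕ × Ty => ((x.2, []) : Cond)) := DF.id.snd.pair DF.nil
    have d1 : Dfn S (fun x : ℕ × Ty => IsCond S (x.2, [])) := (h_Ic S _ _ dc).2.2.2.2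
    have d2 : Dfn S (fun x : ℕ × Ty => ∀ s' ∈ x.2.1, s' ∈ s.tails) :=
      Dfn.allP (P := fun (x : ℕ × Ty) (s' : Node) => s' ∈ s.tails) DF.id.snd.fst
        (Dfn.pmem DF.id.snd (DF.constN s.tails))
    have d3 : Dfn S (fun x : ℕ × Ty => (s, x.1.unpair.1.unpair.1) ∈ x.2.2.2) :=
      Dfn.pmem (f := fun x : ℕ × Ty => (s, x.1.unpair.1.unpair.1)) ((DF.constN s).pair dx2) DF.id.snd.snd.snd
    have d4 : Dfn S (fun x : ℕ × Ty => x.1.unpair.2 ∈ cdc (x.2, [])) :=
      Dfn.mem dx3 ((h_Cdc.2.2 S).2.2 _ _ dc)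
    refine Dfn.exN (P := fun (x : ℕ) (t : Ty) => Encodable.encode t = x.unpair.1.unpair.2 ∧
      Q t x.unpair.1.unpair.1 ∧ x.unpair.2 ∈ cdc (t, [])) ?_
    exact (Dfn.eq (DF.enc DF.id.snd) dx1).and ((d1.and (d2.and d3)).and d4)
  have hsuf : ∀ (u : List ℕ) (v : Node), inn T (u ++ v) → inn T v := by
    intro u v
    induction u with
    | nil => intro h; exact h
    | cons x u ih => intro h; exact ih (hI.2.2.1 _ h)
  refine ⟨ρ, hρU, ?_, ?_⟩
  · intro k w hw s' hs'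
    obtain ⟨t, h2, rfl⟩ := (hEnt k w).1 hw
    obtain ⟨u, hu⟩ := (List.mem_tails _ _).1 (h2.2.1 s' hs')
    rw [← hu] at hs
    exact hsuf _ _ hs
  · ext k
    constructor
    · rintro ⟨p, hp, hk⟩
      classical
      have hpc := hG.cond p hp
      let t : Ty := ((nds p).filter (fun s' => s' ∈ s.tails), ht p, (bts p).filter (fun x => x.1 ∈ s.tails))
      have ht1 : ∀ s', s' ∈ nds ((t, []) : Cond) ↔ s' ∈ nds p ∧ s' ∈ s.tails := by
        intro s'
        show s' ∈ (nds p).filter (fun s' => s' ∈ s.tails) ↔ _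
        rw [List.mem_filter]; simp
      have ht2 : ∀ x, x ∈ bts ((t, []) : Cond) ↔ x ∈ bts p ∧ x.1 ∈ s.tails := by
        intro x
        show x ∈ (bts p).filter (fun x => x.1 ∈ s.tails) ↔ _
        rw [List.mem_filter]; simp
      have hself : s ∈ s.tails := (List.mem_tails _ _).2 (List.suffix_refl s)
      have hc : IsCond S (t, []) := by
        refine ⟨?_, ?_, fun c hc => absurd hc (by simp [fs])⟩
        · intro s' hs'
          rw [ht1] at hs' ⊢
          refine ⟨hpc.1 _ hs'.1, (List.mem_tails _ _).2 ?_⟩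
          exact (List.tail_suffix _).trans ((List.mem_tails _ _).1 hs'.2)
        · intro x hx
          rw [ht2] at hx
          exact ⟨(ht1 _).2 ⟨(hpc.2.1 x hx.1).1, hx.2⟩, (hpc.2.1 x hx.1).2⟩
      refine ⟨(t, []), (hEnt k _).2 ⟨t, ⟨hc, ?_, ?_⟩, rfl⟩, ?_⟩
      · intro s' hs'
        exact ((ht1 s').1 hs').2
      · exact (ht2 (s, k)).2 ⟨hk, hself⟩
      · refine hG.up _ _ hp hc ⟨fun s' hs' => ((ht1 s').1 hs').1, le_refl _, ?_, fun c hc => absurd hc (by simp [fs]),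
          fun s' _ k _ _ c hc => absurd hc (by simp [fs])⟩
        intro s' hs' k' _
        rw [ht2]
        exact ⟨fun h => ⟨h, ((ht1 s').1 hs').2⟩, fun h => h.1⟩
    · rintro ⟨p, hp, hpG⟩
      obtain ⟨t, h2, rfl⟩ := (hEnt k p).1 hp
      exact ⟨_, hpG, h2.2.2⟩

end Pool.Agent.Lib.Z2
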