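import Pool.Agent.Lib.Z2.Fo.SpecA

/-!
# C45, forcing part: homogeneity (MP_8dbd20_lc)
-/

namespace Pool.Agent.Lib.Z2

/-- (Hom) Homogeneity. -/
theorem tHom (h_Refl : S_Refl) (h_Trans : S_Trans) (h_Res : S_Res) (h_Amal : S_Amal)
    (h_PicM : S_PicM) (h_FrcFx : S_FrcFx) (h_Mono : S_Mono) (h_Dens : S_Dens) (h_HomK : S_HomK) :
    S_Hom := by
  intro S _ Gm hU T p hT hp φ e τ hτ hf
  have hTC : TC T := hT.2.2.1
  obtain ⟨hrc, hrT, hle, hht, hfs, hnd, hbt, hmono, hself⟩ := h_Res S Gm T p hTC hp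
  by_contra hcon
  -- some condition below `res T p` has no extension forcing `φ`
  have h1 : ∃ q, IsCond S q ∧ Le Gm q (res T p) ∧
      ∀ r, IsCond S r → Le Gm r q → ¬ Frc S Gm φ r e τ := by
    by_contra hno
    push Not at hno
    exact hcon (h_Dens S Gm φ (res T p) e τ hrc (fun q hq hqp => by
      obtain ⟨r, hr, hrq, hrf⟩ := hno q hq hqp
      exact ⟨r, hr, hrq, hrf⟩))
  obtain ⟨q, hq, hqle, hqn⟩ := h1
  have hneg : Frc S Gm (.neg φ) q e τ := hqn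
  obtain ⟨π, hA, hfix, hcom⟩ := h_HomK S Gm hU T p q hT hp hq
  have hP := (h_PicM S Gm π hA.nil hA.tl hA.inv).2
  obtain ⟨-, -, -, hnq, -, -, -, hcq, -, -, -, -⟩ := hP q
  obtain ⟨-, -, -, -, -, -, -, -, -, hleq, hfixr, -⟩ := hP (res T p)
  have hcq' := hcq hq
  have hneg' : Frc S Gm (.neg φ) (pic π q) e τ :=
    (h_FrcFx S Gm hU π hA T hfix (.neg φ) q e τ hq hτ).1 hneg
  have hle' : Le Gm (pic π q) (res T p) := by
    have := hleq q hqle
    rwa [hfixr T hfix hrT hrc] at this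
  have hcn : ∀ s ∈ nds (pic π q), s ∈ nds p → inn T s := by
    intro s hs hsp
    exact hcom s hsp ((hnq s).1 hs)
  obtain ⟨hj, hj1, hj2, -, -⟩ := h_Amal S Gm T p (pic π q) hTC hp hcq' hle' hcn
  exact hneg' _ hj hj1 (h_Mono S Gm φ p _ e τ hp hj hj2 hf)

end Pool.Agent.Lib.Z2
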