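import Pool.Agent.Lib.Z2.Fo.SpecA

/-! C45, forcing part: `S_HomK` (MP_8dbd20_lc) -/

namespace Pool.Agent.Lib.Z2

private theorem hk_bound {α : Type} (P : α → ℕ → Prop) (mono : ∀ a m n, m ≤ n → P a m → P a n) :
    ∀ L : List α, (∀ a ∈ L, ∃ m, P a m) → ∃ m, ∀ a ∈ L, P a m := by
  intro L
  induction L with
  | nil => intro _; exact ⟨0, fun a ha => absurd ha (by simp)⟩
  | cons b L ih =>
    intro h
    obtain ⟨m, hm⟩ := ih (fun a ha => h a (by simp [ha]))
    obtain ⟨n, hn⟩ := h b (by simp)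
    refine ⟨max m n, fun a ha => ?_⟩
    rcases List.mem_cons.1 ha with rfl | ha
    · exact mono _ _ _ (le_max_right _ _) hn
    · exact mono _ _ _ (le_max_left _ _) (hm a ha)

open Classical in
private noncomputable def hkκ (T : Set ℕ) (L : List Node) (m : ℕ) (s : Node) (a : ℕ) : ℕ :=
  if a :: s ∈ L ∧ ¬ inn T (a :: s) then Nat.pair m a
  else if a.unpair.1 = m ∧ a.unpair.2 :: s ∈ L ∧ ¬ inn T (a.unpair.2 :: s) then a.unpair.2 else a

theorem tHomK (h_Inn : S_Inn) (h_PikB : S_PikB) (h_PikA : S_PikA) : S_HomK := by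
  intro S _ Gm hU T p q hT hp hq
  have hI : IsI S T := hT
  obtain ⟨hTU, hroot, hTC, hcol, -⟩ := hT
  -- the bound
  obtain ⟨m₁, hm₁⟩ := hk_bound (fun (s : Node) m => ∀ a ∈ s, a.unpair.1 < m)
    (fun s m n hmn h a ha => lt_of_lt_of_le (h a ha) hmn) (nds p ++ nds q) (by
      intro s _
      obtain ⟨m, hm⟩ := hk_bound (fun (a : ℕ) m => a.unpair.1 < m)
        (fun a m n hmn h => lt_of_lt_of_le h hmn) s (fun a _ => ⟨a.unpair.1 + 1, by omega⟩)
      exact ⟨m, hm⟩)
  obtain ⟨m₂, hm₂⟩ := hk_bound (fun (s : Node) m => ∀ a, inn T (a :: s.tail) → a.unpair.1 < m)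
    (fun s m n hmn h a ha => lt_of_lt_of_le (h a ha) hmn) (nds q) (fun s _ => hcol s.tail)
  set m := max m₁ m₂ with hm
  have h1 : ∀ s ∈ nds p, ∀ a ∈ s, a.unpair.1 < m := fun s hs a ha =>
    lt_of_lt_of_le (hm₁ s (by simp [hs]) a ha) (le_max_left _ _)
  have h2 : ∀ s ∈ nds q, ∀ a ∈ s, a.unpair.1 < m := fun s hs a ha =>
    lt_of_lt_of_le (hm₁ s (by simp [hs]) a ha) (le_max_left _ _)
  have h3 : ∀ s b, b :: s ∈ nds q → ∀ a, inn T (a :: s) → a.unpair.1 < m := fun s b hs a ha =>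
    lt_of_lt_of_le (hm₂ (b :: s) hs a ha) (le_max_right _ _)
  clear_value m
  set κ := hkκ T (nds q) m with hκ
  have k1 : ∀ s a, a :: s ∈ nds q → ¬ inn T (a :: s) → κ s a = Nat.pair m a := by
    intro s a h h'
    simp [hκ, hkκ, h, h']
  have k2 : ∀ s b, b :: s ∈ nds q → ¬ inn T (b :: s) → κ s (Nat.pair m b) = b := by
    intro s b h h'
    have : ¬ (Nat.pair m b :: s ∈ nds q) := by
      intro hc
      have := h2 _ hc (Nat.pair m b) (by simp)
      simp at this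
    simp [hκ, hkκ, h, h', this]
  have k3 : ∀ s a, ¬ (a :: s ∈ nds q ∧ ¬ inn T (a :: s)) →
      ¬ (a.unpair.1 = m ∧ a.unpair.2 :: s ∈ nds q ∧ ¬ inn T (a.unpair.2 :: s)) → κ s a = a := by
    intro s a h h'
    simp only [hκ, hkκ, if_neg h, if_neg h']
  have hK : Kap T κ := by
    refine ⟨?_, ?_, ?_⟩
    · intro s a hs
      by_cases ha : a :: s ∈ nds q ∧ ¬ inn T (a :: s)
      · rw [k1 s a ha.1 ha.2, k2 s a ha.1 ha.2]
      · by_cases hb : a.unpair.1 = m ∧ a.unpair.2 :: s ∈ nds q ∧ ¬ inn T (a.unpair.2 :: s)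
        · have e : a = Nat.pair m a.unpair.2 := by
            conv_lhs => rw [← Nat.pair_unpair a]
            rw [hb.1]
          have e2 : κ s a = a.unpair.2 := by
            conv_lhs => rw [e]
            exact k2 s _ hb.2.1 hb.2.2
          rw [e2, k1 s _ hb.2.1 hb.2.2]
          exact e.symm
        · rw [k3 s a ha hb, k3 s a ha hb]
    · intro s a ha
      apply k3
      · exact fun h => h.2 ha
      · rintro ⟨e, h, -⟩
        have := h3 s _ h a ha
        omega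
    · intro s _
      refine ⟨m + 1, fun a ha => ?_⟩
      apply k3
      · rintro ⟨h, -⟩
        have := h2 _ h a (by simp)
        omega
      · rintro ⟨h, -⟩
        omega
  have hTP : T ∈ S.Pm := by rw [hU.pm]; exact hTU
  have hdf : DF S (fun x : Node × ℕ => κ x.1 x.2) := by
    have c1 : DF S (fun x : Node × ℕ => x.2 :: x.1) :=
      DF.prim₂ (F := fun (a : ℕ) (s : Node) => a :: s) Primrec.list_cons DF.id.snd DF.id.fst
    have c2 : DF S (fun x : Node × ℕ => x.2.unpair.2 :: x.1) :=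
      DF.prim₂ (F := fun (a : ℕ) (s : Node) => a :: s) Primrec.list_cons (DF.unp2 DF.id.snd) DF.id.fst
    have i1 := h_Inn S (Node × ℕ) (fun _ => T) (fun x => x.2 :: x.1) (DF.constR hTP) c1
    have i2 := h_Inn S (Node × ℕ) (fun _ => T) (fun x => x.2.unpair.2 :: x.1) (DF.constR hTP) c2
    have j1 : Dfn S (fun x : Node × ℕ => x.2 :: x.1 ∈ nds q) := Dfn.pmem c1 (DF.constN (nds q))
    have j2 : Dfn S (fun x : Node × ℕ => x.2.unpair.2 :: x.1 ∈ nds q) := Dfn.pmem c2 (DF.constN (nds q))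
    classical
    refine DF.congr (DF.ite (p := fun x : Node × ℕ => x.2 :: x.1 ∈ nds q ∧ ¬ inn T (x.2 :: x.1)) (j1.and i1.not)
      (DF.natPair (DF.constN m) DF.id.snd)
      (DF.ite (p := fun x : Node × ℕ => x.2.unpair.1 = m ∧ x.2.unpair.2 :: x.1 ∈ nds q ∧
      ¬ inn T (x.2.unpair.2 :: x.1)) ((Dfn.eq (DF.unp1 DF.id.snd) (DF.constN m)).and (j2.and i2.not))
      (DF.unp2 DF.id.snd) DF.id.snd)) ?_
    intro x _
    simp only [hκ, hkκ]
  have hA := h_PikA S Gm hU T κ hI hK hdf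
  obtain ⟨b1, b2, b3, b4, b5, b6⟩ := h_PikB T κ hroot hTC hK
  refine ⟨pik T κ, hA, b4, ?_⟩
  intro s hsp hsq
  by_contra hs
  obtain ⟨u, a, t, rfl, ht, hat, hπ⟩ := b6 s hs
  rw [hπ] at hsq
  have hsuf : ∀ (r : Cond), IsCond S r → ∀ (u : List ℕ) (v : Node), u ++ v ∈ nds r → v ∈ nds r := by
    intro r hr u v
    induction u with
    | nil => intro h; exact h
    | cons x u ih => intro h; exact ih (hr.1 _ h)
  have hb : κ t a :: t ∈ nds q := hsuf q hq u _ hsq
  have hbT : ¬ inn T (κ t a :: t) := by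
    intro hc
    have e1 := hK.2.1 t _ hc
    have e2 := hK.1 t a ht
    rw [e1] at e2
    rw [e2] at hc
    exact hat hc
  have e := k1 t (κ t a) hb hbT
  rw [hK.1 t a ht] at e
  have := h1 _ hsp a (by simp)
  rw [e] at this
  simp at this

end Pool.Agent.Lib.Z2
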