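import Pool.Agent.Lib.Z2.Fo.SpecA

/-!
# C45, forcing part, IFin: finite sets of nodes are contained in supports (MP_8dbd20_lc)
-/

namespace Pool.Agent.Lib.Z2

/-- (IFin) Finite sets of nodes are contained in supports. -/
theorem tIFin (h_Fin : S_Fin) : S_IFin := by
  intro S _ L
  obtain ⟨M, hM⟩ : ∃ M : List Node, ∀ s, s ∈ M ↔ s = [] ∨ ∃ t ∈ L, s <:+ t := by
    refine ⟨[] :: L.flatMap List.tails, fun s => ?_⟩
    rw [List.mem_cons, List.mem_flatMap]
    simp only [List.mem_tails]
  have hinn : ∀ s, inn {n | n ∈ M.map Encodable.encode} s ↔ s ∈ M := by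
    intro s
    unfold inn
    rw [Set.mem_ofPred_eq, List.mem_map]
    constructor
    · rintro ⟨t, ht, h⟩
      rwa [← Encodable.encode_injective h]
    · intro h
      exact ⟨s, h, rfl⟩
  refine ⟨{n | n ∈ M.map Encodable.encode}, ⟨(h_Fin S).2 _, ?_, ?_, ?_, ?_⟩, ?_, ?_⟩
  · rw [hinn, hM]
    exact Or.inl rfl
  · intro s hs
    rw [hinn, hM] at hs ⊢
    rcases hs with rfl | ⟨t, ht, hs⟩
    · exact Or.inl rfl
    · exact Or.inr ⟨t, ht, (List.tail_suffix s).trans hs⟩
  · intro s
    refine ⟨M.toFinset.sup (fun s => (s.headD 0).unpair.1) + 1, fun a ha => ?_⟩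
    rw [hinn] at ha
    have h := Finset.le_sup (f := fun s : Node => (s.headD 0).unpair.1) (List.mem_toFinset.2 ha)
    exact Nat.lt_succ_of_le h
  · intro B _ hBT hne
    by_contra hc
    push Not at hc
    have h1 : ∀ k : ℕ, ∃ s : Node, inn B s ∧ k ≤ s.length := by
      intro k
      induction k with
      | zero =>
        obtain ⟨s, hs⟩ := hne
        exact ⟨s, hs, Nat.zero_le _⟩
      | succ k ih =>
        obtain ⟨s, hs, hk⟩ := ih
        obtain ⟨a, ha⟩ := hc s hs
        exact ⟨a :: s, ha, by simpa using hk⟩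
    obtain ⟨s, hs, hk⟩ := h1 (M.toFinset.sup List.length + 1)
    have h2 := (hinn s).1 (hBT s hs)
    have h3 := Finset.le_sup (f := (List.length : Node → ℕ)) (List.mem_toFinset.2 h2)
    omega
  · intro s hs
    rw [hinn, hM]
    exact Or.inr ⟨s, hs, List.suffix_refl s⟩
  · intro s hs
    rw [hinn, hM] at hs
    exact hs

end Pool.Agent.Lib.Z2
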