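import Pool.Agent.Lib.Z2.Fo.SpecA

/-!
# C45, forcing part, IUn: the ideal is closed under finite unions (MP_8dbd20_lc)
-/

namespace Pool.Agent.Lib.Z2

private theorem IUn_union (S : Str) [Good S] {X Y : Set ℕ} (hX : X ∈ S.U) (hY : Y ∈ S.U) :
    X ∪ Y ∈ S.U := by
  have hp : Primrec (fun k : ℕ => if k.unpair.1 = 0 then some (2 * k.unpair.2)
      else some (2 * k.unpair.2 + 1)) :=
    Primrec.ite (Primrec.eq.comp prim_left (Primrec.const 0))
      (Primrec.option_some.comp (prim_dbl.comp prim_right))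
      (Primrec.option_some.comp (prim_dbl1.comp prim_right))
  have h1 := Good.ux _ (Good.prf_mem S hp (Good.uj X hX Y hY))
  have h2 : {n | ∃ m, Nat.pair m n ∈ prf (fun k : ℕ => if k.unpair.1 = 0 then
      some (2 * k.unpair.2) else some (2 * k.unpair.2 + 1)) (jn X Y)} = X ∪ Y := by
    ext n
    rw [Set.mem_ofPred_eq, Set.mem_union]
    constructor
    · rintro ⟨m, j, hj, hm⟩
      simp only [Nat.unpair_pair] at hj
      by_cases h0 : m = 0
      · simp only [h0, if_true, Option.some.injEq] at hj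
        rw [← hj, mem_jn_even] at hm
        exact Or.inl hm
      · simp only [h0, if_false, Option.some.injEq] at hj
        rw [← hj, mem_jn_odd] at hm
        exact Or.inr hm
    · rintro (h | h)
      · exact ⟨0, 2 * n, by simp, (mem_jn_even X Y n).2 h⟩
      · exact ⟨1, 2 * n + 1, by simp, (mem_jn_odd X Y n).2 h⟩
  rwa [h2] at h1

/-- (IUn) The ideal is closed under finite unions. -/
theorem tIUn : S_IUn := by
  intro S _ T T' hT hT'
  obtain ⟨h1, h2, h3, h4, h5⟩ := hT
  obtain ⟨h1', h2', h3', h4', h5'⟩ := hT'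
  refine ⟨IUn_union S h1 h1', Or.inl h2, ?_, ?_, ?_⟩
  · rintro s (h | h)
    · exact Or.inl (h3 s h)
    · exact Or.inr (h3' s h)
  · intro s
    obtain ⟨m, hm⟩ := h4 s
    obtain ⟨m', hm'⟩ := h4' s
    refine ⟨max m m', ?_⟩
    rintro a (h | h)
    · exact lt_of_lt_of_le (hm a h) (le_max_left _ _)
    · exact lt_of_lt_of_le (hm' a h) (le_max_right _ _)
  · intro B hB hBT hne
    by_contra hc
    push Not at hc
    -- every element of `B` has a child in `B`
    by_cases hBs : ∀ s, inn B s → inn T s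
    · obtain ⟨s, hs, hs'⟩ := h5 B hB hBs hne
      obtain ⟨a, ha⟩ := hc s hs
      exact hs' a ha
    · push Not at hBs
      obtain ⟨t, htB, htT⟩ := hBs
      have hB' : (Bᶜ ∪ T)ᶜ ∈ S.U := Good.uc _ (IUn_union S (Good.uc _ hB) h1)
      have hmem : ∀ s, inn (Bᶜ ∪ T)ᶜ s ↔ inn B s ∧ ¬ inn T s := by
        intro s
        unfold inn
        rw [Set.mem_compl_iff, Set.mem_union, Set.mem_compl_iff]
        tauto
      obtain ⟨s, hs, hs'⟩ := h5' _ hB' (fun s hs => by
        rw [hmem] at hs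
        rcases hBT s hs.1 with h | h
        · exact absurd h hs.2
        · exact h) ⟨t, (hmem t).2 ⟨htB, htT⟩⟩
      rw [hmem] at hs
      obtain ⟨a, ha⟩ := hc s hs.1
      refine hs' a ((hmem _).2 ⟨ha, fun h => hs.2 ?_⟩)
      exact h3 _ h

end Pool.Agent.Lib.Z2
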