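import Pool.Agent.Lib.Z2.Fo.SpecP

/-!
# C45, forcing part: `Ic` (MP_8dbd20_lc)
-/

set_option autoImplicit false

namespace Pool.Agent.Lib.Z2

theorem tIc : S_Ic := by
  intro S _ α _ p hp
  have h1 : DF S (fun a => nds (p a)) := hp.fst.fst
  have h2 : DF S (fun a => ht (p a)) := hp.fst.snd.fst
  have h3 : DF S (fun a => bts (p a)) := hp.fst.snd.snd
  have h4 : DF S (fun a => fs (p a)) := hp.snd
  refine ⟨h1, h2, h3, h4, ?_⟩
  refine Dfn.and ?_ (Dfn.and ?_ ?_)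
  · refine Dfn.allP (P := fun (a : α) (s : Node) => s.tail ∈ nds (p a)) h1 ?_
    exact Dfn.pmem (DF.prim Primrec.list_tail DF.id.snd) (h1.comp DF.id.fst)
  · refine Dfn.allP (P := fun (a : α) (x : Node × ℕ) => x.1 ∈ nds (p a) ∧ x.2 < ht (p a)) h3 ?_
    refine Dfn.and ?_ ?_
    · exact Dfn.pmem DF.id.snd.fst (h1.comp DF.id.fst)
    · exact Dfn.lt DF.id.snd.snd (h2.comp DF.id.fst)
  · refine Dfn.allL (P := fun (_ : α) (c : Set ℕ) => c ∈ S.C) h4 ?_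
    exact Dfn.isC DF.id.snd

end Pool.Agent.Lib.Z2
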