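import Pool.Agent.Lib.Z2.Fo.SpecP

/-!
# C45 Fo/Idl: definability of the ideal of supports and of names
-/

namespace Pool.Agent.Lib.Z2

private theorem Idl_IsI (h_Inn : S_Inn) (S : Str) [Good S] (α : Type) [Shp α] (T : α → Set ℕ)
    (hT : DF S T) : Dfn S (fun a => IsI S (T a)) := by
  have hin : ∀ (β : Type) [Shp β] (T : β → Set ℕ) (s : β → Node), DF S T → DF S s →
      Dfn S (fun a => inn (T a) (s a)) := fun β _ T s hT hs => h_Inn S β T s hT hs
  have hcons : ∀ (β : Type) [Shp β] (x : β → ℕ) (s : β → Node), DF S x → DF S s →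
      DF S (fun a => (x a :: s a : Node)) := fun β _ x s hx hs =>
    DF.prim₂ (F := fun (x : ℕ) (s : Node) => (x :: s : Node)) Primrec.list_cons hx hs
  have c1 : Dfn S (fun a => inn (T a) []) := hin α T (fun _ => []) hT (DF.constN ([] : Node))
  have c2 : Dfn S (fun a => ∀ s : Node, inn (T a) s → inn (T a) s.tail) := by
    refine Dfn.allN (P := fun (a : α) (s : Node) => inn (T a) s → inn (T a) s.tail) ?_
    refine Dfn.imp (hin _ _ _ (hT.comp Smp.id.fst.df) Smp.id.snd.df) ?_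
    exact hin _ (fun x : α × Node => T x.1) (fun x => x.2.tail) (hT.comp Smp.id.fst.df)
      (DF.prim (F := fun s : Node => s.tail) Primrec.list_tail Smp.id.snd.df)
  have c3 : Dfn S (fun a => ∀ s : Node, ∃ m : ℕ, ∀ b : ℕ, inn (T a) (b :: s) → b.unpair.1 < m) := by
    refine Dfn.allN (P := fun (a : α) (s : Node) => ∃ m : ℕ, ∀ b : ℕ, inn (T a) (b :: s) →
      b.unpair.1 < m) ?_
    refine Dfn.exN (P := fun (x : α × Node) (m : ℕ) => ∀ b : ℕ, inn (T x.1) (b :: x.2) →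
      b.unpair.1 < m) ?_
    refine Dfn.allN (P := fun (y : (α × Node) × ℕ) (b : ℕ) => inn (T y.1.1) (b :: y.1.2) →
      b.unpair.1 < y.2) ?_
    refine Dfn.imp ?_ (Dfn.lt (DF.unp1 Smp.id.snd.df) Smp.id.fst.snd.df)
    exact hin _ (fun z : ((α × Node) × ℕ) × ℕ => T z.1.1.1) (fun z => z.2 :: z.1.1.2)
      (hT.comp Smp.id.fst.fst.fst.df) (hcons _ _ _ Smp.id.snd.df Smp.id.fst.fst.snd.df)
  have c4 : Dfn S (fun a => ∀ B ∈ S.U, (∀ s : Node, inn B s → inn (T a) s) →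
      (∃ s : Node, inn B s) → ∃ s : Node, inn B s ∧ ∀ b : ℕ, ¬ inn B (b :: s)) := by
    refine Dfn.allR (P := fun (a : α) (B : Set ℕ) => (∀ s : Node, inn B s → inn (T a) s) →
      (∃ s : Node, inn B s) → ∃ s : Node, inn B s ∧ ∀ b : ℕ, ¬ inn B (b :: s)) ?_
    refine Dfn.imp ?_ (Dfn.imp ?_ ?_)
    · refine Dfn.allN (P := fun (x : α × Set ℕ) (s : Node) => inn x.2 s → inn (T x.1) s) ?_
      exact Dfn.imp (hin _ _ _ Smp.id.fst.snd.df Smp.id.snd.df)
        (hin _ _ _ (hT.comp Smp.id.fst.fst.df) Smp.id.snd.df)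
    · refine Dfn.exN (P := fun (x : α × Set ℕ) (s : Node) => inn x.2 s) ?_
      exact hin _ _ _ Smp.id.fst.snd.df Smp.id.snd.df
    · refine Dfn.exN (P := fun (x : α × Set ℕ) (s : Node) => inn x.2 s ∧
        ∀ b : ℕ, ¬ inn x.2 (b :: s)) ?_
      refine Dfn.and (hin _ _ _ Smp.id.fst.snd.df Smp.id.snd.df) ?_
      refine Dfn.allN (P := fun (y : (α × Set ℕ) × Node) (b : ℕ) => ¬ inn y.1.2 (b :: y.2)) ?_
      refine Dfn.not ?_
      exact hin _ (fun z : ((α × Set ℕ) × Node) × ℕ => z.1.1.2) (fun z => z.2 :: z.1.2)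
        Smp.id.fst.fst.snd.df (hcons _ _ _ Smp.id.snd.df Smp.id.fst.snd.df)
  refine (c1.and (c2.and (c3.and c4))).congr (fun a ha => ?_)
  constructor
  · intro h
    exact h.2
  · intro h
    exact ⟨hT.1 a ha, h⟩

theorem tIdl (h_Inn : S_Inn) (h_Sup : S_Sup) : S_Idl := by
  intro S _ α _ T hT
  refine ⟨Idl_IsI h_Inn S α T hT, ?_⟩
  have h1 : Dfn S (fun a => ∃ X ∈ S.U, IsI S X ∧ Sup S (T a) X) := by
    refine Dfn.exR (P := fun (a : α) (X : Set ℕ) => IsI S X ∧ Sup S (T a) X) ?_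
    refine Dfn.and (Idl_IsI h_Inn S _ _ Smp.id.snd.df) ?_
    exact (h_Sup S (α × Set ℕ) (fun x => T x.1) (fun x => x.2) (fun _ => triv)
      (hT.comp Smp.id.fst.df) Smp.id.snd.df
      (DF.pair (DF.constN (S := S) (([], 0, []) : Ty)) DF.nil)).2
  refine h1.congr (fun a ha => ?_)
  constructor
  · rintro ⟨-, X, hX, hS⟩
    exact ⟨X, hX.1, hX, hS⟩
  · rintro ⟨X, -, hX, hS⟩
    exact ⟨hT.1 a ha, X, hX, hS⟩

end Pool.Agent.Lib.Z2
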