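import Pool.Agent.Lib.Z2.Fo.SpecP

/-!
# C45, forcing part: `Inn` (MP_8dbd20_lc)
-/

set_option autoImplicit false

namespace Pool.Agent.Lib.Z2

theorem tInn : S_Inn := by
  intro S _ α _ T s hT hs
  exact Dfn.mem (DF.enc hs) hT

end Pool.Agent.Lib.Z2
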