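import Pool.Agent.Lib.Z2.Fo.SpecP

/-!
# C45, forcing part: `Le` (MP_8dbd20_lc)
-/

set_option autoImplicit false

namespace Pool.Agent.Lib.Z2

theorem tLe (h_Sg : S_Sg) (h_Ub : S_Ub) (h_Ic : S_Ic) : S_Le := by
  intro S _ Gm α _ q p hG hq hp
  obtain ⟨p1, p2, p3, p4, -⟩ := h_Ic S α p hp
  obtain ⟨q1, q2, q3, q4, -⟩ := h_Ic S α q hq
  refine Dfn.and ?_ (Dfn.and ?_ (Dfn.and ?_ (Dfn.and ?_ ?_)))
  · refine Dfn.allP (P := fun (a : α) (s : Node) => s ∈ nds (q a)) p1 ?_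
    exact Dfn.pmem DF.id.snd (q1.comp DF.id.fst)
  · exact Dfn.le p2 q2
  · refine Dfn.allP (P := fun (a : α) (s : Node) => ∀ k, k < ht (p a) →
      ((s, k) ∈ bts (q a) ↔ (s, k) ∈ bts (p a))) p1 ?_
    refine Dfn.allN (P := fun (x : α × Node) (k : ℕ) => k < ht (p x.1) →
      ((x.2, k) ∈ bts (q x.1) ↔ (x.2, k) ∈ bts (p x.1))) ?_
    refine Dfn.imp (Dfn.lt DF.id.snd (p2.comp DF.id.fst.fst)) (Dfn.iff ?_ ?_)
    · exact Dfn.pmem (DF.pair DF.id.fst.snd DF.id.snd) (q3.comp DF.id.fst.fst)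
    · exact Dfn.pmem (DF.pair DF.id.fst.snd DF.id.snd) (p3.comp DF.id.fst.fst)
  · refine Dfn.allL (P := fun (a : α) (c : Set ℕ) => c ∈ fs (q a)) p4 ?_
    exact Dfn.lmem DF.id.snd (q4.comp DF.id.fst)
  · refine Dfn.allP (P := fun (a : α) (s : Node) => ∀ k, (s, k) ∈ bts (q a) → ht (p a) ≤ k →
      ∀ c ∈ fs (p a), sg k (ub (q a) s) (ubp (q a) s) ∉ Gm c) p1 ?_
    refine Dfn.allN (P := fun (x : α × Node) (k : ℕ) => (x.2, k) ∈ bts (q x.1) → ht (p x.1) ≤ k →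
      ∀ c ∈ fs (p x.1), sg k (ub (q x.1) x.2) (ubp (q x.1) x.2) ∉ Gm c) ?_
    refine Dfn.imp ?_ (Dfn.imp (Dfn.le (p2.comp DF.id.fst.fst) DF.id.snd) ?_)
    · exact Dfn.pmem (DF.pair DF.id.fst.snd DF.id.snd) (q3.comp DF.id.fst.fst)
    · refine Dfn.allL (P := fun (x : (α × Node) × ℕ) (c : Set ℕ) =>
        sg x.2 (ub (q x.1.1) x.1.2) (ubp (q x.1.1) x.1.2) ∉ Gm c) (p4.comp DF.id.fst.fst) ?_
      have hu := h_Ub S (((α × Node) × ℕ) × Set ℕ) (fun x => q x.1.1.1) (fun x => x.1.1.2)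
        (hq.comp DF.id.fst.fst.fst) DF.id.fst.fst.snd
      have hs := h_Sg S (((α × Node) × ℕ) × Set ℕ) (fun x => x.1.2)
        (fun x => ub (q x.1.1.1) x.1.1.2) (fun x => ubp (q x.1.1.1) x.1.1.2)
        DF.id.fst.snd hu.1 hu.2
      exact Dfn.not (Dfn.mem hs (hG.comp DF.id.snd))

end Pool.Agent.Lib.Z2
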