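import Pool.Agent.Lib.Z2.Fo.SpecP

/-!
# C45, forcing part: module Map (MP_8dbd20_lc)
-/

namespace Pool.Agent.Lib.Z2

theorem tMap : S_Map := by
  intro S _ α T T' _ _ _ _ _ _ _ f g hf hg
  refine ⟨fun a ha => PShp.vl_all _ _, ?_⟩
  have h : Dfn S (fun x : α × List T' => x.2.length = (g x.1).length ∧
      ∀ i : ℕ, ∀ t : T, ∀ t' : T', (g x.1)[i]? = some t → x.2[i]? = some t' → f x.1 t = t') := by
    refine Dfn.and (Dfn.eq (DF.prim Primrec.list_length Smp.id.snd.df)
      (DF.prim Primrec.list_length (hg.comp Smp.id.fst.df))) ?_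
    refine Dfn.allN (P := fun (x : α × List T') (i : ℕ) => ∀ t : T, ∀ t' : T',
      (g x.1)[i]? = some t → x.2[i]? = some t' → f x.1 t = t') ?_
    refine Dfn.allN (P := fun (x : (α × List T') × ℕ) (t : T) => ∀ t' : T',
      (g x.1.1)[x.2]? = some t → x.1.2[x.2]? = some t' → f x.1.1 t = t') ?_
    refine Dfn.allN (P := fun (x : ((α × List T') × ℕ) × T) (t' : T') =>
      (g x.1.1.1)[x.1.2]? = some x.2 → x.1.1.2[x.1.2]? = some t' → f x.1.1.1 x.2 = t') ?_
    have ha : DF S (fun x : (((α × List T') × ℕ) × T) × T' => x.1.1.1.1) :=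
      (Smp.id.fst.fst.fst.fst).df
    have hy : DF S (fun x : (((α × List T') × ℕ) × T) × T' => x.1.1.1.2) :=
      (Smp.id.fst.fst.fst.snd).df
    have hi : DF S (fun x : (((α × List T') × ℕ) × T) × T' => x.1.1.2) :=
      (Smp.id.fst.fst.snd).df
    have ht : DF S (fun x : (((α × List T') × ℕ) × T) × T' => x.1.2) :=
      (Smp.id.fst.snd).df
    have ht' : DF S (fun x : (((α × List T') × ℕ) × T) × T' => x.2) :=
      (Smp.id.snd).df
    refine Dfn.imp (Dfn.eq ?_ ?_) (Dfn.imp (Dfn.eq ?_ ?_) (Dfn.eq ?_ ht'))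
    · exact DF.prim₂ (F := fun (l : List T) (i : ℕ) => l[i]?) Primrec.list_getElem?
        (hg.comp ha) hi
    · exact DF.prim Primrec.option_some ht
    · exact DF.prim₂ (F := fun (l : List T') (i : ℕ) => l[i]?) Primrec.list_getElem? hy hi
    · exact DF.prim Primrec.option_some ht'
    · exact DF.comp₂ (F := fun (a : α) (t : T) => f a t) hf ha ht
  refine h.congr (fun x _ => ?_)
  obtain ⟨a, y⟩ := x
  change (g a).map (f a) = y ↔ y.length = (g a).length ∧ ∀ i : ℕ, ∀ t : T, ∀ t' : T',
    (g a)[i]? = some t → y[i]? = some t' → f a t = t'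
  constructor
  · rintro rfl
    refine ⟨List.length_map _, ?_⟩
    intro i t t' h1 h2
    rw [List.getElem?_map, h1, Option.map_some, Option.some.injEq] at h2
    exact h2
  · rintro ⟨h1, h2⟩
    apply List.ext_getElem
    · rw [List.length_map, h1]
    · intro i h3 h4
      rw [List.getElem_map]
      have h5 : i < (g a).length := by rwa [List.length_map] at h3
      exact h2 i _ _ (List.getElem?_eq_getElem h5) (List.getElem?_eq_getElem h4)

end Pool.Agent.Lib.Z2
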