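import Pool.Agent.Lib.Z2.Fo.SpecA

/-!
# C45, forcing part: monotonicity of forcing (MP_8dbd20_lc)
-/

namespace Pool.Agent.Lib.Z2

/-- (Mono) Forcing is monotone. -/
theorem tMono (h_Trans : S_Trans) : S_Mono := by
  intro S Gm φ
  induction φ with
  | eq s t => intro p q e τ _ _ _ h; exact h
  | lt s t => intro p q e τ _ _ _ h; exact h
  | mem t i =>
    intro p q e τ hp hq hle h r hr hrq
    exact h r hr (h_Trans S Gm p q r hp hq hr hrq hle)
  | neg φ ih =>
    intro p q e τ hp hq hle h r hr hrq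
    exact h r hr (h_Trans S Gm p q r hp hq hr hrq hle)
  | and φ ψ ih1 ih2 =>
    intro p q e τ hp hq hle h
    exact ⟨ih1 p q e τ hp hq hle h.1, ih2 p q e τ hp hq hle h.2⟩
  | allN φ ih =>
    intro p q e τ hp hq hle h n
    exact ih p q (ex n e) τ hp hq hle (h n)
  | allS φ ih =>
    intro p q e τ hp hq hle h σ hσ
    exact ih p q e (ex σ τ) hp hq hle (h σ hσ)

end Pool.Agent.Lib.Z2
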