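import Pool.Agent.Lib.Z2.Fo.SpecC

/-! C45, forcing part: `S_NTs` (MP_8dbd20_lc) -/

namespace Pool.Agent.Lib.Z2

theorem tNTs (h_Comp : S_Comp) (h_PairF : S_PairF) : S_NTs := by
  intro S _ Gm hU G hG T hI
  refine ⟨?_, ?_⟩
  · intro X hX n
    obtain ⟨φ, hφ⟩ := h_PairF 1 0 0
    have h := h_Comp S Gm hU G hG T hI φ (fun _ => n) (fun _ => X) (fun _ => hX)
    have e : {m | φ.Sat (NN S G) (ex m (fun _ => n)) (fun _ => X)} = sec X n := by
      ext m
      simp only [Set.mem_ofPred_eq]
      rw [hφ]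
      rfl
    rw [e] at h
    exact h
  · intro X hX Y hY
    let φ : Fm := .neg (.and
      (.allN (.neg (.and (.eq (.var 1) (.add (.var 0) (.var 0))) (.mem (.var 0) 0))))
      (.allN (.neg (.and (.eq (.var 1) (.add (.add (.var 0) (.var 0)) .one)) (.mem (.var 0) 1)))))
    have h := h_Comp S Gm hU G hG T hI φ (fun _ => 0) (ex X (fun _ => Y)) (by
      intro i
      rcases i with _ | i
      · exact hX
      · exact hY)
    have e : {m | φ.Sat (NN S G) (ex m (fun _ => 0)) (ex X (fun _ => Y))} = jn X Y := by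
      apply jn_ext
      · intro k
        show (¬ ((∀ y : ℕ, ¬ (2 * k = y + y ∧ y ∈ X)) ∧ (∀ y : ℕ, ¬ (2 * k = y + y + 1 ∧ y ∈ Y)))) ↔ k ∈ X
        constructor
        · intro hc
          by_contra hk
          refine hc ⟨fun y hy => hk ?_, fun y hy => by omega⟩
          have : y = k := by omega
          rw [← this]; exact hy.2
        · intro hk hc
          exact hc.1 k ⟨by omega, hk⟩
      · intro k
        show (¬ ((∀ y : ℕ, ¬ (2 * k + 1 = y + y ∧ y ∈ X)) ∧ (∀ y : ℕ, ¬ (2 * k + 1 = y + y + 1 ∧ y ∈ Y)))) ↔ k ∈ Y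
        constructor
        · intro hc
          by_contra hk
          refine hc ⟨fun y hy => by omega, fun y hy => hk ?_⟩
          have : y = k := by omega
          rw [← this]; exact hy.2
        · intro hk hc
          exact hc.2 k ⟨by omega, hk⟩
    rw [e] at h
    exact h

end Pool.Agent.Lib.Z2
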