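import Pool.Agent.Lib.Z2.Fo.SpecA

/-!
# C45, forcing part, NmA: names are mapped to names (MP_8dbd20_lc)
-/

namespace Pool.Agent.Lib.Z2

/-- (Nmπ) Names are mapped to names. -/
theorem tNmA (h_PinE : S_PinE) (h_PinU : S_PinU) : S_NmA := by
  intro S _ Gm hU π hA
  have h1 : DF S (fun x : Set ℕ × Node => π x.2) := hA.df.comp Smp.id.snd.df
  have h2 : DF S (fun σ : Set ℕ => pin π σ) :=
    (h_PinU S Gm hU (Set ℕ) (fun _ => π) h1).2.1 (fun σ => σ) DF.id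
  have h3 : ∀ σ ∈ S.U, pin π σ ∈ S.U := fun σ hσ => h2.1 σ hσ
  refine ⟨h3, ?_⟩
  rintro σ ⟨hσ, T, hT, hs⟩
  exact ⟨h3 σ hσ, imT π T, hA.idl T hT, (h_PinE S π hA.nil hA.tl hA.inv).2.1 σ T hs⟩

end Pool.Agent.Lib.Z2
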