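import Pool.Agent.Lib.Z2.Fo.SpecA

/-!
# C45, forcing part, Nms: bookkeeping for the names (MP_8dbd20_lc)
-/

namespace Pool.Agent.Lib.Z2

/-- (Nms) Bookkeeping. -/
theorem tNms (h_IUn : S_IUn) (h_IFin : S_IFin) (h_SupM : S_SupM) (h_Chk : S_Chk) : S_Nms := by
  intro S _ Gm hU G hG
  have h4 : ∀ T T', (∀ s, inn T s → inn T' s) → ∀ X ∈ NT S G T, X ∈ NT S G T' := by
    rintro T T' h X ⟨σ, hσ, hs, hX⟩
    exact ⟨σ, hσ, h_SupM S σ T T' hs h, hX⟩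
  have h2 : ∀ X ∈ NN S G, ∃ T, IsI S T ∧ X ∈ NT S G T := by
    rintro X ⟨σ, ⟨hσ, T, hT, hs⟩, hX⟩
    exact ⟨T, hT, σ, hσ, hs, hX⟩
  refine ⟨?_, h2, ?_, h4, ?_⟩
  · rintro T hT X ⟨σ, hσ, hs, hX⟩
    exact ⟨σ, ⟨hσ, T, hT, hs⟩, hX⟩
  · intro T X hX
    obtain ⟨chk, hd, hs, -, he⟩ := h_Chk S Gm hU
    exact ⟨chk X, hd.1 X hX, hs X T, (he G hG X).symm⟩
  · intro k E hE
    induction k with
    | zero =>
      obtain ⟨T, hT, -, -⟩ := h_IFin S []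
      exact ⟨T, hT, fun i hi => absurd hi (Nat.not_lt_zero i)⟩
    | succ k ih =>
      obtain ⟨T, hT, hT2⟩ := ih
      obtain ⟨T', hT', hT2'⟩ := h2 (E k) (hE k)
      refine ⟨T ∪ T', h_IUn S T T' hT hT', fun i hi => ?_⟩
      rcases Nat.lt_succ_iff_lt_or_eq.1 hi with h | rfl
      · exact h4 T (T ∪ T') (fun s hs => Or.inl hs) _ (hT2 i h)
      · exact h4 T' (T ∪ T') (fun s hs => Or.inr hs) _ hT2'

end Pool.Agent.Lib.Z2
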