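import Pool.Agent.Lib.Z2.Fo.SpecC

/-! C45, forcing part: `S_NoL` (MP_8dbd20_lc) -/

namespace Pool.Agent.Lib.Z2

/-- The names used in the formula `Θ`. -/
private def nolTau (chk : Set ℕ → Set ℕ) (ρ c : Set ℕ) : ℕ → Set ℕ := ex ρ (ex (chk c) (fun _ => chk ∅))

private theorem nol_theta (h_PairF : S_PairF) : ∃ Θ : Fm, ∀ (M : Set (Set ℕ)) (a : ℕ) (E : ℕ → Set ℕ),
    Θ.Sat M (fun _ => a) E ↔ sec (E 0) a = E 1 := by
  obtain ⟨φ, hφ⟩ := h_PairF 1 0 0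
  refine ⟨.allN (.and (.neg (.and φ (.neg (.mem (.var 0) 1)))) (.neg (.and (.mem (.var 0) 1) (.neg φ)))), ?_⟩
  intro M a E
  simp only [Fm.Sat, hφ, Tm.val, ex]
  constructor
  · intro h
    ext n
    obtain ⟨h1, h2⟩ := h n
    constructor
    · intro hn; by_contra hc; exact h1 ⟨hn, hc⟩
    · intro hn; by_contra hc; exact h2 ⟨hn, hc⟩
  · intro h n
    have h1 : Nat.pair a n ∈ E 0 ↔ n ∈ E 1 := by rw [← h]; rfl
    tauto

theorem tNoL (h_Same : S_Same) (h_Res : S_Res) (h_Ic : S_Ic) (h_Cdc : S_Cdc) (h_Sup : S_Sup)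
    (h_FrcD : S_FrcD) (h_Hom : S_Hom) (h_GenEx : S_GenEx) (h_Truth : S_Truth) (h_Chk : S_Chk)
    (h_PairF : S_PairF) : S_NoL := by
  intro S _ Gm hU G hG X hX
  obtain ⟨ρ, ⟨hρU, T, hT, hρT⟩, rfl⟩ := hX
  obtain ⟨Θ, hΘ⟩ := nol_theta h_PairF
  obtain ⟨chk, hchkD, hchkS, -, hchkE⟩ := h_Chk S Gm hU
  have hTC : TC T := hT.2.2.1
  have hTU : T ∈ S.U := hT.1
  have hSup : ∀ c i, Sup S (nolTau chk ρ c i) T := by
    intro c i
    rcases i with _ | _ | i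
    · exact hρT
    · exact hchkS _ _
    · exact hchkS _ _
  have hNm : ∀ c ∈ S.U, ∀ i, Nm S (nolTau chk ρ c i) := by
    intro c hc i
    refine ⟨?_, T, hT, hSup c i⟩
    rcases i with _ | _ | i
    · exact hρU
    · exact hchkD.1 c hc
    · exact hchkD.1 ∅ (Good.ue S)
  -- the predicate
  set P : ℕ → Set ℕ → Prop := fun j c => ∃ p : Cond, IsCond S p ∧ InT T p ∧
    Encodable.encode p.1 = j.unpair.1 ∧ Frc S Gm Θ p (fun _ => j.unpair.2) (nolTau chk ρ c) with hP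
  obtain ⟨-, -, hCdc⟩ := h_Cdc
  have hval : ∀ p : Cond, IsCond S p → vl S.U p := (hCdc S).2.1
  have hPm : S.Pm = S.U := hU.pm
  have hD : Dfn S (fun x : ℕ × Set ℕ => P x.1 x.2) := by
    have h1 : Dfn S (fun x : ℕ × Set ℕ => ∃ p : Cond, vl S.U p ∧ (IsCond S p ∧ InT T p ∧
        Encodable.encode p.1 = x.1.unpair.1 ∧ Frc S Gm Θ p (fun _ => x.1.unpair.2) (nolTau chk ρ x.2))) := by
      refine Dfn.exV (P := fun (x : ℕ × Set ℕ) (p : Cond) => IsCond S p ∧ InT T p ∧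
        Encodable.encode p.1 = x.1.unpair.1 ∧ Frc S Gm Θ p (fun _ => x.1.unpair.2) (nolTau chk ρ x.2)) ?_
      refine ((h_Ic S ((ℕ × Set ℕ) × Cond) (fun y => y.2) DF.id.snd).2.2.2.2).and (Dfn.and ?_ (Dfn.and ?_ ?_))
      · exact (h_Sup S ((ℕ × Set ℕ) × Cond) (fun _ => T) (fun _ => T) (fun y => y.2)
          (DF.constR (hPm ▸ hTU)) (DF.constR (hPm ▸ hTU)) DF.id.snd).1
      · exact Dfn.eq (DF.enc (T := Ty) DF.id.snd.fst) (DF.unp1 DF.id.fst.fst)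
      · refine h_FrcD S Gm hU.gm Θ ((ℕ × Set ℕ) × Cond) (fun y => y.2) (fun y _ => y.1.1.unpair.2)
          (fun y => nolTau chk ρ y.1.2) DF.id.snd (fun _ => DF.unp2 DF.id.fst.fst) ?_
        intro i
        rcases i with _ | _ | i
        · exact DF.constR (hPm ▸ hρU)
        · exact hchkD.comp DF.id.fst.snd
        · exact DF.constR (hPm ▸ hchkD.1 ∅ (Good.ue S))
    refine h1.congr (fun x _ => ?_)
    constructor
    · rintro ⟨p, hp, h⟩; exact ⟨p, hval p hp, hp, h⟩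
    · rintro ⟨p, _, h⟩; exact ⟨p, h⟩
  have key : ∀ G', Gen S Gm G' → ∀ c ∈ S.U, ∀ (p : Cond) (a : ℕ), G' p →
      Frc S Gm Θ p (fun _ => a) (nolTau chk ρ c) → sec (evl S G' ρ) a = c := by
    intro G' hG' c hc p a hp hF
    have h1 := (h_Truth S Gm hU G' hG' Θ (fun _ => a) (nolTau chk ρ c) (hNm c hc)).2 ⟨p, hp, hF⟩
    have h2 := (hΘ _ _ _).1 h1
    have h3 : evl S G' (nolTau chk ρ c 1) = c := hchkE G' hG' c
    rw [h3] at h2
    exact h2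
  have hfun : ∀ n, ∀ X ∈ S.C, ∀ Y ∈ S.C, P n X → P n Y → X = Y := by
    rintro j c hc c' hc' ⟨p, hp, hpT, hpe, hpF⟩ ⟨p', hp', hpT', hpe', hpF'⟩
    have e1 : p.1 = p'.1 := Encodable.encode_injective (hpe.trans hpe'.symm)
    have hh : ht p = ht p' := by simp only [ht, e1]
    have hb : bts p = bts p' := by simp only [bts, e1]
    obtain ⟨hr, hrp, hrp'⟩ := h_Same S Gm p p' hp hp' hh (fun s _ _ k => by rw [hb])
    obtain ⟨G', hG', hrG⟩ := h_GenEx S Gm hU _ hr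
    have i1 := key G' hG' c (Good.cu _ hc) p _ (hG'.up _ _ hrG hp hrp) hpF
    have i2 := key G' hG' c' (Good.cu _ hc') p' _ (hG'.up _ _ hrG hp' hrp') hpF'
    rw [← i1, ← i2]
  obtain ⟨c, hc, hcP⟩ := hU.noSurj P hD hfun
  refine ⟨c, hc, fun a ha => ?_⟩
  have hcU : c ∈ S.U := Good.cu _ hc
  have h1 : Θ.Sat (NN S G) (fun _ => a) (fun i => evl S G (nolTau chk ρ c i)) := by
    rw [hΘ]
    have h3 : evl S G (nolTau chk ρ c 1) = c := hchkE G hG c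
    rw [h3]
    exact ha
  obtain ⟨p, hp, hF⟩ := (h_Truth S Gm hU G hG Θ (fun _ => a) (nolTau chk ρ c) (hNm c hcU)).1 h1
  have hpc : IsCond S p := hG.cond p hp
  have hF' := h_Hom S Gm hU T p hT hpc Θ (fun _ => a) (nolTau chk ρ c) (hSup c) hF
  obtain ⟨hrc, hrT, -⟩ := h_Res S Gm T p hTC hpc
  refine hcP (Nat.pair (Encodable.encode (res T p).1) a) ⟨res T p, hrc, hrT, ?_, ?_⟩
  · simp
  · simpa using hF'

end Pool.Agent.Lib.Z2
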