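import Pool.Agent.Lib.Z2.Fo.SpecC

/-! C45, forcing part: `S_PairF` (MP_8dbd20_lc) -/

namespace Pool.Agent.Lib.Z2

theorem tPairF : S_PairF := by
  intro i j k
  refine ⟨.neg (.and (.neg (.and (.lt (.var i) (.var j)) (.mem (.add (.mul (.var j) (.var j)) (.var i)) k)))
    (.neg (.and (.neg (.lt (.var i) (.var j))) (.mem (.add (.add (.mul (.var i) (.var i)) (.var i)) (.var j)) k)))),
    fun M e E => ?_⟩
  simp only [Fm.Sat, Tm.val]
  unfold Nat.pair
  split_ifs with h
  · simp [h]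
  · simp [h]

end Pool.Agent.Lib.Z2
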