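import Pool.Agent.Lib.Z2.Fo.SpecA

/-!
# C45 Fo/PicM: the action of tree automorphisms on conditions (helper7)
-/

set_option autoImplicit false

namespace Pool.Agent.Lib.Z2

open Classical in
theorem PicM : S_PicM := by
  intro S Gm π h0 ht' hinv
  have himT : ∀ T s, inn (imT π T) s ↔ inn T (π s) := by
    intro T s
    constructor
    · rintro ⟨s', hs', h⟩
      rw [← Encodable.encode_injective hs']
      exact h
    · intro h
      exact ⟨s, rfl, h⟩
  refine ⟨himT, fun p => ?_⟩
  have hnds : ∀ (p : Cond) s, s ∈ nds (pic π p) ↔ π s ∈ nds p := by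
    intro p s
    show s ∈ (nds p).map π ↔ _
    rw [List.mem_map]
    constructor
    · rintro ⟨a, ha, rfl⟩
      rw [hinv]; exact ha
    · intro h
      exact ⟨π s, h, hinv s⟩
  have hbts : ∀ (p : Cond) s k, (s, k) ∈ bts (pic π p) ↔ (π s, k) ∈ bts p := by
    intro p s k
    show (s, k) ∈ (bts p).map (fun x => (π x.1, x.2)) ↔ _
    rw [List.mem_map]
    constructor
    · rintro ⟨⟨a, j⟩, ha, h⟩
      obtain ⟨rfl, rfl⟩ := Prod.mk.inj h
      rw [hinv]; exact ha
    · intro h
      exact ⟨(π s, k), h, by simp only [hinv]⟩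
  have hub : ∀ (p : Cond) s, ub (pic π p) s = ub p (π s) := by
    intro p s
    ext k
    exact hbts p s k
  have hne : ∀ s, s ≠ [] ↔ π s ≠ [] := by
    intro s
    constructor
    · intro h h'
      apply h
      rw [← hinv s, h', h0]
    · rintro h rfl
      exact h h0
  have hubp : ∀ (p : Cond) s, ubp (pic π p) s = ubp p (π s) := by
    intro p s
    ext k
    show (s ≠ [] ∧ (s.tail, k) ∈ bts (pic π p)) ↔ (π s ≠ [] ∧ ((π s).tail, k) ∈ bts p)
    rw [hbts, ht', ← hne]
  have hcond : ∀ (p : Cond), IsCond S p → IsCond S (pic π p) := by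
    rintro p ⟨h1, h2, h3⟩
    refine ⟨?_, ?_, h3⟩
    · intro s hs
      rw [hnds] at hs ⊢
      rw [← ht']
      exact h1 _ hs
    · rintro ⟨s, k⟩ hx
      rw [hbts] at hx
      obtain ⟨h4, h5⟩ := h2 _ hx
      exact ⟨(hnds p s).2 h4, h5⟩
  have hpp : pic π (pic π p) = p := by
    obtain ⟨⟨n, h, b⟩, f⟩ := p
    have e1 : (n.map π).map π = n := by
      rw [List.map_map]
      have : π ∘ π = id := funext hinv
      rw [this, List.map_id]
    have e2 : (b.map (fun x => (π x.1, x.2))).map (fun x => (π x.1, x.2)) = b := by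
      rw [List.map_map]
      have : (fun x : Node × ℕ => (π x.1, x.2)) ∘ (fun x : Node × ℕ => (π x.1, x.2)) = id := by
        funext x
        obtain ⟨x1, x2⟩ := x
        simp only [Function.comp_apply, hinv, id]
      rw [this, List.map_id]
    show (((n.map π).map π, h, (b.map (fun x => (π x.1, x.2))).map (fun x => (π x.1, x.2))), f) = _
    rw [e1, e2]
  refine ⟨hpp, rfl, rfl, hnds p, hbts p, hub p, hubp p, hcond p, ?_, ?_, ?_, ?_⟩
  · intro T hT s hs
    rw [himT]
    exact hT _ ((hnds p s).1 hs)
  · rintro q ⟨h1, h2, h3, h4, h5⟩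
    refine ⟨?_, h2, ?_, h4, ?_⟩
    · intro s hs
      rw [hnds] at hs ⊢
      exact h1 _ hs
    · intro s hs k hk
      rw [hnds] at hs
      rw [hbts, hbts]
      exact h3 _ hs k hk
    · intro s hs k hk hk2 c hc
      rw [hnds] at hs
      rw [hbts] at hk
      rw [hub, hubp]
      exact h5 _ hs k hk hk2 c hc
  · intro T hfix hT hc
    obtain ⟨⟨n, h, b⟩, f⟩ := p
    have hT' : ∀ s ∈ n, inn T s := hT
    have hb' : ∀ x ∈ b, x.1 ∈ n := fun x hx => (hc.2.1 x hx).1
    have e1 : n.map π = n := by
      conv_rhs => rw [← List.map_id n]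
      exact List.map_congr_left (fun s hs => hfix s (hT' s hs))
    have e2 : b.map (fun x => (π x.1, x.2)) = b := by
      conv_rhs => rw [← List.map_id b]
      refine List.map_congr_left (fun x hx => ?_)
      rw [hfix x.1 (hT' x.1 (hb' x hx))]
      rfl
    show (((n.map π), h, (b.map (fun x => (π x.1, x.2)))), f) = _
    rw [e1, e2]
  · intro T hTC hfix
    have hTi : ∀ s, inn T (π s) ↔ inn T s := by
      intro s
      constructor
      · intro h
        have := hfix _ h
        rw [hinv] at this
        rw [this]; exact h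
      · intro h
        rw [hfix s h]; exact h
    obtain ⟨⟨n, h, b⟩, f⟩ := p
    have e1 : (n.map π).filter (fun s => inn T s) = n.filter (fun s => inn T s) := by
      rw [List.filter_map]
      have : ((fun s => decide (inn T s)) ∘ π) = fun s => decide (inn T s) := by
        funext s
        simp only [Function.comp_apply, hTi]
      rw [this]
      conv_rhs => rw [← List.map_id (n.filter (fun s => inn T s))]
      refine List.map_congr_left (fun s hs => ?_)
      have := (List.mem_filter.1 hs).2
      exact hfix s (by simpa using this)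
    have e2 : (b.map (fun x => (π x.1, x.2))).filter (fun x => inn T x.1) = b.filter (fun x => inn T x.1) := by
      rw [List.filter_map]
      have : ((fun x : Node × ℕ => decide (inn T x.1)) ∘ (fun x : Node × ℕ => (π x.1, x.2))) =
          fun x => decide (inn T x.1) := by
        funext s
        simp only [Function.comp_apply, hTi]
      rw [this]
      conv_rhs => rw [← List.map_id (b.filter (fun x => inn T x.1))]
      refine List.map_congr_left (fun x hx => ?_)
      have h1 := (List.mem_filter.1 hx).2
      have h2 := hfix x.1 (by simpa using h1)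
      rw [h2]
      rfl
    show (((n.map π).filter (fun s => inn T s), h, (b.map (fun x => (π x.1, x.2))).filter (fun x => inn T x.1)), f) = _
    rw [e1, e2]
    rfl

end Pool.Agent.Lib.Z2
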