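import Pool.Agent.Lib.Z2.Fo.SpecA

/-! C45, forcing part: `S_PikA` (MP_8dbd20_lc) -/

namespace Pool.Agent.Lib.Z2

private theorem pikA_im (π : Node → Node) (T : Set ℕ) (s : Node) :
    inn (imT π T) s ↔ inn T (π s) := by
  constructor
  · rintro ⟨t, h1, h2⟩
    rw [← Encodable.encode_injective h1]
    exact h2
  · intro h
    exact ⟨s, rfl, h⟩

theorem tPikA (h_Gcomp : S_Gcomp) (h_PinU : S_PinU) (h_PikB : S_PikB) (h_PikD : S_PikD) :
    S_PikA := by
  intro S _ Gm hU T κ hT hK hκ
  have hI : IsI S T := hT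
  obtain ⟨hTU, h0, hTC, hcol, hwf⟩ := hT
  obtain ⟨e0, etl, einv, efix, eout, -⟩ := h_PikB T κ h0 hTC hK
  have hdf : DF S (pik T κ) := by
    have h1 : DF S (fun _ : ℕ => T) := (h_Gcomp S Gm hU).1 ℕ (Set ℕ) T hTU
    have h2 : DF S (fun x : ℕ × Node × ℕ => κ x.2.1 x.2.2) :=
      hκ.comp (f := fun x : ℕ × Node × ℕ => (x.2.1, x.2.2)) (Smp.id.snd.fst.pair Smp.id.snd.snd).df
    have h3 := h_PikD S ℕ (fun _ => T) (fun _ => κ) h1 h2
    exact h3.comp (f := fun s : Node => ((0 : ℕ), s)) ((DF.constN (0 : ℕ)).pair DF.id)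
  have him : ∀ B ∈ S.U, imT (pik T κ) B ∈ S.U := by
    intro B hB
    have h1 : DF S (fun x : Set ℕ × Node => pik T κ x.2) := hdf.comp Smp.id.snd.df
    have h2 := (h_PinU S Gm hU (Set ℕ) (fun _ => pik T κ) h1).2.2 (fun B => B) DF.id
    exact h2.1 B hB
  refine ⟨e0, etl, einv, hdf, ?_⟩
  rintro T' ⟨hTU', h0', hTC', hcol', hwf'⟩
  refine ⟨him T' hTU', ?_, ?_, ?_, ?_⟩
  · rw [pikA_im, e0]
    exact h0'
  · intro s hs
    rw [pikA_im] at hs ⊢
    rw [← etl]
    exact hTC' _ hs
  · intro s
    by_cases hs : inn T s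
    · obtain ⟨m, hm⟩ := hcol' s
      obtain ⟨m', hm'⟩ := hK.2.2 s hs
      refine ⟨max m m', fun a ha => ?_⟩
      rw [pikA_im] at ha
      have h1 : pik T κ (a :: s) = κ s a :: s := by
        show (open Classical in if inn T s then κ s a else a) :: pik T κ s = _
        rw [if_pos hs, efix s hs]
      rw [h1] at ha
      by_contra hc
      have h2 : m' ≤ a.unpair.1 := by
        have := le_max_right m m'
        omega
      rw [hm' a h2] at ha
      have h3 := hm a ha
      have := le_max_left m m'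
      omega
    · obtain ⟨m, hm⟩ := hcol' (pik T κ s)
      refine ⟨m, fun a ha => ?_⟩
      rw [pikA_im] at ha
      have h1 : pik T κ (a :: s) = a :: pik T κ s := by
        show (open Classical in if inn T s then κ s a else a) :: pik T κ s = _
        rw [if_neg hs]
      rw [h1] at ha
      exact hm a ha
  · intro B hB hsub hne
    obtain ⟨s', hs', hs''⟩ := hwf' (imT (pik T κ) B) (him B hB)
      (fun s hs => by
        rw [pikA_im] at hs
        have h1 := hsub _ hs
        rw [pikA_im, einv] at h1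
        exact h1)
      (by
        obtain ⟨s, hs⟩ := hne
        refine ⟨pik T κ s, ?_⟩
        rw [pikA_im, einv]
        exact hs)
    rw [pikA_im] at hs'
    refine ⟨pik T κ s', hs', fun a ha => ?_⟩
    -- the child
    have h1 : (pik T κ (a :: pik T κ s')).tail = s' := by
      rw [etl]
      exact einv s'
    have h2 : pik T κ (a :: pik T κ s') ≠ [] := by
      intro h
      have h3 := einv (a :: pik T κ s')
      rw [h, e0] at h3
      exact absurd h3 (by simp)
    obtain ⟨b, t, hbt⟩ := List.exists_cons_of_ne_nil h2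
    rw [hbt] at h1
    have h4 : t = s' := h1
    apply hs'' b
    rw [pikA_im, ← h4, ← hbt, einv]
    exact ha

end Pool.Agent.Lib.Z2
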