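import Pool.Agent.Lib.Z2.Fo.SpecA

/-! C45, forcing part: `S_PikB` (MP_8dbd20_lc) -/

namespace Pool.Agent.Lib.Z2

open Classical in
theorem tPikB : S_PikB := by
  intro T κ h0 hTC hK
  obtain ⟨k1, k2, k3⟩ := hK
  have ec : ∀ a s, pik T κ (a :: s) = (if inn T s then κ s a else a) :: pik T κ s :=
    fun a s => rfl
  have etl : ∀ s, (pik T κ s).tail = pik T κ s.tail := by
    intro s
    cases s with
    | nil => rfl
    | cons a s => rfl
  have efix : ∀ s, inn T s → pik T κ s = s := by
    intro s
    induction s with
    | nil => intro _; rfl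
    | cons a s ih =>
      intro h
      have hs : inn T s := hTC _ h
      rw [ec, if_pos hs, k2 s a h, ih hs]
  have eout : ∀ s, ¬ inn T s → ¬ inn T (pik T κ s) := by
    intro s
    induction s with
    | nil => intro h; exact absurd h0 h
    | cons a s ih =>
      intro h hc
      by_cases hs : inn T s
      · rw [ec, if_pos hs, efix s hs] at hc
        have h1 := k2 s _ hc
        rw [k1 s a hs] at h1
        rw [← h1] at hc
        exact h hc
      · have h1 := hTC _ hc
        rw [ec] at h1
        exact ih hs h1
  have einv : ∀ s, pik T κ (pik T κ s) = s := by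
    intro s
    induction s with
    | nil => rfl
    | cons a s ih =>
      rw [ec, ec, ih]
      by_cases hs : inn T s
      · have h1 : inn T (pik T κ s) := by rw [efix s hs]; exact hs
        rw [if_pos h1, if_pos hs, efix s hs, k1 s a hs]
      · rw [if_neg (eout s hs), if_neg hs]
  refine ⟨rfl, etl, einv, efix, eout, ?_⟩
  intro s
  induction s with
  | nil => intro h; exact absurd h0 h
  | cons a s ih =>
    intro h
    by_cases hs : inn T s
    · exact ⟨[], a, s, rfl, hs, h, by rw [ec, if_pos hs, efix s hs]; rfl⟩
    · obtain ⟨u, b, t, e, ht, hbt, hp⟩ := ih hs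
      refine ⟨a :: u, b, t, by rw [e]; rfl, ht, hbt, ?_⟩
      rw [ec, if_neg hs, hp]
      rfl

end Pool.Agent.Lib.Z2
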