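import Pool.Agent.Lib.Z2.Fo.SpecA

/-! C45, forcing part: `S_PikD` (MP_8dbd20_lc) -/

namespace Pool.Agent.Lib.Z2

private theorem pikD_len (T : Set ℕ) (κ : Node → ℕ → ℕ) (s : Node) :
    (pik T κ s).length = s.length := by
  induction s with
  | nil => rfl
  | cons a s ih =>
    show (pik T κ s).length + 1 = s.length + 1
    rw [ih]

private theorem pikD_app (T : Set ℕ) (κ : Node → ℕ → ℕ) (a : ℕ) (t : Node) :
    ∀ r : Node, ∃ r'' : Node, r''.length = r.length ∧
      pik T κ (r ++ a :: t) = r'' ++ (open Classical in if inn T t then κ t a else a) ::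
        pik T κ t := by
  intro r
  induction r with
  | nil => exact ⟨[], rfl, rfl⟩
  | cons b r ih =>
    obtain ⟨r'', h1, h2⟩ := ih
    refine ⟨(open Classical in if inn T (r ++ a :: t) then κ (r ++ a :: t) b else b) :: r'', ?_, ?_⟩
    · show r''.length + 1 = r.length + 1
      rw [h1]
    · show (open Classical in if inn T (r ++ a :: t) then κ (r ++ a :: t) b else b) ::
        pik T κ (r ++ a :: t) = _
      rw [h2]
      rfl

open Classical in
private theorem pikD_iff (T : Set ℕ) (κ : Node → ℕ → ℕ) : ∀ s s' : Node, pik T κ s = s' ↔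
    s.length = s'.length ∧ ∀ y : (Node × ℕ × Node) × (Node × ℕ × Node),
      y.1.1 ++ y.1.2.1 :: y.1.2.2 = s → y.2.1 ++ y.2.2.1 :: y.2.2.2 = s' →
      y.1.1.length = y.2.1.length →
      y.2.2.1 = if inn T y.1.2.2 then κ y.1.2.2 y.1.2.1 else y.1.2.1 := by
  intro s s'
  constructor
  · rintro rfl
    refine ⟨(pikD_len T κ s).symm, ?_⟩
    rintro ⟨⟨r, a, t⟩, ⟨r', a', t'⟩⟩ h1 h2 h3
    simp only at h1 h2 h3 ⊢
    subst h1
    obtain ⟨r'', h4, h5⟩ := pikD_app T κ a t r
    rw [h5] at h2
    obtain ⟨-, h6⟩ := List.append_inj h2 (by rw [h4, h3])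
    exact (List.cons.inj h6).1
  · induction s generalizing s' with
    | nil =>
      rintro ⟨h1, -⟩
      have h2 : s' = [] := List.eq_nil_of_length_eq_zero h1.symm
      rw [h2]
      rfl
    | cons b s ih =>
      rintro ⟨h1, h2⟩
      cases s' with
      | nil => simp at h1
      | cons b' s' =>
        have h3 := h2 (([], b, s), ([], b', s')) rfl rfl rfl
        have h4 : pik T κ s = s' := by
          refine ih s' ⟨by simpa using h1, ?_⟩
          rintro ⟨⟨r, a, t⟩, ⟨r', a', t'⟩⟩ h5 h6 h7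
          refine h2 ((b :: r, a, t), (b' :: r', a', t')) ?_ ?_ ?_
          · show b :: (r ++ a :: t) = b :: s
            exact congrArg _ h5
          · show b' :: (r' ++ a' :: t') = b' :: s'
            exact congrArg _ h6
          · show r.length + 1 = r'.length + 1
            exact congrArg _ h7
        show (if inn T s then κ s b else b) :: pik T κ s = b' :: s'
        rw [h4]
        simp only at h3
        rw [← h3]

theorem tPikD (h_Inn : S_Inn) : S_PikD := by
  intro S _ α _ T κ hT hκ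
  refine ⟨fun _ _ => PShp.vl_all _ _, ?_⟩
  classical
  have main : Dfn S (fun x : (α × Node) × Node => x.1.2.length = x.2.length ∧
      ∀ y : (Node × ℕ × Node) × (Node × ℕ × Node),
      y.1.1 ++ y.1.2.1 :: y.1.2.2 = x.1.2 → y.2.1 ++ y.2.2.1 :: y.2.2.2 = x.2 →
      y.1.1.length = y.2.1.length →
      y.2.2.1 = if inn (T x.1.1) y.1.2.2 then κ x.1.1 y.1.2.2 y.1.2.1 else y.1.2.1) := by
    refine Dfn.and ?_ ?_
    · refine Dfn.eq (DF.prim Primrec.list_length ?_) (DF.prim Primrec.list_length ?_)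
      · exact Smp.id.fst.snd.df
      · exact Smp.id.snd.df
    · refine Dfn.allN (T := (Node × ℕ × Node) × (Node × ℕ × Node))
        (P := fun (x : (α × Node) × Node) (y : (Node × ℕ × Node) × (Node × ℕ × Node)) =>
          y.1.1 ++ y.1.2.1 :: y.1.2.2 = x.1.2 → y.2.1 ++ y.2.2.1 :: y.2.2.2 = x.2 →
          y.1.1.length = y.2.1.length →
          y.2.2.1 = if inn (T x.1.1) y.1.2.2 then κ x.1.1 y.1.2.2 y.1.2.1 else y.1.2.1) ?_
      have dx : DF S (fun z : ((α × Node) × Node) × ((Node × ℕ × Node) × (Node × ℕ × Node)) =>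
        z.1.1.1) := Smp.id.fst.fst.fst.df
      have ds : DF S (fun z : ((α × Node) × Node) × ((Node × ℕ × Node) × (Node × ℕ × Node)) =>
        z.1.1.2) := Smp.id.fst.fst.snd.df
      have ds' : DF S (fun z : ((α × Node) × Node) × ((Node × ℕ × Node) × (Node × ℕ × Node)) =>
        z.1.2) := Smp.id.fst.snd.df
      have dr : DF S (fun z : ((α × Node) × Node) × ((Node × ℕ × Node) × (Node × ℕ × Node)) =>
        z.2.1.1) := Smp.id.snd.fst.fst.df
      have da : DF S (fun z : ((α × Node) × Node) × ((Node × ℕ × Node) × (Node × ℕ × Node)) =>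
        z.2.1.2.1) := Smp.id.snd.fst.snd.fst.df
      have dt : DF S (fun z : ((α × Node) × Node) × ((Node × ℕ × Node) × (Node × ℕ × Node)) =>
        z.2.1.2.2) := Smp.id.snd.fst.snd.snd.df
      have dr' : DF S (fun z : ((α × Node) × Node) × ((Node × ℕ × Node) × (Node × ℕ × Node)) =>
        z.2.2.1) := Smp.id.snd.snd.fst.df
      have da' : DF S (fun z : ((α × Node) × Node) × ((Node × ℕ × Node) × (Node × ℕ × Node)) =>
        z.2.2.2.1) := Smp.id.snd.snd.snd.fst.df
      have dt' : DF S (fun z : ((α × Node) × Node) × ((Node × ℕ × Node) × (Node × ℕ × Node)) =>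
        z.2.2.2.2) := Smp.id.snd.snd.snd.snd.df
      refine Dfn.imp ?_ (Dfn.imp ?_ (Dfn.imp ?_ ?_))
      · exact Dfn.eq (DF.prim₂ Primrec.list_append dr (DF.prim₂ Primrec.list_cons da dt)) ds
      · exact Dfn.eq (DF.prim₂ Primrec.list_append dr' (DF.prim₂ Primrec.list_cons da' dt')) ds'
      · exact Dfn.eq (DF.prim Primrec.list_length dr) (DF.prim Primrec.list_length dr')
      · refine Dfn.eq da' ?_
        refine DF.ite (h_Inn S _ _ _ (hT.comp dx) dt) ?_ da
        exact hκ.comp (dx.pair (dt.pair da))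
  refine main.congr (fun x _ => ?_)
  exact pikD_iff (T x.1.1) (κ x.1.1) x.1.2 x.2

end Pool.Agent.Lib.Z2
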