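import Pool.Agent.Lib.Z2.Fo.SpecA

/-!
# C45, forcing part, PinE: the entries of `pin π σ` (MP_8dbd20_lc)
-/

namespace Pool.Agent.Lib.Z2

/-- (PinE) The entries of `pin π σ`. -/
theorem tPinE (h_Cdc : S_Cdc) (h_PicM : S_PicM) : S_PinE := by
  intro S π h0 ht hi
  obtain ⟨hinn, hp⟩ := h_PicM S (fun X => X) π h0 ht hi
  have hinv : ∀ p : Cond, pic π (pic π p) = p := fun p => (hp p).1
  have hcond : ∀ p, IsCond S p → IsCond S (pic π p) := fun p => (hp p).2.2.2.2.2.2.2.1
  have hInT : ∀ p T, InT T p → InT (imT π T) (pic π p) := fun p => (hp p).2.2.2.2.2.2.2.2.1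
  have hfix : ∀ p T, (∀ s, inn T s → π s = s) → InT T p → IsCond S p → pic π p = p :=
    fun p => (hp p).2.2.2.2.2.2.2.2.2.2.1
  have hsec : ∀ σ j, sec (pin π σ) j =
      {m | ∃ p : Cond, sec σ j = cdc p ∧ m ∈ cdc (pic π p)} := by
    intro σ j
    ext m
    rw [mem_sec]
    simp only [pin, Set.mem_ofPred_eq, Nat.unpair_pair]
  have hval : ∀ σ j p, sec σ j = cdc p → sec (pin π σ) j = cdc (pic π p) := by
    intro σ j p h
    rw [hsec]
    ext m
    rw [Set.mem_ofPred_eq]
    constructor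
    · rintro ⟨p', h', hm⟩
      have : p' = p := h_Cdc.1 _ _ (h'.symm.trans h)
      rw [this] at hm
      exact hm
    · intro hm
      exact ⟨p, h, hm⟩
  have hiff : ∀ σ j q, sec (pin π σ) j = cdc q ↔ sec σ j = cdc (pic π q) := by
    intro σ j q
    constructor
    · intro h
      have hne : (cdc q).Nonempty := Set.nonempty_iff_ne_empty.2 (h_Cdc.2.1 q)
      obtain ⟨m, hm⟩ := hne
      rw [← h, hsec, Set.mem_ofPred_eq] at hm
      obtain ⟨p, hp1, -⟩ := hm
      have h2 : cdc q = cdc (pic π p) := h.symm.trans (hval σ j p hp1)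
      have h3 : q = pic π p := h_Cdc.1 _ _ h2
      rw [h3, hinv]
      exact hp1
    · intro h
      have := hval σ j _ h
      rwa [hinv] at this
  have hE : ∀ σ n q, Ent S (pin π σ) n q ↔ Ent S σ n (pic π q) := by
    intro σ n q
    unfold Ent
    constructor
    · rintro ⟨h1, i, h2⟩
      exact ⟨hcond q h1, i, (hiff _ _ _).1 h2⟩
    · rintro ⟨h1, i, h2⟩
      refine ⟨?_, i, (hiff _ _ _).2 h2⟩
      have := hcond _ h1
      rwa [hinv] at this
  refine ⟨hE, ?_, ?_⟩
  · intro σ T h n p hp1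
    have h1 := hInT _ T (h n _ ((hE σ n p).1 hp1))
    rwa [hinv] at h1
  · intro σ T hT h n q
    rw [hE]
    constructor
    · intro h1
      have h2 := hfix (pic π q) T hT (h n _ h1) h1.1
      rw [hinv] at h2
      rwa [← h2] at h1
    · intro h1
      rwa [hfix q T hT (h n _ h1) h1.1]

end Pool.Agent.Lib.Z2
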