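import Pool.Agent.Lib.Z2.Fo.SpecA

/-! C45, forcing part: `S_PinU` (MP_8dbd20_lc) -/

namespace Pool.Agent.Lib.Z2

theorem tPinU (h_Map : S_Map) (h_Inn : S_Inn) (h_Cdc : S_Cdc) (h_Gcomp : S_Gcomp) : S_PinU := by
  intro S _ Gm hU α _ π hπ
  have hpic : ∀ {β : Type} [Shp β] (f : β → α) (p : β → Cond), DF S f → DF S p →
      DF S (fun b => pic (π (f b)) (p b)) := by
    intro β _ f p hf hp
    have hn : DF S (fun b => nds (p b)) := hp.fst.fst
    have hb : DF S (fun b => bts (p b)) := hp.fst.snd.snd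
    have d1 : DF S (fun y : β × Node => π (f y.1) y.2) :=
      hπ.comp (f := fun y : β × Node => (f y.1, y.2)) ((hf.comp DF.id.fst).pair DF.id.snd)
    have d2 : DF S (fun y : β × (Node × ℕ) => (π (f y.1) y.2.1, y.2.2)) := by
      refine DF.pair ?_ DF.id.snd.snd
      exact hπ.comp (f := fun y : β × (Node × ℕ) => (f y.1, y.2.1)) ((hf.comp DF.id.fst).pair DF.id.snd.fst)
    have m1 := h_Map S β Node Node (fun b => π (f b)) (fun b => nds (p b)) d1 hn
    have m2 := h_Map S β (Node × ℕ) (Node × ℕ) (fun b x => (π (f b) x.1, x.2)) (fun b => bts (p b)) d2 hb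
    exact (m1.pair (hp.fst.snd.fst.pair m2)).pair hp.snd
  refine ⟨fun p hp => hpic (fun a => a) p DF.id hp, ?_, ?_⟩
  · intro σ hσ
    refine (h_Gcomp S Gm hU).2 α (fun a k => ∃ p : Cond, sec (σ a) k.unpair.1 = cdc p ∧
      k.unpair.2 ∈ cdc (pic (π a) p)) ?_
    have d : Dfn S (fun x : α × ℕ => ∃ p : Cond, vl S.U p ∧ (sec (σ x.1) x.2.unpair.1 = cdc p ∧
        x.2.unpair.2 ∈ cdc (pic (π x.1) p))) := by
      refine Dfn.exV (P := fun (x : α × ℕ) (p : Cond) => sec (σ x.1) x.2.unpair.1 = cdc p ∧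
        x.2.unpair.2 ∈ cdc (pic (π x.1) p)) ?_
      refine Dfn.and ?_ ?_
      · exact Dfn.eq (DF.sec (hσ.comp DF.id.fst.fst) (DF.unp1 DF.id.fst.snd))
          ((h_Cdc.2.2 S).2.2 _ (fun x : (α × ℕ) × Cond => x.2) DF.id.snd)
      · refine Dfn.mem (DF.unp2 DF.id.fst.snd) ((h_Cdc.2.2 S).2.2 _
          (fun x : (α × ℕ) × Cond => pic (π x.1.1) x.2) ?_)
        exact hpic (fun x : (α × ℕ) × Cond => x.1.1) (fun x => x.2) DF.id.fst.fst DF.id.snd
    refine d.congr (fun x hx => ?_)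
    constructor
    · rintro ⟨p, h1, h2⟩
      refine ⟨p, ?_, h1, h2⟩
      rw [(h_Cdc.2.2 S).1 p, ← h1]
      exact Good.sec_mem S (hσ.1 _ hx.1) _
    · rintro ⟨p, _, h1, h2⟩
      exact ⟨p, h1, h2⟩
  · intro T hT
    refine (h_Gcomp S Gm hU).2 α (fun a k => ∃ s : Node, Encodable.encode s = k ∧ inn (T a) (π a s)) ?_
    refine Dfn.exN (P := fun (x : α × ℕ) (s : Node) => Encodable.encode s = x.2 ∧ inn (T x.1) (π x.1 s)) ?_
    refine (Dfn.eq (DF.enc DF.id.snd) DF.id.fst.snd).and ?_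
    refine h_Inn S _ (fun x : (α × ℕ) × Node => T x.1.1) (fun x => π x.1.1 x.2) (hT.comp DF.id.fst.fst) ?_
    exact hπ.comp (f := fun x : (α × ℕ) × Node => (x.1.1, x.2)) (DF.id.fst.fst.pair DF.id.snd)

end Pool.Agent.Lib.Z2
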