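import Pool.Agent.Lib.Z2.Fo.SpecC

/-!
# C45 Fo/Pres: forcing preserves the well-foundedness of relations (helper7)
-/

set_option autoImplicit false

namespace Pool.Agent.Lib.Z2

theorem Pres (hMono : S_Mono) (hFrcD : S_FrcD) (hGc : S_Gcomp) (hCdc : S_Cdc) (hIc : S_Ic) (hLe : S_Le)
    (hGenEx : S_GenEx) (hTruth : S_Truth) (hChk : S_Chk) (hPairF : S_PairF) : S_Pres := by
  intro S _ Gm hU G hG R hR hwf B hB hBne
  by_contra hno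
  have hno' : ∀ x ∈ B, ∃ y ∈ B, Nat.pair y x ∈ R := by
    intro x hx
    by_contra h
    exact hno ⟨x, hx, fun y hy hyx => h ⟨y, hy, hyx⟩⟩
  have hcst : ∀ (α β : Type) [Shp α] [Shp β] (b : β), vl S.U b → DF S (fun _ : α => b) := (hGc S Gm hU).1
  have hval : ∀ p, IsCond S p → vl S.U p := (hCdc.2.2 S).2.1
  obtain ⟨σ, hσ, rfl⟩ := hB
  obtain ⟨T₀, hT₀, -⟩ := hσ.2
  obtain ⟨chk, hc1, hc2, hc3, hc4⟩ := hChk S Gm hU
  have hcN : ∀ X ∈ S.U, Nm S (chk X) := fun X hX => ⟨hc1.1 X hX, T₀, hT₀, hc2 X T₀⟩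
  let τ : ℕ → Set ℕ := ex σ (ex (chk R) (fun _ => chk ∅))
  have hτ : ∀ i, Nm S (τ i) := by
    intro i
    rcases i with _ | _ | i
    · exact hσ
    · exact hcN R hR
    · exact hcN ∅ (Good.ue S)
  have hev0 : ∀ G', evl S G' (τ 0) = evl S G' σ := fun _ => rfl
  have hev1 : ∀ G', Gen S Gm G' → evl S G' (τ 1) = R := fun G' hG' => hc4 G' hG' R
  obtain ⟨φP, hφP⟩ := hPairF 0 1 1
  let Ξ : Fm := .allN (.neg (.and (.mem (.var 0) 0) (.allN (.neg (.and (.mem (.var 0) 0) φP)))))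
  have hΞ : ∀ M e E, Ξ.Sat M e E ↔ ∀ x ∈ E 0, ∃ y ∈ E 0, Nat.pair y x ∈ E 1 := by
    intro M e E
    show (∀ x, ¬ (x ∈ E 0 ∧ ∀ y, ¬ (y ∈ E 0 ∧ φP.Sat M (ex y (ex x e)) E))) ↔ _
    constructor
    · intro h x hx
      by_contra hc
      refine h x ⟨hx, fun y hy => hc ⟨y, hy.1, ?_⟩⟩
      exact (hφP M (ex y (ex x e)) E).1 hy.2
    · rintro h x ⟨hx, h2⟩
      obtain ⟨y, hy, hyx⟩ := h x hx
      exact h2 y ⟨hy, (hφP M (ex y (ex x e)) E).2 hyx⟩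
  -- the membership formula
  let μ : Fm := .mem (.var 0) 0
  have hμ : ∀ G', Gen S Gm G' → ∀ x, (x ∈ evl S G' σ ↔ ∃ p, G' p ∧ Frc S Gm μ p (fun _ => x) τ) := by
    intro G' hG' x
    exact hTruth S Gm hU G' hG' μ (fun _ => x) τ hτ
  obtain ⟨p, hGp, hp⟩ := (hTruth S Gm hU G hG Ξ (fun _ => 0) τ hτ).1 ((hΞ _ _ _).2 (by
    intro x hx
    obtain ⟨y, hy, hyx⟩ := hno' x hx
    refine ⟨y, hy, ?_⟩
    show Nat.pair y x ∈ evl S G (τ 1)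
    rw [hev1 G hG]
    exact hyx))
  have hpc := hG.cond p hGp
  let X : Set ℕ := {x | ∃ q, IsCond S q ∧ Le Gm q p ∧ Frc S Gm μ q (fun _ => x) τ}
  have hX : X ∈ S.U := by
    refine hU.comp (fun x => ∃ q, IsCond S q ∧ Le Gm q p ∧ Frc S Gm μ q (fun _ => x) τ) ?_
    have h1 : Dfn S (fun x : ℕ × Cond => IsCond S x.2 ∧ Le Gm x.2 p ∧ Frc S Gm μ x.2 (fun _ => x.1) τ) := by
      refine Dfn.and ?_ (Dfn.and ?_ ?_)
      · exact (hIc S (ℕ × Cond) (fun x => x.2) (DF.snd DF.id)).2.2.2.2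
      · exact hLe S Gm (ℕ × Cond) (fun x => x.2) (fun _ => p) hU.gm (DF.snd DF.id)
          (hcst _ _ _ (hval p hpc))
      · exact hFrcD S Gm hU.gm μ (ℕ × Cond) (fun x => x.2) (fun x _ => x.1) (fun _ => τ)
          (DF.snd DF.id) (fun i => DF.fst DF.id) (fun i => hcst _ _ (τ i) (hτ i).1)
    refine (Dfn.exV (P := fun (a : ℕ) (q : Cond) => IsCond S q ∧ Le Gm q p ∧ Frc S Gm μ q (fun _ => a) τ)
      h1).congr (fun a _ => ?_)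
    constructor
    · rintro ⟨w, hw, h⟩
      exact ⟨w, hval w hw, hw, h⟩
    · rintro ⟨w, -, hw, h⟩
      exact ⟨w, hw, h⟩
  -- elements of generic evaluations below `p` are in `X`
  have hin : ∀ G', Gen S Gm G' → G' p → ∀ y ∈ evl S G' σ, y ∈ X := by
    intro G' hG' hG'p y hy
    obtain ⟨q, hq, hf⟩ := (hμ G' hG' y).1 hy
    obtain ⟨r, hr, hrq, hrp⟩ := hG'.dir q p hq hG'p
    exact ⟨r, hG'.cond r hr, hrp, hMono S Gm μ q r (fun _ => y) τ (hG'.cond q hq) (hG'.cond r hr) hrq hf⟩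
  obtain ⟨x, ⟨q, hq, hqp, hqf⟩, hmin⟩ := hwf X hX (by
    obtain ⟨x, hx⟩ := hBne
    exact ⟨x, hin G hG hGp x hx⟩)
  obtain ⟨G', hG', hG'q⟩ := hGenEx S Gm hU q hq
  have hG'p : G' p := hG'.up q p hG'q hpc hqp
  have h1 := (hΞ _ _ _).1 ((hTruth S Gm hU G' hG' Ξ (fun _ => 0) τ hτ).2 ⟨p, hG'p, hp⟩)
  have h2 : x ∈ evl S G' σ := (hμ G' hG' x).2 ⟨q, hG'q, hqf⟩
  obtain ⟨y, hy, hyx⟩ := h1 x h2
  have hyx' : Nat.pair y x ∈ R := by
    have : Nat.pair y x ∈ evl S G' (τ 1) := hyx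
    rw [hev1 G' hG'] at this
    exact this
  exact hmin y (hin G' hG' hG'p y hy) hyx'

end Pool.Agent.Lib.Z2
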