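import Pool.Agent.Lib.Z2.Fo.SpecC

/-!
# The forcing: supports have no branches in the generic model (MP_8dbd20_lc)
-/

namespace Pool.Agent.Lib.Z2

/-- The relation child - parent on `T`. -/
def PresT_R (T : Set ℕ) : Set ℕ :=
  {n | ∃ (s : Node) (a : ℕ), inn T (a :: s) ∧
    n = Nat.pair (Encodable.encode (a :: s)) (Encodable.encode s)}

theorem PresT_dfn {S : Str} [Good S] {T : Set ℕ} (hT : T ∈ S.Pm) :
    Dfn S (fun n : ℕ => ∃ (s : Node) (a : ℕ), inn T (a :: s) ∧
      n = Nat.pair (Encodable.encode (a :: s)) (Encodable.encode s)) := by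
  refine Dfn.exN ?_
  refine Dfn.exN ?_
  have h1 : DF S (fun x : (ℕ × Node) × ℕ => (x.2 :: x.1.2 : Node)) :=
    DF.prim₂ Primrec.list_cons DF.id.snd DF.id.fst.snd
  have h2 : DF S (fun x : (ℕ × Node) × ℕ => x.1.2) := DF.id.fst.snd
  refine Dfn.and ?_ ?_
  · exact Dfn.mem h1.enc (DF.constR hT)
  · exact Dfn.eq DF.id.fst.fst (h1.enc.natPair h2.enc)

theorem PresT_node (x : ℕ) : ∃ s : Node, Encodable.encode s = x :=
  ⟨Denumerable.ofNat Node x, Denumerable.encode_ofNat x⟩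

theorem tPresT (hPres : S_Pres) : S_PresT := by
  intro S _ Gm hU G hG T hT B hB hBT hne
  obtain ⟨hTU, -, hpar, -, hwf⟩ := hT
  have hR : PresT_R T ∈ S.U := hU.comp _ (PresT_dfn (by rw [hU.pm]; exact hTU))
  obtain ⟨s0, hs0⟩ := hne
  have key := hPres S Gm hU G hG (PresT_R T) hR ?_ B hB ⟨_, hs0⟩
  · obtain ⟨x, hx, hmin⟩ := key
    obtain ⟨s, rfl⟩ := PresT_node x
    refine ⟨s, hx, fun a ha => ?_⟩
    exact hmin _ ha ⟨s, a, hBT _ ha, rfl⟩
  · intro B' hB' hne'
    by_cases hsub : ∀ s : Node, inn B' s → inn T s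
    · obtain ⟨x0, hx0⟩ := hne'
      obtain ⟨t0, rfl⟩ := PresT_node x0
      obtain ⟨s, hs, hmin⟩ := hwf B' hB' hsub ⟨t0, hx0⟩
      refine ⟨_, hs, ?_⟩
      rintro y hy ⟨s', a, -, h⟩
      have h1 := Nat.pair_eq_pair.1 h
      have h2 : s = s' := Encodable.encode_injective h1.2
      subst h2
      refine hmin a ?_
      show Encodable.encode (a :: s) ∈ B'
      rw [← h1.1]
      exact hy
    · push Not at hsub
      obtain ⟨s, hs, hsT⟩ := hsub
      refine ⟨_, hs, ?_⟩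
      rintro y - ⟨s', a, hT', h⟩
      have h1 := Nat.pair_eq_pair.1 h
      have h2 : s = s' := Encodable.encode_injective h1.2
      subst h2
      exact hsT (hpar _ hT')

end Pool.Agent.Lib.Z2
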