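import Pool.Agent.Lib.Z2.Fo.SpecP

/-!
# C45, forcing part: `Refl` (MP_8dbd20_lc)
-/

set_option autoImplicit false

namespace Pool.Agent.Lib.Z2

theorem tRefl : S_Refl := by
  intro S Gm p hp
  refine ⟨fun s hs => hs, le_rfl, fun s _ k _ => Iff.rfl, fun c hc => hc, fun s _ k hk hle => ?_⟩
  exact absurd (hp.2.1 _ hk).2 (not_lt.2 hle)

end Pool.Agent.Lib.Z2
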