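import Pool.Agent.Lib.Z2.Fo.SpecP

/-!
# C45, forcing part: `Res` (MP_8dbd20_lc)
-/

set_option autoImplicit false

namespace Pool.Agent.Lib.Z2

private theorem res_nds (T : Set ℕ) (p : Cond) (s : Node) :
    s ∈ nds (res T p) ↔ s ∈ nds p ∧ inn T s := by
  classical
  change s ∈ (nds p).filter (fun s => inn T s) ↔ _
  rw [List.mem_filter, decide_eq_true_iff]

private theorem res_bts (T : Set ℕ) (p : Cond) (s : Node) (k : ℕ) :
    (s, k) ∈ bts (res T p) ↔ (s, k) ∈ bts p ∧ inn T s := by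
  classical
  change (s, k) ∈ (bts p).filter (fun x => inn T x.1) ↔ _
  rw [List.mem_filter, decide_eq_true_iff]

private theorem res_cond {S : Str} {T : Set ℕ} {p : Cond} (hT : TC T) (hp : IsCond S p) :
    IsCond S (res T p) := by
  refine ⟨?_, ?_, hp.2.2⟩
  · intro s hs
    rw [res_nds] at hs ⊢
    exact ⟨hp.1 s hs.1, hT s hs.2⟩
  · rintro ⟨s, k⟩ hx
    rw [res_bts] at hx
    exact ⟨(res_nds T p s).2 ⟨(hp.2.1 _ hx.1).1, hx.2⟩, (hp.2.1 _ hx.1).2⟩

theorem tRes : S_Res := by
  classical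
  intro S Gm T p hT hp
  refine ⟨res_cond hT hp, fun s hs => ((res_nds T p s).1 hs).2, ?_, rfl, rfl, res_nds T p,
    res_bts T p, ?_, ?_⟩
  · refine ⟨fun s hs => ((res_nds T p s).1 hs).1, le_rfl, ?_, fun c hc => hc, ?_⟩
    · intro s hs k _
      rw [res_bts]
      exact ⟨fun h => ⟨h, ((res_nds T p s).1 hs).2⟩, fun h => h.1⟩
    · intro s _ k hk hle
      exact absurd (hp.2.1 _ hk).2 (not_lt.2 hle)
  · rintro q hq ⟨a1, a2, a3, a4, a5⟩
    refine ⟨?_, a2, ?_, a4, ?_⟩
    · intro s hs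
      rw [res_nds] at hs ⊢
      exact ⟨a1 s hs.1, hs.2⟩
    · intro s hs k hk
      rw [res_nds] at hs
      rw [res_bts, res_bts, a3 s hs.1 k hk]
    · intro s hs k hk hle c hc
      rw [res_nds] at hs
      rw [res_bts] at hk
      have h1 := a5 s hs.1 k hk.1 hle c hc
      have h2 : ub (res T q) s = ub q s := by
        ext j
        change (s, j) ∈ bts (res T q) ↔ (s, j) ∈ bts q
        rw [res_bts]
        exact ⟨fun h => h.1, fun h => ⟨h, hs.2⟩⟩
      have h3 : ubp (res T q) s = ubp q s := by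
        ext j
        change (s ≠ [] ∧ (s.tail, j) ∈ bts (res T q)) ↔ (s ≠ [] ∧ (s.tail, j) ∈ bts q)
        rw [res_bts]
        exact ⟨fun h => ⟨h.1, h.2.1⟩, fun h => ⟨h.1, h.2, hT s hs.2⟩⟩
      rw [h2, h3]
      exact h1
  · intro hI
    have h1 : (nds p).filter (fun s => inn T s) = nds p := by
      rw [List.filter_eq_self]
      intro s hs
      rw [decide_eq_true_iff]
      exact hI s hs
    have h2 : (bts p).filter (fun x => inn T x.1) = bts p := by
      rw [List.filter_eq_self]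
      intro x hx
      rw [decide_eq_true_iff]
      exact hI _ (hp.2.1 x hx).1
    change (((nds p).filter (fun s => inn T s), ht p, (bts p).filter (fun x => inn T x.1)), fs p) = p
    rw [h1, h2]
    rfl

end Pool.Agent.Lib.Z2
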