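import Pool.Agent.Lib.Z2.Fo.SpecP

/-!
# C45 Fo/ResD: definability of the restriction of a condition
-/

namespace Pool.Agent.Lib.Z2

theorem tResD (h_Filt : S_Filt) (h_Inn : S_Inn) (h_Ic : S_Ic) : S_ResD := by
  intro S _ α _ T p hT hp
  obtain ⟨h1, h2, h3, h4, -⟩ := h_Ic S α p hp
  refine DF.pair (DF.pair ?_ (DF.pair h2 ?_)) h4
  · exact h_Filt S α Node (fun a s => inn (T a) s) (fun a => nds (p a))
      (h_Inn S (α × Node) (fun x => T x.1) (fun x => x.2) (hT.comp Smp.id.fst.df) Smp.id.snd.df) h1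
  · exact h_Filt S α (Node × ℕ) (fun a x => inn (T a) x.1) (fun a => bts (p a))
      (h_Inn S (α × (Node × ℕ)) (fun x => T x.1) (fun x => x.2.1) (hT.comp Smp.id.fst.df)
        Smp.id.snd.fst.df) h3

end Pool.Agent.Lib.Z2
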