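import Pool.Agent.Lib.Z2.Fo.SpecP

/-!
# C45, forcing part: `Same` (MP_8dbd20_lc)
-/

set_option autoImplicit false

namespace Pool.Agent.Lib.Z2

theorem tSame : S_Same := by
  intro S Gm p q hp hq hht h
  have hb : ∀ s k, (s, k) ∈ bts (jnc p q) ↔ (s, k) ∈ bts p ∨ (s, k) ∈ bts q := fun s k =>
    List.mem_append
  have hn : ∀ s, s ∈ nds (jnc p q) ↔ s ∈ nds p ∨ s ∈ nds q := fun s => List.mem_append
  have hlt : ∀ s k, (s, k) ∈ bts (jnc p q) → k < ht p := by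
    intro s k hk
    rcases (hb s k).1 hk with h1 | h1
    · exact (hp.2.1 _ h1).2
    · rw [hht]
      exact (hq.2.1 _ h1).2
  refine ⟨⟨?_, ?_, ?_⟩, ⟨?_, le_rfl, ?_, ?_, ?_⟩, ⟨?_, hht.ge, ?_, ?_, ?_⟩⟩
  · intro s hs
    rcases (hn s).1 hs with h1 | h1
    · exact (hn _).2 (Or.inl (hp.1 s h1))
    · exact (hn _).2 (Or.inr (hq.1 s h1))
  · rintro ⟨s, k⟩ hx
    refine ⟨?_, hlt s k hx⟩
    rcases (hb s k).1 hx with h1 | h1
    · exact (hn _).2 (Or.inl (hp.2.1 _ h1).1)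
    · exact (hn _).2 (Or.inr (hq.2.1 _ h1).1)
  · intro c hc
    rcases List.mem_append.1 hc with h1 | h1
    · exact hp.2.2 c h1
    · exact hq.2.2 c h1
  · exact fun s hs => (hn s).2 (Or.inl hs)
  · intro s hs k _
    rw [hb]
    refine ⟨?_, Or.inl⟩
    rintro (h1 | h1)
    · exact h1
    · exact (h s hs (hq.2.1 _ h1).1 k).2 h1
  · exact fun c hc => List.mem_append.2 (Or.inl hc)
  · intro s _ k hk hle
    exact absurd (hlt s k hk) (not_lt.2 hle)
  · exact fun s hs => (hn s).2 (Or.inr hs)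
  · intro s hs k _
    rw [hb]
    refine ⟨?_, Or.inr⟩
    rintro (h1 | h1)
    · exact (h s (hp.2.1 _ h1).1 hs k).1 h1
    · exact h1
  · exact fun c hc => List.mem_append.2 (Or.inr hc)
  · intro s _ k hk hle
    rw [← hht] at hle
    exact absurd (hlt s k hk) (not_lt.2 hle)

end Pool.Agent.Lib.Z2
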