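import Pool.Agent.Lib.Z2.Fo.SpecP

/-!
# C45, forcing part: `Sg` (MP_8dbd20_lc)
-/

set_option autoImplicit false

namespace Pool.Agent.Lib.Z2

private theorem sg_tr (h_Filt : S_Filt) (S : Str) [Good S] (α : Type) [Shp α] (k : α → ℕ)
    (y : α → Set ℕ) (hk : DF S k) (hy : DF S y) : DF S (fun a => tr (y a) (k a)) := by
  classical
  have h1 : DF S (fun a => List.range (k a)) := DF.prim Primrec.list_range hk
  have h2 := h_Filt S α ℕ (fun a j => j ∈ y a) (fun a => List.range (k a))
    (Dfn.mem DF.id.snd (hy.comp DF.id.fst)) h1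
  refine h2.congr fun a _ => ?_
  unfold tr
  refine List.filter_congr fun j _ => ?_
  rw [decide_eq_decide]

theorem tSg (h_Filt : S_Filt) : S_Sg := by
  intro S _ α _ k z y hk hz hy
  exact DF.natPair hk (DF.natPair (DF.enc (sg_tr h_Filt S α k z hk hz))
    (DF.enc (sg_tr h_Filt S α k y hk hy)))

end Pool.Agent.Lib.Z2
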