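import Pool.Agent.Lib.Z2.Fo.SpecP

/-!
# C45 Fo/Sup: definability of the supports of names
-/

namespace Pool.Agent.Lib.Z2

theorem tSup (h_Inn : S_Inn) (h_Ic : S_Ic) (h_Cdc : S_Cdc) (h_Ent : S_Ent) : S_Sup := by
  intro S _ α _ σ T p hσ hT hp
  have hInT : ∀ (β : Type) [Shp β] (T : β → Set ℕ) (p : β → Cond), DF S T → DF S p →
      Dfn S (fun a => InT (T a) (p a)) := by
    intro β _ T p hT hp
    exact Dfn.allP (P := fun (a : β) (s : Node) => inn (T a) s) (h_Ic S β p hp).1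
      (h_Inn S (β × Node) (fun x => T x.1) (fun x => x.2) (hT.comp Smp.id.fst.df) Smp.id.snd.df)
  refine ⟨hInT α T p hT hp, ?_⟩
  refine Dfn.allN (P := fun (a : α) (n : ℕ) => ∀ p, Ent S (σ a) n p → InT (T a) p) ?_
  have h1 : Dfn S (fun x : α × ℕ => ∀ p : Cond, vl S.U p → (Ent S (σ x.1) x.2 p → InT (T x.1) p)) := by
    refine Dfn.allV (P := fun (x : α × ℕ) (p : Cond) => Ent S (σ x.1) x.2 p → InT (T x.1) p) ?_
    refine Dfn.imp ?_ ?_
    · exact h_Ent S ((α × ℕ) × Cond) (fun y => σ y.1.1) (fun y => y.1.2) (fun y => y.2)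
        (hσ.comp Smp.id.fst.fst.df) Smp.id.fst.snd.df Smp.id.snd.df
    · exact hInT ((α × ℕ) × Cond) (fun y => T y.1.1) (fun y => y.2)
        (hT.comp Smp.id.fst.fst.df) Smp.id.snd.df
  refine h1.congr (fun x _ => ?_)
  constructor
  · intro h q _ hq
    exact h q hq
  · intro h q hq
    exact h q ((h_Cdc.2.2 S).2.1 q hq.1) hq

end Pool.Agent.Lib.Z2
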