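import Pool.Agent.Lib.Z2.Fo.SpecA

/-!
# C45, forcing part, SupM: monotonicity of supports (MP_8dbd20_lc)
-/

namespace Pool.Agent.Lib.Z2

/-- (SupM) Monotonicity of supports. -/
theorem tSupM : S_SupM := by
  intro S σ T T' h h' n p hp s hs
  exact h' s (h n p hp s hs)

end Pool.Agent.Lib.Z2
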