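import Pool.Agent.Lib.Z2.Fo.SpecC

/-! C45, forcing part: `S_Swp` (MP_8dbd20_lc) -/

namespace Pool.Agent.Lib.Z2

private theorem sw_imT (π : Node → Node) (T : Set ℕ) (s : Node) : inn (imT π T) s ↔ inn T (π s) := by
  constructor
  · rintro ⟨s', h1, h2⟩
    rw [← Encodable.encode_injective h1]; exact h2
  · intro h; exact ⟨s, rfl, h⟩

private noncomputable def swκ (m c : Node → ℕ) (s : Node) (a : ℕ) : ℕ :=
  if a.unpair.1 = m s then Nat.pair (c s) a.unpair.2
  else if a.unpair.1 = c s then Nat.pair (m s) a.unpair.2 else a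

theorem tSwp (h_Inn : S_Inn) (h_PikB : S_PikB) (h_PikA : S_PikA) : S_Swp := by
  intro S _ Gm hU T T' m hT hT' hTT' hm hMb
  have hTP : T' ∈ S.Pm := by rw [hU.pm]; exact hT'.1
  classical
  -- the new column
  have hex : ∀ s : Node, ∃ c, m s < c ∧ ∀ a, inn T' (a :: s) → a.unpair.1 < c := by
    intro s
    obtain ⟨c, hc⟩ := hT'.2.2.2.1 s
    refine ⟨max (m s + 1) c, ?_, fun a ha => ?_⟩
    · have := le_max_left (m s + 1) c; omega
    · have := le_max_right (m s + 1) c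
      have := hc a ha
      omega
  obtain ⟨c, hc⟩ : ∃ c : Node → ℕ, c = fun s => Nat.find (hex s) := ⟨_, rfl⟩
  have hc1 : ∀ s, m s < c s := fun s => by rw [hc]; exact (Nat.find_spec (hex s)).1
  have hc2 : ∀ s a, inn T' (a :: s) → a.unpair.1 < c s := fun s => by
    rw [hc]; exact (Nat.find_spec (hex s)).2
  have hcD : DF S c := by
    have hR : Dfn S (fun x : Node × ℕ => m x.1 < x.2 ∧ ∀ a : ℕ, inn T' (a :: x.1) → a.unpair.1 < x.2) := by
      refine Dfn.and (Dfn.lt (hm.comp DF.id.fst) DF.id.snd) ?_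
      refine Dfn.allN (P := fun (x : Node × ℕ) (a : ℕ) => inn T' (a :: x.1) → a.unpair.1 < x.2) ?_
      refine Dfn.imp ?_ (Dfn.lt (DF.unp1 DF.id.snd) DF.id.fst.snd)
      exact h_Inn S _ (fun _ => T') (fun x : (Node × ℕ) × ℕ => x.2 :: x.1.1) (DF.constR hTP)
        (DF.prim₂ (F := fun (a : ℕ) (s : Node) => a :: s) Primrec.list_cons DF.id.snd DF.id.fst.fst)
    refine ⟨fun _ _ => PShp.vl_all _ _, ?_⟩
    have h2 : Dfn S (fun x : Node × ℕ => (m x.1 < x.2 ∧ ∀ a : ℕ, inn T' (a :: x.1) → a.unpair.1 < x.2) ∧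
        ∀ c' : ℕ, c' < x.2 → ¬ (m x.1 < c' ∧ ∀ a : ℕ, inn T' (a :: x.1) → a.unpair.1 < c')) := by
      refine hR.and ?_
      refine Dfn.allN (P := fun (x : Node × ℕ) (c' : ℕ) => c' < x.2 →
        ¬ (m x.1 < c' ∧ ∀ a : ℕ, inn T' (a :: x.1) → a.unpair.1 < c')) ?_
      refine Dfn.imp (Dfn.lt DF.id.snd DF.id.fst.snd) (Dfn.not ?_)
      exact Dfn.comp (f := fun x : (Node × ℕ) × ℕ => (x.1.1, x.2)) hR (DF.id.fst.fst.pair DF.id.snd)
    refine h2.congr (fun x _ => ?_)
    rw [hc]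
    show Nat.find (hex x.1) = x.2 ↔ _
    rw [Nat.find_eq_iff]
  have hne : ∀ s, c s ≠ m s := fun s => by have := hc1 s; omega
  set κ := swκ m c with hκ
  have k1 : ∀ s b, κ s (Nat.pair (m s) b) = Nat.pair (c s) b := by
    intro s b; simp [hκ, swκ]
  have k2 : ∀ s b, κ s (Nat.pair (c s) b) = Nat.pair (m s) b := by
    intro s b; simp [hκ, swκ, hne s]
  have k3 : ∀ s a, a.unpair.1 ≠ m s → a.unpair.1 ≠ c s → κ s a = a := by
    intro s a h h'; simp [hκ, swκ, h, h']
  have hK : Kap T κ := by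
    refine ⟨?_, ?_, ?_⟩
    · intro s a _
      by_cases ha : a.unpair.1 = m s
      · have e : a = Nat.pair (m s) a.unpair.2 := by rw [← ha, Nat.pair_unpair]
        rw [e, k1, k2]
      · by_cases hb : a.unpair.1 = c s
        · have e : a = Nat.pair (c s) a.unpair.2 := by rw [← hb, Nat.pair_unpair]
          rw [e, k2, k1]
        · rw [k3 s a ha hb, k3 s a ha hb]
    · intro s a ha
      have hs : inn T s := hT.2.2.1 _ ha
      have h1 := hMb s a hs ha
      have h2 := hc1 s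
      exact k3 s a (by omega) (by omega)
    · intro s _
      refine ⟨c s + 1, fun a ha => k3 s a ?_ ?_⟩
      · have := hc1 s; omega
      · omega
  have hdf : DF S (fun x : Node × ℕ => κ x.1 x.2) := by
    have e1 : DF S (fun x : Node × ℕ => m x.1) := hm.comp DF.id.fst
    have e2 : DF S (fun x : Node × ℕ => c x.1) := hcD.comp DF.id.fst
    refine DF.congr (DF.ite (p := fun x : Node × ℕ => x.2.unpair.1 = m x.1) (Dfn.eq (DF.unp1 DF.id.snd) e1)
      (DF.natPair e2 (DF.unp2 DF.id.snd))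
      (DF.ite (p := fun x : Node × ℕ => x.2.unpair.1 = c x.1) (Dfn.eq (DF.unp1 DF.id.snd) e2)
        (DF.natPair e1 (DF.unp2 DF.id.snd)) DF.id.snd)) ?_
    intro x _
    simp only [hκ, swκ]
  have hA := h_PikA S Gm hU T κ hT hK hdf
  obtain ⟨b1, b2, b3, b4, b5, b6⟩ := h_PikB T κ hT.2.1 hT.2.2.1 hK
  refine ⟨pik T κ, hA, b4, ?_, ?_⟩
  · intro s hs
    rw [sw_imT, b4 s hs]; exact hTT' s hs
  · intro s a hs ha hcon
    rw [sw_imT] at ha
    have e : pik T κ (a :: s) = κ s a :: s := by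
      show (if inn T s then κ s a else a) :: pik T κ s = _
      rw [if_pos hs, b4 s hs]
    rw [e] at ha
    have h1 := hc2 s _ ha
    have e2 : a = Nat.pair (m s) a.unpair.2 := by rw [← hcon, Nat.pair_unpair]
    rw [e2, k1] at h1
    simp at h1

end Pool.Agent.Lib.Z2
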