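import Pool.Agent.Lib.Z2.Fo.SpecP

/-!
# C45, forcing part: `Trans` (MP_8dbd20_lc)
-/

set_option autoImplicit false

namespace Pool.Agent.Lib.Z2

theorem tTrans (h_Tr : S_Tr) : S_Trans := by
  intro S Gm p q r hp hq hr hrq hqp
  obtain ⟨a1, a2, a3, a4, a5⟩ := hrq
  obtain ⟨b1, b2, b3, b4, b5⟩ := hqp
  refine ⟨fun s hs => a1 s (b1 s hs), b2.trans a2, ?_, fun c hc => a4 c (b4 c hc), ?_⟩
  · intro s hs k hk
    rw [a3 s (b1 s hs) k (lt_of_lt_of_le hk b2), b3 s hs k hk]
  · intro s hs k hk hle c hc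
    by_cases hkq : ht q ≤ k
    · exact a5 s (b1 s hs) k hk hkq c (b4 c hc)
    · rw [not_le] at hkq
      have hk' : (s, k) ∈ bts q := (a3 s (b1 s hs) k hkq).1 hk
      have h1 := b5 s hs k hk' hle c hc
      have h2 : sg k (ub r s) (ubp r s) = sg k (ub q s) (ubp q s) := by
        rw [h_Tr.2.1]
        refine ⟨rfl, fun j hj => ?_, fun j hj => ?_⟩
        · exact a3 s (b1 s hs) j (hj.trans hkq)
        · have h3 := a3 s.tail (b1 _ (hp.1 s hs)) j (hj.trans hkq)
          exact and_congr_right fun _ => h3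
      rw [h2]
      exact h1

end Pool.Agent.Lib.Z2
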