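import Pool.Agent.Lib.Z2.Fo.SpecP

/-!
# The trivial condition
-/

namespace Pool.Agent.Lib.Z2

theorem tTriv : S_Triv := by
  intro S Gm
  refine ⟨⟨?_, ?_, ?_⟩, fun p _ => ⟨?_, ?_, ?_, ?_, ?_⟩, fun T => ?_⟩
  · intro s hs
    exact absurd hs List.not_mem_nil
  · intro x hx
    exact absurd hx List.not_mem_nil
  · intro c hc
    exact absurd hc List.not_mem_nil
  · intro s hs
    exact absurd hs List.not_mem_nil
  · exact Nat.zero_le _
  · intro s hs
    exact absurd hs List.not_mem_nil
  · intro c hc
    exact absurd hc List.not_mem_nil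
  · intro s hs
    exact absurd hs List.not_mem_nil
  · intro s hs
    exact absurd hs List.not_mem_nil

end Pool.Agent.Lib.Z2
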