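import Pool.Agent.Lib.Z2.Fo.SpecA

/-!
# C45, forcing part, Z2: the generic model satisfies full comprehension (MP_8dbd20_lc)
-/

namespace Pool.Agent.Lib.Z2

open Classical in
/-- (Z2) The generic model is a model of full second order arithmetic. -/
theorem tZ2 (h_Nms : S_Nms) (h_FmL : S_FmL) (h_Comp : S_Comp) : S_Z2 := by
  intro S _ Gm hU G hG φ e E hE
  obtain ⟨n1, -, n3, -, n5⟩ := h_Nms S Gm hU G hG
  obtain ⟨k, hk⟩ := h_FmL φ
  obtain ⟨T, hT, hT2⟩ := n5 k E hE
  have h1 : ∀ i, (if i < k then E i else ∅) ∈ NT S G T := by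
    intro i
    by_cases hi : i < k
    · rw [if_pos hi]
      exact hT2 i hi
    · rw [if_neg hi]
      exact n3 T ∅ (Good.ue S)
  have h2 := n1 T hT _ (h_Comp S Gm hU G hG T hT φ e (fun i => if i < k then E i else ∅) h1)
  have h3 : {n | φ.Sat (NN S G) (ex n e) (fun i => if i < k then E i else ∅)} =
      {n | φ.Sat (NN S G) (ex n e) E} := by
    ext n
    rw [Set.mem_ofPred_eq, Set.mem_ofPred_eq]
    refine hk _ _ _ _ _ (fun _ _ => rfl) (fun i hi => ?_)
    rw [if_pos hi]
  rwa [h3] at h2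

end Pool.Agent.Lib.Z2
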