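import Pool.Agent.Lib.Z2.Fo.Tr
import Pool.Agent.Lib.Z2.Fo.Refl
import Pool.Agent.Lib.Z2.Fo.Trans
import Pool.Agent.Lib.Z2.Fo.Same
import Pool.Agent.Lib.Z2.Fo.Res
import Pool.Agent.Lib.Z2.Fo.Amal
import Pool.Agent.Lib.Z2.Fo.Triv
import Pool.Agent.Lib.Z2.Fo.Ext
import Pool.Agent.Lib.Z2.Fo.Fin
import Pool.Agent.Lib.Z2.Fo.Map
import Pool.Agent.Lib.Z2.Fo.Filt
import Pool.Agent.Lib.Z2.Fo.Inn
import Pool.Agent.Lib.Z2.Fo.Sg
import Pool.Agent.Lib.Z2.Fo.Ub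
import Pool.Agent.Lib.Z2.Fo.Ic
import Pool.Agent.Lib.Z2.Fo.Le
import Pool.Agent.Lib.Z2.Fo.Cdc
import Pool.Agent.Lib.Z2.Fo.Ent
import Pool.Agent.Lib.Z2.Fo.Sup
import Pool.Agent.Lib.Z2.Fo.Idl
import Pool.Agent.Lib.Z2.Fo.ResD
import Pool.Agent.Lib.Z2.Fo.FrcD
import Pool.Agent.Lib.Z2.Fo.Gcomp
import Pool.Agent.Lib.Z2.Fo.PicM
import Pool.Agent.Lib.Z2.Fo.PinE
import Pool.Agent.Lib.Z2.Fo.PinU
import Pool.Agent.Lib.Z2.Fo.NmA
import Pool.Agent.Lib.Z2.Fo.FrcC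
import Pool.Agent.Lib.Z2.Fo.FrcA
import Pool.Agent.Lib.Z2.Fo.FrcFx
import Pool.Agent.Lib.Z2.Fo.PikB
import Pool.Agent.Lib.Z2.Fo.PikD
import Pool.Agent.Lib.Z2.Fo.PikA
import Pool.Agent.Lib.Z2.Fo.IUn
import Pool.Agent.Lib.Z2.Fo.IFin
import Pool.Agent.Lib.Z2.Fo.SupM
import Pool.Agent.Lib.Z2.Fo.Mono
import Pool.Agent.Lib.Z2.Fo.Dens
import Pool.Agent.Lib.Z2.Fo.HomK
import Pool.Agent.Lib.Z2.Fo.Hom
import Pool.Agent.Lib.Z2.Fo.GenEx
import Pool.Agent.Lib.Z2.Fo.Truth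
import Pool.Agent.Lib.Z2.Fo.Chk
import Pool.Agent.Lib.Z2.Fo.Nms
import Pool.Agent.Lib.Z2.Fo.FmL
import Pool.Agent.Lib.Z2.Fo.Comp
import Pool.Agent.Lib.Z2.Fo.Z2
import Pool.Agent.Lib.Z2.Fo.GenR
import Pool.Agent.Lib.Z2.Fo.PairF
import Pool.Agent.Lib.Z2.Fo.NTs
import Pool.Agent.Lib.Z2.Fo.NoL
import Pool.Agent.Lib.Z2.Fo.Pres
import Pool.Agent.Lib.Z2.Fo.PresT
import Pool.Agent.Lib.Z2.Fo.Swp
import Pool.Agent.Lib.Z2.Fo.AcK
import Pool.Agent.Lib.Z2.Fo.AcD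
import Pool.Agent.Lib.Z2.Fo.AcT
import Pool.Agent.Lib.Z2.Fo.AcN1
import Pool.Agent.Lib.Z2.Fo.AcN2
import Pool.Agent.Lib.Z2.Fo.AcA
import Pool.Agent.Lib.Z2.Fo.AcP
import Pool.Agent.Lib.Z2.Fo.AcM
import Pool.Agent.Lib.Z2.Fo.Ac

/-! C45, forcing part: assembly (MP_8dbd20_lc) -/

namespace Pool.Agent.Lib.Z2

theorem sTr : S_Tr := tTr
theorem sRefl : S_Refl := tRefl
theorem sTrans : S_Trans := tTrans sTr
theorem sSame : S_Same := tSame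
theorem sRes : S_Res := tRes
theorem sAmal : S_Amal := tAmal sRes
theorem sTriv : S_Triv := tTriv
theorem sExt : S_Ext := tExt
theorem sFin : S_Fin := tFin
theorem sMap : S_Map := tMap
theorem sFilt : S_Filt := tFilt
theorem sInn : S_Inn := tInn
theorem sSg : S_Sg := tSg sFilt
theorem sUb : S_Ub := tUb sFin
theorem sIc : S_Ic := tIc
theorem sLe : S_Le := tLe sSg sUb sIc
theorem sCdc : S_Cdc := tCdc sFin
theorem sEnt : S_Ent := tEnt sIc sCdc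
theorem sSup : S_Sup := tSup sInn sIc sCdc sEnt
theorem sIdl : S_Idl := tIdl sInn sSup
theorem sResD : S_ResD := tResD sFilt sInn sIc
theorem sFrcD : S_FrcD := tFrcD sIc sLe sCdc sEnt sIdl
theorem sGcomp : S_Gcomp := tGcomp
theorem sPicM : S_PicM := PicM
theorem sPinE : S_PinE := tPinE sCdc sPicM
theorem sPinU : S_PinU := tPinU sMap sInn sCdc sGcomp
theorem sNmA : S_NmA := tNmA sPinE sPinU
theorem sFrcC : S_FrcC := tFrcC
theorem sFrcA : S_FrcA := tFrcA sPicM sPinE sNmA sFrcC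
theorem sFrcFx : S_FrcFx := tFrcFx sPinE sFrcC sFrcA
theorem sPikB : S_PikB := tPikB
theorem sPikD : S_PikD := tPikD sInn
theorem sPikA : S_PikA := tPikA sGcomp sPinU sPikB sPikD
theorem sIUn : S_IUn := tIUn
theorem sIFin : S_IFin := tIFin sFin
theorem sSupM : S_SupM := tSupM
theorem sMono : S_Mono := tMono sTrans
theorem sDens : S_Dens := tDens sRefl sTrans sMono
theorem sHomK : S_HomK := tHomK sInn sPikB sPikA
theorem sHom : S_Hom := tHom sRefl sTrans sRes sAmal sPicM sFrcFx sMono sDens sHomK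
theorem sGenEx : S_GenEx := tGenEx sRefl sTrans sCdc
theorem sTruth : S_Truth := Truth sRefl sTrans sMono sDens sFrcD sGcomp sCdc sIc sLe sEnt sIdl
theorem sChk : S_Chk := tChk sRefl sTriv sCdc sGcomp
theorem sNms : S_Nms := tNms sIUn sIFin sSupM sChk
theorem sFmL : S_FmL := tFmL
theorem sComp : S_Comp := Comp sRefl sTrans sSame sRes sFrcD sGcomp sCdc sIc sLe sEnt sSup sHom sTruth
theorem sZ2 : S_Z2 := tZ2 sNms sFmL sComp
theorem sGenR : S_GenR := tGenR sIc sCdc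
theorem sPairF : S_PairF := tPairF
theorem sNTs : S_NTs := tNTs sComp sPairF
theorem sNoL : S_NoL := tNoL sSame sRes sIc sCdc sSup sFrcD sHom sGenEx sTruth sChk sPairF
theorem sPres : S_Pres := Pres sMono sFrcD sGcomp sCdc sIc sLe sGenEx sTruth sChk sPairF
theorem sPresT : S_PresT := tPresT sPres
theorem sSwp : S_Swp := tSwp sInn sPikB sPikA
theorem sAcK : S_AcK := tAcK sPikB
theorem sAcD : S_AcD := tAcD sInn sIc sCdc sSup sIdl sGcomp sTriv sPikD sPinU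
theorem sAcT : S_AcT := tAcT sInn sPicM sPikA sAcK sAcD
theorem sAcN1 : S_AcN1 := tAcN1 sCdc sPicM sAcD sAcT
theorem sAcN2 : S_AcN2 := tAcN2 sCdc sPinE sAcD sAcT
theorem sAcA : S_AcA := tAcA sInn sIc sCdc sSup sIdl sResD sFrcD
theorem sAcP : S_AcP := tAcP sTrans sSame sRes sCdc sPicM sPinE sNmA sFrcFx sPikB sIUn sIFin sSupM sSwp sAcK sAcT
theorem sAcM : S_AcM := tAcM sTrans sInn sLe sIc sCdc sGcomp sPicM sNmA sFrcFx sPikB sTruth sAcK sAcD sAcT sAcN1 sAcN2 sAcA sAcP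
theorem sAc (hB : S_Brg) : S_Ac := tAc sNms sFmL sZ2 hB sAcM

end Pool.Agent.Lib.Z2
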