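import Pool.Agent.Lib.Z2.Fo.SpecP

/-!
# C45, forcing part: Spec A (automorphisms), H (homogeneity), G (generic filters), C (comprehension)
-/

namespace Pool.Agent.Lib.Z2

/-- Image (= preimage) of a set of nodes under the involution `π`. -/
def imT (π : Node → Node) (T : Set ℕ) : Set ℕ := {k | ∃ s : Node, Encodable.encode s = k ∧ inn T (π s)}

/-- Automorphisms of the tree of nodes which respect the ideal of supports. -/
structure Aut (S : Str) (π : Node → Node) : Prop where
  nil : π [] = []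
  tl : ∀ s, (π s).tail = π s.tail
  inv : ∀ s, π (π s) = s
  df : DF S π
  idl : ∀ T, IsI S T → IsI S (imT π T)

/-- Action on conditions. -/
def pic (π : Node → Node) (p : Cond) : Cond :=
  (((nds p).map π, ht p, (bts p).map (fun x => (π x.1, x.2))), fs p)

/-- Action on names. -/
def pin (π : Node → Node) (σ : Set ℕ) : Set ℕ :=
  {k | ∃ p : Cond, sec σ k.unpair.1 = cdc p ∧ k.unpair.2 ∈ cdc (pic π p)}

open Classical in
/-- The automorphism which leaves `T` fixed and changes the label at the exit from `T` at `s` by `κ s`. -/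
noncomputable def pik (T : Set ℕ) (κ : Node → ℕ → ℕ) : Node → Node
  | [] => []
  | a :: s => (if inn T s then κ s a else a) :: pik T κ s

/-- `κ` consists of involutions of the labels, fixing the labels of the children in `T` and all labels in
high columns. -/
def Kap (T : Set ℕ) (κ : Node → ℕ → ℕ) : Prop :=
  (∀ s a, inn T s → κ s (κ s a) = a) ∧ (∀ s a, inn T (a :: s) → κ s a = a) ∧
  ∀ s, inn T s → ∃ m, ∀ a : ℕ, m ≤ a.unpair.1 → κ s a = a

/-- (PicM) The action on conditions. Proof. Direct from `nil`, `tl`, `inv`; e.g. `s ∈ (nds p).map π ↔ π s ∈ nds p` by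
`inv`; `(s, k) ∈ bts (pic π p) ↔ (π s, k) ∈ bts p`; `pic π (pic π p) = p` by `List.map_map`, `List.map_id`
(`π ∘ π = id`); `s ≠ [] ↔ π s ≠ []` (`nil`, `inv`). `IsCond`: `s ∈ nds (pic π p)` gives `π s ∈ nds p`, so
`(π s).tail = π s.tail ∈ nds p`. `inn (imT π T) s ↔ inn T (π s)` by `Encodable.encode_injective`. -/
def S_PicM : Prop := ∀ (S : Str) (Gm : Set ℕ → Set ℕ) (π : Node → Node), π [] = [] →
  (∀ s, (π s).tail = π s.tail) → (∀ s, π (π s) = s) →
  (∀ T s, inn (imT π T) s ↔ inn T (π s)) ∧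
  ∀ p : Cond, pic π (pic π p) = p ∧ ht (pic π p) = ht p ∧ fs (pic π p) = fs p ∧
    (∀ s, s ∈ nds (pic π p) ↔ π s ∈ nds p) ∧ (∀ s k, (s, k) ∈ bts (pic π p) ↔ (π s, k) ∈ bts p) ∧
    (∀ s, ub (pic π p) s = ub p (π s)) ∧ (∀ s, ubp (pic π p) s = ubp p (π s)) ∧
    (IsCond S p → IsCond S (pic π p)) ∧ (∀ T, InT T p → InT (imT π T) (pic π p)) ∧
    (∀ q, Le Gm q p → Le Gm (pic π q) (pic π p)) ∧
    (∀ T, (∀ s, inn T s → π s = s) → InT T p → IsCond S p → pic π p = p) ∧
    ∀ T, TC T → (∀ s, inn T s → π s = s) → res T (pic π p) = res T p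

/-- (PinE) The entries of `pin π σ`. Proof. `sec (pin π σ) j = cdc (pic π p)` if `sec σ j = cdc p`
(`cdc` injective, `S_Cdc`), and `sec (pin π σ) j = ∅`, which is not a `cdc q`, if `sec σ j` is not a `cdc p`.
So `Ent S (pin π σ) n q` iff `IsCond S q` and some `i, p` with `sec σ (n,i) = cdc p`, `cdc (pic π p) = cdc q`, i.e.
`q = pic π p`, `p = pic π q`. Supports: immediate from this. -/
def S_PinE : Prop := ∀ (S : Str) (π : Node → Node), π [] = [] →
  (∀ s, (π s).tail = π s.tail) → (∀ s, π (π s) = s) →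
  (∀ σ n q, Ent S (pin π σ) n q ↔ Ent S σ n (pic π q)) ∧
  (∀ σ T, Sup S σ T → Sup S (pin π σ) (imT π T)) ∧
  ∀ σ T, (∀ s, inn T s → π s = s) → Sup S σ T → ∀ n q, Ent S (pin π σ) n q ↔ Ent S σ n q

/-- (PinU) Definable families of automorphisms act definably. Proof. `DF` of `pic`: `S_Map` twice. `DF` of `pin`:
by the second part of `S_Gcomp` it suffices that
`{(a, k) | ∃ p : Cond, sec (σ a) k.unpair.1 = cdc p ∧ k.unpair.2 ∈ cdc (pic (π a) p)}` is definable; `p` is valid
since `cdc p = sec (σ a) _ ∈ U` (`S_Cdc`), so `Dfn.exV`. `imT`: the same with `Dfn.exN`. -/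
def S_PinU : Prop := ∀ (S : Str) [Good S] (Gm : Set ℕ → Set ℕ), Uni S Gm →
  ∀ (α : Type) [Shp α] (π : α → Node → Node), DF S (fun x : α × Node => π x.1 x.2) →
  (∀ p : α → Cond, DF S p → DF S (fun a => pic (π a) (p a))) ∧
  (∀ σ : α → Set ℕ, DF S σ → DF S (fun a => pin (π a) (σ a))) ∧
  ∀ T : α → Set ℕ, DF S T → DF S (fun a => imT (π a) (T a))

/-- (Nmπ) Names are mapped to names. Proof. `pin π σ ∈ U`: `S_PinU` with `α = Unit`-like constant family: use
`α = Set ℕ`, `π` constant (`DF` of `fun x : Set ℕ × Node => π x.2`), `σ = id`: then `DF.1` gives validity. The support: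
`Aut.idl`, `S_PinE`. -/
def S_NmA : Prop := ∀ (S : Str) [Good S] (Gm : Set ℕ → Set ℕ), Uni S Gm → ∀ π, Aut S π →
  (∀ σ ∈ S.U, pin π σ ∈ S.U) ∧ ∀ σ, Nm S σ → Nm S (pin π σ)

/-- (FrcC) Forcing depends only on the entries of the names. Proof. Induction on `φ`; `allS`: the assignments
`ex σ τ` and `ex σ τ'` have the same entries. -/
def S_FrcC : Prop := ∀ (S : Str) (Gm : Set ℕ → Set ℕ) (φ : Fm) (p : Cond) (e : ℕ → ℕ) (τ τ' : ℕ → Set ℕ),
  (∀ i n w, Ent S (τ i) n w ↔ Ent S (τ' i) n w) → (Frc S Gm φ p e τ ↔ Frc S Gm φ p e τ')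

/-- (FrcA) Invariance of forcing. Proof. Induction on `φ`.
`mem`: given `q ≤ pic π p`: `pic π q ≤ pic π (pic π p) = p`, so there are `r ≤ pic π q` and an entry `w` of `τ i` at
`t.val e` with `r ≤ w`; then `pic π r ≤ q` and `pic π w` is an entry of `pin π (τ i)` (`S_PinE`), `pic π r ≤ pic π w`.
`neg`: if `q ≤ pic π p` forces `φ (pin τ)` then by induction `pic π q ≤ p` forces `φ` at `pin π (pin π τ)`, which has
the same entries as `τ` (`S_PinE` twice), so `S_FrcC` gives a contradiction.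
`allS`: for a name `σ`, `pin π σ` is a name (`S_NmA`), so `p` forces `φ` at `ex (pin π σ) τ`; by induction
`pic π p` forces `φ` at `pin π` of it, which has the same entries as `ex σ (pin π τ)`. -/
def S_FrcA : Prop := ∀ (S : Str) [Good S] (Gm : Set ℕ → Set ℕ), Uni S Gm → ∀ π, Aut S π →
  ∀ (φ : Fm) (p : Cond) (e : ℕ → ℕ) (τ : ℕ → Set ℕ), IsCond S p →
  Frc S Gm φ p e τ → Frc S Gm φ (pic π p) e (fun i => pin π (τ i))

/-- (FrcFx) Consequence: names supported in a fixed set. Proof. `S_FrcA`, `S_FrcC`, third part of `S_PinE`;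
`pin π (ex σ τ i) = ex (pin π σ) (fun i => pin π (τ i)) i` by cases on `i`. -/
def S_FrcFx : Prop := ∀ (S : Str) [Good S] (Gm : Set ℕ → Set ℕ), Uni S Gm → ∀ π, Aut S π →
  ∀ (T : Set ℕ), (∀ s, inn T s → π s = s) →
  ∀ (φ : Fm) (p : Cond) (e : ℕ → ℕ) (τ : ℕ → Set ℕ), IsCond S p → (∀ i, Sup S (τ i) T) →
  (Frc S Gm φ p e τ → Frc S Gm φ (pic π p) e τ) ∧
  ∀ σ, Frc S Gm φ p e (ex σ τ) → Frc S Gm φ (pic π p) e (ex (pin π σ) τ)

/-- (PikB) Basic properties of `pik`. Proof. `pik T κ s = s` for `s ∈ T` by induction on `s` (`T` closed under parents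
and the second clause of `Kap`). If `s ∉ T` then `pik T κ s ∉ T`: by induction: `s = a :: t`; if `t ∉ T` then
`pik T κ t ∉ T` so its child is not in `T` (closure under parents); if `t ∈ T` and `κ t a :: t ∈ T` then
`κ t a = κ t (κ t a) = a`, so `a :: t ∈ T`. Note `s ≠ []` since `[] ∈ T`. Involution: induction. Exit: if `s ∉ T`
there are `u`, `a`, `t` with `s = u ++ a :: t`, `t ∈ T`, `a :: t ∉ T` (the longest suffix in `T`), and
`pik T κ s = u ++ κ t a :: t`. -/
def S_PikB : Prop := ∀ (T : Set ℕ) (κ : Node → ℕ → ℕ), inn T [] → TC T → Kap T κ →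
  pik T κ [] = [] ∧ (∀ s, (pik T κ s).tail = pik T κ s.tail) ∧ (∀ s, pik T κ (pik T κ s) = s) ∧
  (∀ s, inn T s → pik T κ s = s) ∧ (∀ s, ¬ inn T s → ¬ inn T (pik T κ s)) ∧
  (∀ s, ¬ inn T s → ∃ (u : List ℕ) (a : ℕ) (t : Node), s = u ++ a :: t ∧ inn T t ∧ ¬ inn T (a :: t) ∧
    pik T κ s = u ++ κ t a :: t)

/-- (PikD) Definability of `pik`, in families. Proof. `pik T κ s = s'` iff `s.length = s'.length` and for all `r r' t t'`
and `a a'` with `r ++ a :: t = s`, `r' ++ a' :: t' = s'`, `r.length = r'.length`: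
`a' = if inn T t then κ t a else a` (induction on `s`). All quantifiers are over primitive recursive types.
`Primrec.list_append`, `Primrec.list_cons`, `Primrec.list_length`, `S_Inn`, `DF.ite`. -/
def S_PikD : Prop := ∀ (S : Str) [Good S] (α : Type) [Shp α] (T : α → Set ℕ) (κ : α → Node → ℕ → ℕ),
  DF S T → DF S (fun x : α × Node × ℕ => κ x.1 x.2.1 x.2.2) →
  DF S (fun x : α × Node => pik (T x.1) (κ x.1) x.2)

/-- (PikA) `pik T κ` is an automorphism. Proof. `nil`, `tl`, `inv`: `S_PikB`. `df`: `S_PikD`. `idl`: let `T'` be in the ideal,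
`π = pik T κ`, `T'' = imT π T'`; `inn T'' s ↔ inn T' (π s)`. In `U`: `S_PinU` (constant family). Root, parents: clear.
Columns at `s`: if `s ∉ T`: `π (a :: s) = a :: π s`, so the bound of `T'` at `π s` works. If `s ∈ T`: let `m` be the bound of
`T'` at `s` and `m'` the bound of `Kap` at `s`; if `a :: s ∈ T''` then `κ s a :: s ∈ T'`; if `m' ≤ a.unpair.1` then
`κ s a = a`, so `a.unpair.1 < m`. So `max m m'` is a bound. Well-foundedness: for `B ∈ U` inside `T''` nonempty put
`B' = imT π B ∈ U`; `B'` is inside `T'` and nonempty, so there is `s'` in `B'` with no child in `B'`; then `π s'` is in `B` and has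
no child in `B`: if `a :: π s' ∈ B`, put `x = π (a :: π s')`; `x.tail = π (π s') = s'`, `x ≠ []`, so `x = b :: s'` and
`π x = a :: π s' ∈ B`, so `x ∈ B'`: contradiction. -/
def S_PikA : Prop := ∀ (S : Str) [Good S] (Gm : Set ℕ → Set ℕ), Uni S Gm → ∀ (T : Set ℕ) (κ : Node → ℕ → ℕ),
  IsI S T → Kap T κ → DF S (fun x : Node × ℕ => κ x.1 x.2) → Aut S (pik T κ)

/-! ### I: the ideal -/

/-- (IUn) The ideal is closed under finite unions. Proof. `T ∪ T' ∈ U` (`Uni.comp`, or `Good`). Columns: `max`.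
Well-foundedness: let `B ∈ U` be nonempty, inside `T ∪ T'`, and suppose every element has a child in `B`. If `B` is
inside `T`: contradiction. Otherwise `B' = B \ T` (in `U`) is nonempty; an element `s` of `B'` has a child in `B`, which is not in `T`
(closure under parents), so in `B'`; and `B'` is inside `T'`: contradiction. -/
def S_IUn : Prop := ∀ (S : Str) [Good S], ∀ T T', IsI S T → IsI S T' → IsI S (T ∪ T')

/-- (IFin) Finite sets of nodes are contained in supports. Proof. `T` = codes of the suffixes of the members of `L` (and `[]`);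
finite, so in `U` (`S_Fin`). Closed under parents, finitely many columns (finite), and a nonempty set `B` inside `T`
has an element of maximal length (finite), which has no child in `B`. -/
def S_IFin : Prop := ∀ (S : Str) [Good S] (L : List Node),
  ∃ T, IsI S T ∧ (∀ s ∈ L, inn T s) ∧ ∀ s, inn T s → s = [] ∨ ∃ t ∈ L, s <:+ t

/-- (SupM) Monotonicity of supports. Proof. Immediate. -/
def S_SupM : Prop := ∀ (S : Str) (σ T T' : Set ℕ), Sup S σ T → (∀ s, inn T s → inn T' s) → Sup S σ T'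

/-! ### H: forcing lemmas -/

/-- (Mono) Proof. Induction on `φ`; `S_Trans` for `mem` and `neg`. -/
def S_Mono : Prop := ∀ (S : Str) (Gm : Set ℕ → Set ℕ) (φ : Fm) (p q : Cond) (e : ℕ → ℕ) (τ : ℕ → Set ℕ),
  IsCond S p → IsCond S q → Le Gm q p → Frc S Gm φ p e τ → Frc S Gm φ q e τ

/-- (Dens) If it is dense below `p` to force `φ` then `p` forces `φ`. Proof. Induction on `φ`. `eq`, `lt`: use `q = p`
(`S_Refl`). `mem`: given `q ≤ p`, take `r ≤ q` forcing `mem`, apply it to `r` itself. `neg`: if `q ≤ p` forces `φ`, take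
`r ≤ q` forcing `neg φ`; `r` forces `φ` by `S_Mono`: contradiction with `r ≤ r`. `and`, `allN`, `allS`: induction. -/
def S_Dens : Prop := ∀ (S : Str) (Gm : Set ℕ → Set ℕ) (φ : Fm) (p : Cond) (e : ℕ → ℕ) (τ : ℕ → Set ℕ),
  IsCond S p → (∀ q, IsCond S q → Le Gm q p → ∃ r, IsCond S r ∧ Le Gm r q ∧ Frc S Gm φ r e τ) →
  Frc S Gm φ p e τ

/-- (HomK) The swap used for homogeneity. For `T` in the ideal and a condition `q` there is an automorphism `π` fixing `T`
pointwise such that a node outside `T` which is in `π q` is not in `p`.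
Proof. Let `m` be larger than all columns of all labels occurring in nodes of `p` and `q`, and larger than the columns of
the children in `T` of all `s ∈ T` such that `q` has a node `a :: s` (finitely many `s`). Put
`κ s a = pair m a` if `a :: s ∈ nds q`, `a :: s ∉ T`; `κ s a = a.unpair.2` if `a.unpair.1 = m`,
`a.unpair.2 :: s ∈ nds q`, `a.unpair.2 :: s ∉ T`; `κ s a = a` otherwise. `Kap T κ`: in the first case
`a.unpair.1 < m`. Labels of `T`-children of `s` are fixed: the second case is impossible for them, because if `q` has a node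
`b :: s` and `s ∈ T` then the `T`-children of `s` have columns `< m`. Labels in columns `> m` are fixed. `κ` is
definable (`Dfn.pmem`, `S_Inn`, `DF.ite`). `π = pik T κ` (`S_PikA`). If `s ∉ T`, `π s ∈ nds q`, `s ∈ nds p`: by `S_PikB`
`s = u ++ a :: t`, `t ∈ T`, `a :: t ∉ T`, `π s = u ++ κ t a :: t`; so `κ t a :: t ∈ nds q` (parents, `IsCond`), and
`κ t a :: t ∉ T` (otherwise `a = κ t (κ t a) = κ t a`), so `a = κ t (κ t a) = pair m (κ t a)` has column `m`, but
`a` is a label of a node of `p`: contradiction. -/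
def S_HomK : Prop := ∀ (S : Str) [Good S] (Gm : Set ℕ → Set ℕ), Uni S Gm → ∀ (T : Set ℕ) (p q : Cond),
  IsI S T → IsCond S p → IsCond S q →
  ∃ π, Aut S π ∧ (∀ s, inn T s → π s = s) ∧ ∀ s, s ∈ nds p → π s ∈ nds q → inn T s

/-- (Hom) Homogeneity. Proof. Otherwise, by `S_Dens` (and `S_Mono`), some `q ≤ res T p` forces `neg φ`. Take `π` from
`S_HomK`. `q' = pic π q` forces `neg φ` (`S_FrcFx`), `q' ≤ pic π (res T p) = res T p` (`S_PicM`), and the common nodes
of `q'` and `p` are in `T`. By `S_Amal` `jnc q' p` is a common extension of `q'` and `p`, it forces `φ` and `neg φ`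
(`S_Mono`): contradiction. -/
def S_Hom : Prop := ∀ (S : Str) [Good S] (Gm : Set ℕ → Set ℕ), Uni S Gm → ∀ (T : Set ℕ) (p : Cond),
  IsI S T → IsCond S p → ∀ (φ : Fm) (e : ℕ → ℕ) (τ : ℕ → Set ℕ), (∀ i, Sup S (τ i) T) →
  Frc S Gm φ p e τ → Frc S Gm φ (res T p) e τ

/-! ### G: generic filters -/

/-- (GenEx) Existence of generic filters. Proof. `S.Pm = S.U` is countable, so `dfn_countable` lists the definable
predicates `D n` on `Cond`. Choose `p_0 ≥ p_1 ≥ ...` with `p_{n+1} ≤ p_n` and `D n p_{n+1}` if some condition below `p_n` is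
in `D n`. `G = {q | IsCond S q ∧ ∃ n, p_n ≤ q}` (`S_Refl`, `S_Trans`; conditions are valid, `S_Cdc`). -/
def S_GenEx : Prop := ∀ (S : Str) [Good S] (Gm : Set ℕ → Set ℕ), Uni S Gm → ∀ p, IsCond S p →
  ∃ G, Gen S Gm G ∧ G p

/-- (Truth) The truth lemma. Proof. Induction on `φ`.
`eq`, `lt`: `G` is nonempty (`Gen.meet` with `D = True`).
`mem`: (→) an entry `w ∈ G` forces `mem`: for `q ≤ w` take `r = q`. (←) if `p ∈ G` forces it, let
`D r` = '`r` is below an entry `w` of `τ i` at `t.val e`, or no condition `q ≤ r` is `≤ p`'; `D` is definable (with the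
parameters `p`, `τ i`: constants are definable by `S_Gcomp`) and dense; `r ∈ G ∩ D` is compatible with `p` in `G`, so `r ≤ w`
and `w ∈ G` by `Gen.up`.
`neg`: `D = {r | r forces φ or r forces neg φ}` is dense and definable (`S_FrcD`, all `e`, `τ` constant); so some `r ∈ G`
decides; two elements of `G` have a common extension in `G`, `S_Mono`.
`allN`, `allS`: if all instances hold: `D = {r | r forces allN φ, or r forces neg φ for some instance}`; it is dense: if `p` does not
force `allN φ`, some instance is not forced, so by `S_Dens` (contrapositive) and `S_Mono` some `q ≤ p` forces the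
negation. The second alternative contradicts (induction, as in `neg`) that the instance holds in the model. Conversely clear.
For `allS` note `evl S G (ex σ τ i) = ex (evl S G σ) (fun i => evl S G (τ i)) i`, and the reals of `NN S G` are the values
of names. -/
def S_Truth : Prop := ∀ (S : Str) [Good S] (Gm : Set ℕ → Set ℕ), Uni S Gm → ∀ G, Gen S Gm G →
  ∀ (φ : Fm) (e : ℕ → ℕ) (τ : ℕ → Set ℕ), (∀ i, Nm S (τ i)) →
  (φ.Sat (NN S G) e (fun i => evl S G (τ i)) ↔ ∃ p, G p ∧ Frc S Gm φ p e τ)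

/-- (Chk) Check names. Proof. `chk X`: `sec (chk X) (pair n i) = cdc triv` if `n ∈ X`, `∅` otherwise, i.e.
`chk X = {k | k.unpair.1.unpair.1 ∈ X ∧ k.unpair.2 ∈ cdc triv}`. `triv ∈ G` (`Gen.meet` with `D = True`,
`S_Triv`, `Gen.up`). Definability: `S_Gcomp`, `S_Cdc`. -/
def S_Chk : Prop := ∀ (S : Str) [Good S] (Gm : Set ℕ → Set ℕ), Uni S Gm → ∃ chk : Set ℕ → Set ℕ,
  DF S chk ∧ (∀ X T, Sup S (chk X) T) ∧ (∀ X n w, Ent S (chk X) n w ↔ n ∈ X ∧ w = triv) ∧
  ∀ G, Gen S Gm G → ∀ X, evl S G (chk X) = X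

/-- (Nms) Bookkeeping. Proof. A real of `NN` is the value of a name; `NT T ⊆ NN` for `T` in the ideal; `U ⊆ NT T` by
check names; `NT T ⊆ NT T'` by `S_SupM`; two reals have a common support by `S_IUn`. -/
def S_Nms : Prop := ∀ (S : Str) [Good S] (Gm : Set ℕ → Set ℕ), Uni S Gm → ∀ G, Gen S Gm G →
  (∀ T, IsI S T → ∀ X ∈ NT S G T, X ∈ NN S G) ∧ (∀ X ∈ NN S G, ∃ T, IsI S T ∧ X ∈ NT S G T) ∧
  (∀ T, ∀ X ∈ S.U, X ∈ NT S G T) ∧
  (∀ T T', (∀ s, inn T s → inn T' s) → ∀ X ∈ NT S G T, X ∈ NT S G T') ∧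
  ∀ (k : ℕ) (E : ℕ → Set ℕ), (∀ i, E i ∈ NN S G) → ∃ T, IsI S T ∧ ∀ i < k, E i ∈ NT S G T

/-- (FmL) A formula depends on finitely many variables. Proof. Induction on `φ`. -/
def S_FmL : Prop := ∀ φ : Fm, ∃ k : ℕ, ∀ (M : Set (Set ℕ)) (e e' : ℕ → ℕ) (E E' : ℕ → Set ℕ),
  (∀ i < k, e i = e' i) → (∀ i < k, E i = E' i) → (φ.Sat M e E ↔ φ.Sat M e' E')

/-! ### C: comprehension -/

/-- (Comp) Comprehension with supports. Proof. Choose `τ i` in `U` supported in `T` with `E i = evl S G (τ i)` (names).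
For `j = pair n t` let `P j X` = '`X = cdc w` for some `w` with `IsCond S w`, `InT T w`, `encode w.1 = t`,
`Frc S Gm φ w (ex n e) τ`' (definable: `S_FrcD` with `e`, `τ` constants, `S_Cdc`, `S_Sup`, `Dfn.exV`). Let `A` be the real of
`Uni.ac` and `ρ = {k | P k.unpair.1 (sec A k.unpair.1) ∧ k.unpair.2 ∈ sec A k.unpair.1}`, in `U` by `Uni.comp`. So `sec ρ j = sec A j`
if `P j (sec A j)`, else `∅`. The entries of `ρ` at `n` are conditions `w` in `T` forcing `φ` at `n`, and for every
condition `w'` in `T` forcing `φ` at `n` there is an entry `w` at `n` with `w.1 = w'.1`. `ρ` is supported in `T`.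
Claim `evl S G ρ = {n | ...}`. (⊆) an entry in `G` forces `φ` (`S_Truth`). (⊇) let `φ` hold at `n`.
`D = {q | q ≤ some entry of ρ at n, or q forces neg φ}` is definable, and dense: if `q` does not force `neg φ` take `q' ≤ q` forcing `φ`;
by `S_Hom` `res T q'` forces `φ`; it is in `T` (`S_Res`); let `w` be the entry with `w.1 = (res T q').1`. `w` and `q'` have
the same height and the same bits on common nodes (nodes of `w` are nodes of `res T q'`), so they are compatible
(`S_Same`), and the common extension is in `D`. So some `q ∈ G ∩ D`; `q` cannot force `neg φ` by `S_Truth`, so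
`q ≤ w`, `w ∈ G`, `n ∈ evl S G ρ`. -/
def S_Comp : Prop := ∀ (S : Str) [Good S] (Gm : Set ℕ → Set ℕ), Uni S Gm → ∀ G, Gen S Gm G → ∀ T, IsI S T →
  ∀ (φ : Fm) (e : ℕ → ℕ) (E : ℕ → Set ℕ), (∀ i, E i ∈ NT S G T) →
  {n | φ.Sat (NN S G) (ex n e) E} ∈ NT S G T

/-- (Z2) Proof. By `S_FmL` replace `E i` by `∅ ∈ U` for `i ≥ k` and use a common support (`S_Nms`) and `S_Comp`. -/
def S_Z2 : Prop := ∀ (S : Str) [Good S] (Gm : Set ℕ → Set ℕ), Uni S Gm → ∀ G, Gen S Gm G → IsZ2 (NN S G)

/-- (GenR) The generic reals. For a node `s`, `gen G s ∈ NT S G T` for every `T` in the ideal with `s ∈ T`.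
Proof. Let `L(s)` be the suffixes of `s`. For a type `t` all of whose nodes are suffixes of `s` let `p_t = (t, [])`. The name:
`sec ρ (pair k i) = cdc (t, [])` if `encode t = i`, `IsCond S (t, [])`, all nodes of `t` are suffixes of `s`, `(s, k)` is
a bit of `t`; `∅` otherwise (in `U` by `Uni.comp`). If `p ∈ G`, `(s, k) ∈ bts p`: let `p'` be `p` with the nodes and bits
restricted to the suffixes of `s` and `fs = []`: `p ≤ p'`, so `p' ∈ G`, and `p'` is an entry. The converse is clear. Suffixes of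
`s` are in `T` by closure under parents. -/
def S_GenR : Prop := ∀ (S : Str) [Good S] (Gm : Set ℕ → Set ℕ), Uni S Gm → ∀ G, Gen S Gm G → ∀ T, IsI S T →
  ∀ s, inn T s → gen G s ∈ NT S G T

end Pool.Agent.Lib.Z2
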