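import Pool.Agent.Lib.Z2.Fo.Defs

/-!
# C45, forcing part: Spec P (order), F (definability) (MP_8dbd20_lc)

Every `S_X : Prop` is one module: `theorem X (used statements) : S_X`.
READ FIRST: Z2/Base, Shape, Dfn, Ops (closure rules, aesop rules), Fo/Defs.
-/

namespace Pool.Agent.Lib.Z2

/-- `T` is closed under parents. -/
def TC (T : Set ℕ) : Prop := ∀ s : Node, inn T s → inn T s.tail

/-- The trivial condition. -/
def triv : Cond := (([], 0, []), [])

/-- (Tr) elementary facts about `tr` and `sg`. Proof. `j ∈ tr Y k ↔ j < k ∧ j ∈ Y` (membership in a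
filter of `List.range k`); if the two filters agree as lists they have the same members; conversely
if `Y, Y'` agree below `k` then `List.filter_congr`. `sg`: `Nat.pair_eq_pair`,
`Encodable.encode_injective`, `Nat.left_le_pair`. -/
def S_Tr : Prop :=
  (∀ (Y Y' : Set ℕ) (k : ℕ), tr Y k = tr Y' k ↔ ∀ j < k, (j ∈ Y ↔ j ∈ Y')) ∧
  (∀ (k k' : ℕ) (z z' y y' : Set ℕ), sg k z y = sg k' z' y' ↔
    k = k' ∧ (∀ j < k, (j ∈ z ↔ j ∈ z')) ∧ ∀ j < k, (j ∈ y ↔ j ∈ y')) ∧
  ∀ (k : ℕ) (z y : Set ℕ), k ≤ sg k z y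

/-- (Refl) Proof. Only the last clause of `Le` needs an argument: `(s, k) ∈ bts p` gives `k < ht p`. -/
def S_Refl : Prop := ∀ (S : Str) (Gm : Set ℕ → Set ℕ) (p : Cond), IsCond S p → Le Gm p p

/-- (Trans) Proof. Last clause: `s ∈ nds p`, `(s, k) ∈ bts r`, `ht p ≤ k`, `c ∈ fs p`.
If `ht q ≤ k` use the last clause of `Le r q`. If `k < ht q` then `(s, k) ∈ bts q` by the third clause
of `Le r q`, so `sg k (ub q s) (ubp q s) ∉ Gm c` by `Le q p`; and
`sg k (ub r s) (ubp r s) = sg k (ub q s) (ubp q s)` by `S_Tr`: for `j < k < ht q` the third clause of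
`Le r q` applies to `s` and to `s.tail` (which is in `nds p` by `IsCond S p`, hence in `nds q`). -/
def S_Trans : Prop := ∀ (S : Str) (Gm : Set ℕ → Set ℕ) (p q r : Cond),
  IsCond S p → IsCond S q → IsCond S r → Le Gm r q → Le Gm q p → Le Gm r p

/-- (Same) Two conditions of the same height whose bits agree on the common nodes are compatible.
Proof. The last clauses are empty since all bits of `jnc p q` are below `ht p = ht q`; third clause for
`s ∈ nds p`: `(s, k) ∈ bts q` implies `s ∈ nds q`, so `s` is a common node. -/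
def S_Same : Prop := ∀ (S : Str) (Gm : Set ℕ → Set ℕ) (p q : Cond), IsCond S p → IsCond S q →
  ht p = ht q → (∀ s ∈ nds p, s ∈ nds q → ∀ k, ((s, k) ∈ bts p ↔ (s, k) ∈ bts q)) →
  IsCond S (jnc p q) ∧ Le Gm (jnc p q) p ∧ Le Gm (jnc p q) q

/-- (Res) Restriction to `T`. Proof. Immediate from the definitions; for the monotonicity note that for
`s ∈ T` (then also `s.tail ∈ T`) `ub (res T q) s = ub q s` and `ubp (res T q) s = ubp q s`.
If `InT T p` then both filters keep everything (`List.filter_eq_self`; the nodes of `bts p` are in `nds p`). -/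
def S_Res : Prop := ∀ (S : Str) (Gm : Set ℕ → Set ℕ) (T : Set ℕ) (p : Cond), TC T → IsCond S p →
  IsCond S (res T p) ∧ InT T (res T p) ∧ Le Gm p (res T p) ∧ ht (res T p) = ht p ∧ fs (res T p) = fs p ∧
  (∀ s, s ∈ nds (res T p) ↔ s ∈ nds p ∧ inn T s) ∧
  (∀ s k, (s, k) ∈ bts (res T p) ↔ (s, k) ∈ bts p ∧ inn T s) ∧
  (∀ q, IsCond S q → Le Gm q p → Le Gm (res T q) (res T p)) ∧ (InT T p → res T p = p)

/-- (Amal) The amalgamation. Proof. Put `r = jnc q p`; note `ht p ≤ ht q`. For `s ∈ nds p` with `s ∈ T`: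
`s ∈ nds (res T p)`, so `s ∈ nds q`, and for `k < ht p`: `(s, k) ∈ bts q ↔ (s, k) ∈ bts p`. Hence
`(s, k) ∈ bts p`, `s ∈ T` imply `(s, k) ∈ bts q`.
`IsCond r`: clear (bits of `p` are `< ht p ≤ ht q`). `Le r q`: if `s ∈ nds q`, `(s, k) ∈ bts p` then
`s ∈ nds p` so `s ∈ T` by hypothesis, so `(s, k) ∈ bts q`; no bit of `r` is `≥ ht q`.
`Le r p`: third clause: `s ∈ nds p`, `k < ht p`, `(s, k) ∈ bts q`: then `s ∈ nds q`, so `s ∈ T` and
`(s, k) ∈ bts p`. Last clause: `s ∈ nds p`, `(s, k) ∈ bts r`, `ht p ≤ k`: then `(s, k) ∈ bts q`, `s ∈ T`, and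
`Le q (res T p)` gives `sg k (ub q s) (ubp q s) ∉ Gm c`; and `ub r s = ub q s`, `ubp r s = ubp q s` since
`s, s.tail ∈ T`. The last two claims: shown above. -/
def S_Amal : Prop := ∀ (S : Str) (Gm : Set ℕ → Set ℕ) (T : Set ℕ) (p q : Cond), TC T →
  IsCond S p → IsCond S q → Le Gm q (res T p) → (∀ s ∈ nds q, s ∈ nds p → inn T s) →
  IsCond S (jnc q p) ∧ Le Gm (jnc q p) q ∧ Le Gm (jnc q p) p ∧
  (∀ s, inn T s → (s ∈ nds (jnc q p) ↔ s ∈ nds q)) ∧
  ∀ s k, inn T s → ((s, k) ∈ bts (jnc q p) ↔ (s, k) ∈ bts q)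

/-- (Triv) The trivial condition. Proof. Immediate. -/
def S_Triv : Prop := ∀ (S : Str) (Gm : Set ℕ → Set ℕ), IsCond S triv ∧
  (∀ p, IsCond S p → Le Gm p triv) ∧ ∀ T, InT T triv

/-- (Ext) Extending the height and one bit. For `p` with `c`-lists: the zero extension
`((nds p, L, bts p), fs p)` with `ht p ≤ L`. Proof. Immediate (no new bits). -/
def S_Ext : Prop := ∀ (S : Str) (Gm : Set ℕ → Set ℕ) (p : Cond) (L : ℕ), IsCond S p → ht p ≤ L →
  IsCond S ((nds p, L, bts p), fs p) ∧ Le Gm ((nds p, L, bts p), fs p) p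

/-! ### F: definability (over any `Good S`) -/

/-- (Fin) every set of numbers with a primitive recursive characteristic function, in particular every
finite set, belongs to `U`. Proof. `∅ ∈ U` (`Good.ue`), so `univ = ∅ᶜ ∈ U` (`Good.uc`), and
`{n | p n} = prf (fun n => if p n then some 0 else none) univ ∈ U` (`Good.prf_mem`).
Finite sets: `p n = (n ∈ l)` for a list `l`: `PrimrecPred` by induction on `l` (`n = a ∨ n ∈ l`). -/
def S_Fin : Prop := ∀ (S : Str) [Good S],
  (∀ (p : ℕ → Prop) [DecidablePred p], PrimrecPred p → {n | p n} ∈ S.U) ∧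
  ∀ l : List ℕ, {n | n ∈ l} ∈ S.U

/-- (Map) `List.map` with a definable function. Proof. Graph: `(g a).map (f a) = y` iff
`y.length = (g a).length` and for all `i : ℕ` and all `t, t'` with `(g a)[i]? = some t` and
`y[i]? = some t'` we have `f a t = t'` (`Primrec.list_length`, `Primrec.list_getElem?`, `DF.prim`, `DF.prim₂`,
`Dfn.allN` over the primitive recursive types, `Dfn.imp`, `Dfn.eq`). Validity is automatic (`PShp.vl_all`). -/
def S_Map : Prop := ∀ (S : Str) [Good S] (α T T' : Type) [Shp α] [Primcodable T] [Shp T] [PShp T]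
  [Primcodable T'] [Shp T'] [PShp T'] (f : α → T → T') (g : α → List T),
  DF S (fun x : α × T => f x.1 x.2) → DF S g → DF S (fun a => (g a).map (f a))

open Classical in
/-- (Filt) `List.filter` with a definable predicate. Proof. Graph: `(g a).filter (P a) = y` iff there is
`bs : List Bool` of the same length as `g a` with, for all `i` and `t` with `(g a)[i]? = some t`:
`bs[i]? = some true ↔ P a t`, and `y = F (g a) bs` where
`F l bs = ((l.zip bs).filter (fun x => x.2)).map (fun x => x.1)` is primitive recursive; or avoid `zip` by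
`F l bs = (List.range l.length).filterMap (fun i => if bs[i]? = some true then l[i]? else none)`
(`Primrec.listFilterMap`, `Primrec.list_range`). Given the list `bs`, `F (g a) bs = (g a).filter (P a)`. -/
def S_Filt : Prop := ∀ (S : Str) [Good S] (α T : Type) [Shp α] [Primcodable T] [Shp T] [PShp T]
  (P : α → T → Prop) (g : α → List T),
  Dfn S (fun x : α × T => P x.1 x.2) → DF S g → DF S (fun a => (g a).filter (fun t => P a t))

/-- (Inn) Proof. `Dfn.mem` and `DF.enc`. -/
def S_Inn : Prop := ∀ (S : Str) [Good S] (α : Type) [Shp α] (T : α → Set ℕ) (s : α → Node),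
  DF S T → DF S s → Dfn S (fun a => inn (T a) (s a))

/-- (Sg) Proof. `tr`: graph `tr (Y a) (k a) = L` iff (all `j`: `j ∈ L ↔ j < k a ∧ j ∈ Y a`) and `L` is strictly
increasing (for all `i`, `x`, `y`: `L[i]? = some x`, `L[i+1]? = some y` imply `x < y`); two strictly increasing lists
with the same members are equal (`List.Perm.eq_of_pairwise` / `List.eq_of_perm_of_sorted` with
`List.perm_ext_iff_of_nodup`); alternatively use `S_Filt` with `g a = List.range (k a)`
(`Primrec.list_range`). Then `sg` by `DF.natPair` and `DF.enc`. -/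
def S_Sg : Prop := ∀ (S : Str) [Good S] (α : Type) [Shp α] (k : α → ℕ) (z y : α → Set ℕ),
  DF S k → DF S z → DF S y → DF S (fun a => sg (k a) (z a) (y a))

/-- (Ub) Proof. `DF.set`: the values are finite sets, in `U` by `S_Fin` (the finite set of the `k` with
`(s, k) ∈ bts p` is the set of members of the list `(bts p).filterMap ..`), membership by `Dfn.pmem`,
`DF.pair`, `DF.prim Primrec.list_tail`. -/
def S_Ub : Prop := ∀ (S : Str) [Good S] (α : Type) [Shp α] (p : α → Cond) (s : α → Node),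
  DF S p → DF S s → DF S (fun a => ub (p a) (s a)) ∧ DF S (fun a => ubp (p a) (s a))

/-- (Ic) Definability of conditions. Proof. Unfold; `nds (p a)` etc. are iterated `DF.fst`, `DF.snd`
 then `aesop (config := { enableSimp := false })`, see the example in Ops.lean. -/
def S_Ic : Prop := ∀ (S : Str) [Good S] (α : Type) [Shp α] (p : α → Cond), DF S p →
  DF S (fun a => nds (p a)) ∧ DF S (fun a => ht (p a)) ∧ DF S (fun a => bts (p a)) ∧
  DF S (fun a => fs (p a)) ∧ Dfn S (fun a => IsCond S (p a))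

/-- (Le) Definability of the order. Proof. Unfold; `S_Ic`, `S_Sg`, `S_Ub`; `Gm` by `DF.comp`. -/
def S_Le : Prop := ∀ (S : Str) [Good S] (Gm : Set ℕ → Set ℕ) (α : Type) [Shp α] (q p : α → Cond),
  DF S Gm → DF S q → DF S p → Dfn S (fun a => Le Gm (q a) (p a))

/-- (Cdc) Proof. `cdc` is injective: `jn_inj`, singletons, `Shp.inj`. `cdc p ∈ U` for valid `p`: `S_Fin`, `Shp.re_mem`.
`DF`: `DF.jn`, `DF.num`, `DF.re`, and `DF.set` for the singleton. A condition is valid (`S.C ⊆ S.U`). If
`cdc p ∈ U` then `p` is valid: `re p ∈ U` (right half), so `lre (fs p) ∈ U`, and the members of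
`fs p` are sections of it (`sec_lre`). -/
def S_Cdc : Prop := (∀ p q : Cond, cdc p = cdc q → p = q) ∧ (∀ p : Cond, cdc p ≠ ∅) ∧
  ∀ (S : Str) [Good S], (∀ p : Cond, vl S.U p ↔ cdc p ∈ S.U) ∧ (∀ p, IsCond S p → vl S.U p) ∧
  ∀ (α : Type) [Shp α] (p : α → Cond), DF S p → DF S (fun a => cdc (p a))

/-- (Ent) Proof. Unfold; `S_Ic`, `S_Cdc`, `DF.sec`, `DF.natPair`. -/
def S_Ent : Prop := ∀ (S : Str) [Good S] (α : Type) [Shp α] (σ : α → Set ℕ) (n : α → ℕ) (p : α → Cond),
  DF S σ → DF S n → DF S p → Dfn S (fun a => Ent S (σ a) (n a) (p a))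

/-- (Sup) Proof. `InT`: `Dfn.allP`. `Sup`: quantifier over all `p : Cond`; since `Ent S σ n p` implies
`IsCond S p`, hence `p` valid (`S_Cdc`), `Dfn.allV` applies after `Dfn.congr`. -/
def S_Sup : Prop := ∀ (S : Str) [Good S] (α : Type) [Shp α] (σ T : α → Set ℕ) (p : α → Cond),
  DF S σ → DF S T → DF S p → Dfn S (fun a => InT (T a) (p a)) ∧ Dfn S (fun a => Sup S (σ a) (T a))

/-- (Idl) Proof. Unfold `IsI`: the clause `T ∈ S.U` is true on valid objects; `Dfn.allN`, `Dfn.exN`, `Dfn.allR`,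
`S_Inn`, `Primrec.list_cons`, `Primrec.list_tail`. `Nm`: `Dfn.exR` (a support is in `U`). -/
def S_Idl : Prop := ∀ (S : Str) [Good S] (α : Type) [Shp α] (T : α → Set ℕ), DF S T →
  Dfn S (fun a => IsI S (T a)) ∧ Dfn S (fun a => Nm S (T a))

/-- (ResD) Proof. `S_Filt` twice, `DF.pair`, `S_Ic`, `S_Inn`. -/
def S_ResD : Prop := ∀ (S : Str) [Good S] (α : Type) [Shp α] (T : α → Set ℕ) (p : α → Cond),
  DF S T → DF S p → DF S (fun a => res (T a) (p a))

/-- (FrcD) Definability of forcing. Proof. Induction on `φ` as in `dfn_sat` (file L2.lean): `mem`: `S_Ic`, `S_Le`,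
`S_Ent`, quantifiers over conditions are quantifiers over valid objects (`Dfn.allV`, `Dfn.exV` after `Dfn.congr`,
`S_Cdc`: conditions are valid). `allS`: `σ` ranges over the valid reals with `Nm` (`Nm S σ` implies `σ ∈ S.U`). -/
def S_FrcD : Prop := ∀ (S : Str) [Good S] (Gm : Set ℕ → Set ℕ), DF S Gm → ∀ (φ : Fm) (α : Type) [Shp α]
  (p : α → Cond) (e : α → ℕ → ℕ) (τ : α → ℕ → Set ℕ), DF S p → (∀ i, DF S (fun a => e a i)) →
  (∀ i, DF S (fun a => τ a i)) → Dfn S (fun a => Frc S Gm φ (p a) (e a) (τ a))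

/-- (Gcomp) Under `Uni`, full comprehension with set parameters: `{n | P n} ∈ U` and the map
`a ↦ {n | P a n}` is definable. Proof. The first is `Uni.comp`; for the second use `DF.set`: for a valid `a` the
predicate `P a ·` on `ℕ` is definable: `Dfn.comp` of `P` with `n ↦ (a, n)`, and `DF S (fun _ => a)` for a
valid `a`: by `dfn_raw`: `num b = num a` and `re b = re a` with the parameter `re a ∈ S.Pm = S.U`
(compare `DF.constN`, `DF.constR`); the graph of the constant map. -/
def S_Gcomp : Prop := ∀ (S : Str) [Good S] (Gm : Set ℕ → Set ℕ), Uni S Gm →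
  (∀ (α β : Type) [Shp α] [Shp β] (b : β), vl S.U b → DF S (fun _ : α => b)) ∧
  ∀ (α : Type) [Shp α] (P : α → ℕ → Prop), Dfn S (fun x : α × ℕ => P x.1 x.2) → DF S (fun a => {n | P a n})

end Pool.Agent.Lib.Z2
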