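import Pool.Agent.Lib.Z2.Fo.SpecP

/-!
# C45, forcing part: `Tr` (MP_8dbd20_lc)
-/

set_option autoImplicit false

namespace Pool.Agent.Lib.Z2

private theorem tr_mem (Y : Set ℕ) (k j : ℕ) : j ∈ tr Y k ↔ j < k ∧ j ∈ Y := by
  classical
  unfold tr
  rw [List.mem_filter, List.mem_range, decide_eq_true_iff]

private theorem tr_iff (Y Y' : Set ℕ) (k : ℕ) : tr Y k = tr Y' k ↔ ∀ j < k, (j ∈ Y ↔ j ∈ Y') := by
  classical
  constructor
  · intro h j hj
    have h1 := tr_mem Y k j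
    have h2 := tr_mem Y' k j
    rw [h] at h1
    exact ⟨fun hy => (h2.1 (h1.2 ⟨hj, hy⟩)).2, fun hy => (h1.1 (h2.2 ⟨hj, hy⟩)).2⟩
  · intro h
    unfold tr
    refine List.filter_congr fun j hj => ?_
    rw [decide_eq_decide]
    exact h j (List.mem_range.1 hj)

theorem tTr : S_Tr := by
  refine ⟨tr_iff, fun k k' z z' y y' => ?_, fun k z y => Nat.left_le_pair _ _⟩
  unfold sg
  rw [Nat.pair_eq_pair, Nat.pair_eq_pair, Encodable.encode_inj, Encodable.encode_inj]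
  constructor
  · rintro ⟨rfl, h1, h2⟩
    exact ⟨rfl, (tr_iff _ _ _).1 h1, (tr_iff _ _ _).1 h2⟩
  · rintro ⟨rfl, h1, h2⟩
    exact ⟨rfl, (tr_iff _ _ _).2 h1, (tr_iff _ _ _).2 h2⟩

end Pool.Agent.Lib.Z2
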