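import Pool.Agent.Lib.Z2.Fo.SpecA

/-!
# C45 Fo/Truth: the truth lemma (helper7)
-/

set_option autoImplicit false

namespace Pool.Agent.Lib.Z2

theorem Truth (hRefl : S_Refl) (hTrans : S_Trans) (hMono : S_Mono) (hDens : S_Dens) (hFrcD : S_FrcD)
    (hGc : S_Gcomp) (hCdc : S_Cdc) (hIc : S_Ic) (hLe : S_Le) (hEnt : S_Ent) (hIdl : S_Idl) : S_Truth := by
  intro S _ Gm hU G hG φ
  have hcst : ∀ (α β : Type) [Shp α] [Shp β] (b : β), vl S.U b → DF S (fun _ : α => b) := (hGc S Gm hU).1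
  have hval : ∀ p, IsCond S p → vl S.U p := (hCdc.2.2 S).2.1
  have hne : ∃ p, G p := by
    obtain ⟨q, hq, -⟩ := hG.meet (fun _ => True) dfn_true (fun p hp => ⟨p, hp, hRefl S Gm p hp, trivial⟩)
    exact ⟨q, hq⟩
  -- consistency
  have hcons : ∀ (ψ : Fm) (e : ℕ → ℕ) (τ : ℕ → Set ℕ) (p q : Cond), G p → G q → Frc S Gm ψ p e τ →
      Frc S Gm (.neg ψ) q e τ → False := by
    intro ψ e τ p q hp hq h1 h2
    obtain ⟨r, hr, hrp, hrq⟩ := hG.dir p q hp hq
    exact h2 r (hG.cond r hr) hrq (hMono S Gm ψ p r e τ (hG.cond p hp) (hG.cond r hr) hrp h1)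
  -- definability of forcing a formula
  have hdf : ∀ (ψ : Fm) (e : ℕ → ℕ) (τ : ℕ → Set ℕ), (∀ i, Nm S (τ i)) →
      Dfn S (fun r : Cond => Frc S Gm ψ r e τ) := by
    intro ψ e τ hτ
    exact hFrcD S Gm hU.gm ψ Cond (fun r => r) (fun _ => e) (fun _ => τ) DF.id
      (fun i => DF.constN (e i)) (fun i => hcst Cond (Set ℕ) (τ i) (hτ i).1)
  -- not forcing
  have hnf : ∀ (ψ : Fm) (e : ℕ → ℕ) (τ : ℕ → Set ℕ) (p : Cond), IsCond S p → ¬ Frc S Gm ψ p e τ →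
      ∃ q, IsCond S q ∧ Le Gm q p ∧ Frc S Gm (.neg ψ) q e τ := by
    intro ψ e τ p hp h
    by_contra hc
    apply h
    refine hDens S Gm ψ p e τ hp (fun q hq hqp => ?_)
    by_contra hc2
    exact hc ⟨q, hq, hqp, fun r hr hrq hf => hc2 ⟨r, hr, hrq, hf⟩⟩
  induction φ with
  | eq s t =>
    intro e τ hτ
    constructor
    · intro h
      obtain ⟨p, hp⟩ := hne
      exact ⟨p, hp, h⟩
    · rintro ⟨p, hp, h⟩
      exact h
  | lt s t =>
    intro e τ hτ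
    constructor
    · intro h
      obtain ⟨p, hp⟩ := hne
      exact ⟨p, hp, h⟩
    · rintro ⟨p, hp, h⟩
      exact h
  | mem t i =>
    intro e τ hτ
    constructor
    · rintro ⟨w, hw, hGw⟩
      refine ⟨w, hGw, fun q hq hqw => ⟨q, hq, hRefl S Gm q hq, w, hw, hqw⟩⟩
    · rintro ⟨p, hp, hF⟩
      have hpc := hG.cond p hp
      have hτi : vl S.U (τ i) := (hτ i).1
      have d1 : Dfn S (fun r : Cond => ∃ w, Ent S (τ i) (t.val e) w ∧ Le Gm r w) := by
        have h1 : Dfn S (fun x : Cond × Cond => Ent S (τ i) (t.val e) x.2 ∧ Le Gm x.1 x.2) := by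
          refine Dfn.and ?_ ?_
          · exact hEnt S (Cond × Cond) (fun _ => τ i) (fun _ => t.val e) (fun x => x.2)
              (hcst _ _ _ hτi) (DF.constN _) (DF.snd DF.id)
          · exact hLe S Gm (Cond × Cond) (fun x => x.1) (fun x => x.2) hU.gm (DF.fst DF.id) (DF.snd DF.id)
        refine (Dfn.exV (P := fun (a b : Cond) => Ent S (τ i) (t.val e) b ∧ Le Gm a b) h1).congr (fun a _ => ?_)
        constructor
        · rintro ⟨w, hw, h⟩
          exact ⟨w, hval w hw.1, hw, h⟩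
        · rintro ⟨w, -, hw, h⟩
          exact ⟨w, hw, h⟩
      have d2 : Dfn S (fun r : Cond => ∃ q, IsCond S q ∧ Le Gm q r ∧ Le Gm q p) := by
        have h1 : Dfn S (fun x : Cond × Cond => IsCond S x.2 ∧ Le Gm x.2 x.1 ∧ Le Gm x.2 p) := by
          refine Dfn.and ?_ (Dfn.and ?_ ?_)
          · exact (hIc S (Cond × Cond) (fun x => x.2) (DF.snd DF.id)).2.2.2.2
          · exact hLe S Gm (Cond × Cond) (fun x => x.2) (fun x => x.1) hU.gm (DF.snd DF.id) (DF.fst DF.id)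
          · exact hLe S Gm (Cond × Cond) (fun x => x.2) (fun _ => p) hU.gm (DF.snd DF.id)
              (hcst _ _ _ (hval p hpc))
        refine (Dfn.exV (P := fun (a b : Cond) => IsCond S b ∧ Le Gm b a ∧ Le Gm b p) h1).congr (fun a _ => ?_)
        constructor
        · rintro ⟨w, hw, h⟩
          exact ⟨w, hval w hw, hw, h⟩
        · rintro ⟨w, -, hw, h⟩
          exact ⟨w, hw, h⟩
      obtain ⟨r, hGr, hr⟩ := hG.meet _ (d1.or d2.not) (fun r₀ hr₀ => by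
        by_cases hc : ∃ q, IsCond S q ∧ Le Gm q r₀ ∧ Le Gm q p
        · obtain ⟨q, hq, hq0, hqp⟩ := hc
          obtain ⟨r, hr, hrq, w, hw, hrw⟩ := hF q hq hqp
          exact ⟨r, hr, hTrans S Gm r₀ q r hr₀ hq hr hrq hq0, Or.inl ⟨w, hw, hrw⟩⟩
        · exact ⟨r₀, hr₀, hRefl S Gm r₀ hr₀, Or.inr hc⟩)
      rcases hr with ⟨w, hw, hrw⟩ | hr
      · exact ⟨w, hw, hG.up r w hGr hw.1 hrw⟩
      · exfalso
        obtain ⟨q, hq, hqr, hqp⟩ := hG.dir r p hGr hp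
        exact hr ⟨q, hG.cond q hq, hqr, hqp⟩
  | neg φ ih =>
    intro e τ hτ
    constructor
    · intro h
      obtain ⟨r, hGr, hr⟩ := hG.meet _ ((hdf φ e τ hτ).or (hdf (.neg φ) e τ hτ)) (fun p hp => by
        by_cases hc : ∃ q, IsCond S q ∧ Le Gm q p ∧ Frc S Gm φ q e τ
        · obtain ⟨q, hq, hqp, hf⟩ := hc
          exact ⟨q, hq, hqp, Or.inl hf⟩
        · exact ⟨p, hp, hRefl S Gm p hp, Or.inr (fun q hq hqp hf => hc ⟨q, hq, hqp, hf⟩)⟩)
      rcases hr with hr | hr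
      · exact absurd ((ih e τ hτ).2 ⟨r, hGr, hr⟩) h
      · exact ⟨r, hGr, hr⟩
    · rintro ⟨p, hp, hF⟩ hs
      obtain ⟨q, hq, hf⟩ := (ih e τ hτ).1 hs
      exact hcons φ e τ q p hq hp hf hF
  | and φ ψ ih1 ih2 =>
    intro e τ hτ
    constructor
    · rintro ⟨h1, h2⟩
      obtain ⟨p, hp, hf⟩ := (ih1 e τ hτ).1 h1
      obtain ⟨q, hq, hg⟩ := (ih2 e τ hτ).1 h2
      obtain ⟨r, hr, hrp, hrq⟩ := hG.dir p q hp hq
      exact ⟨r, hr, hMono S Gm φ p r e τ (hG.cond p hp) (hG.cond r hr) hrp hf,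
        hMono S Gm ψ q r e τ (hG.cond q hq) (hG.cond r hr) hrq hg⟩
    · rintro ⟨p, hp, hf, hg⟩
      exact ⟨(ih1 e τ hτ).2 ⟨p, hp, hf⟩, (ih2 e τ hτ).2 ⟨p, hp, hg⟩⟩
  | allN φ ih =>
    intro e τ hτ
    constructor
    · intro h
      have d : Dfn S (fun r : Cond => ∃ n : ℕ, Frc S Gm (.neg φ) r (ex n e) τ) := by
        refine Dfn.exN (P := fun (r : Cond) (n : ℕ) => Frc S Gm (.neg φ) r (ex n e) τ) ?_
        refine hFrcD S Gm hU.gm (.neg φ) (Cond × ℕ) (fun x => x.1) (fun x => ex x.2 e) (fun _ => τ)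
          (DF.fst DF.id) (fun i => ?_) (fun i => hcst _ _ (τ i) (hτ i).1)
        rcases i with _ | i
        · exact DF.snd DF.id
        · exact DF.constN (e i)
      obtain ⟨r, hGr, hr⟩ := hG.meet _ ((hdf (.allN φ) e τ hτ).or d) (fun p hp => by
        by_cases hc : Frc S Gm (.allN φ) p e τ
        · exact ⟨p, hp, hRefl S Gm p hp, Or.inl hc⟩
        · obtain ⟨n, hn⟩ := not_forall.1 hc
          obtain ⟨q, hq, hqp, hf⟩ := hnf φ (ex n e) τ p hp hn
          exact ⟨q, hq, hqp, Or.inr ⟨n, hf⟩⟩)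
      rcases hr with hr | ⟨n, hr⟩
      · exact ⟨r, hGr, hr⟩
      · exfalso
        obtain ⟨q, hq, hf⟩ := (ih (ex n e) τ hτ).1 (h n)
        exact hcons φ (ex n e) τ q r hq hGr hf hr
    · rintro ⟨p, hp, hF⟩ n
      exact (ih (ex n e) τ hτ).2 ⟨p, hp, hF n⟩
  | allS φ ih =>
    intro e τ hτ
    have hex : ∀ σ, (fun i => evl S G (ex σ τ i)) = ex (evl S G σ) (fun i => evl S G (τ i)) := by
      intro σ
      funext i
      rcases i with _ | i
      · rfl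
      · rfl
    have hexN : ∀ σ, Nm S σ → ∀ i, Nm S (ex σ τ i) := by
      intro σ hσ i
      rcases i with _ | i
      · exact hσ
      · exact hτ i
    constructor
    · intro h
      have d : Dfn S (fun r : Cond => ∃ σ ∈ S.U, Nm S σ ∧ Frc S Gm (.neg φ) r e (ex σ τ)) := by
        refine Dfn.exR (P := fun (r : Cond) (σ : Set ℕ) => Nm S σ ∧ Frc S Gm (.neg φ) r e (ex σ τ)) ?_
        refine Dfn.and ?_ ?_
        · exact (hIdl S (Cond × Set ℕ) (fun x => x.2) (DF.snd DF.id)).2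
        · refine hFrcD S Gm hU.gm (.neg φ) (Cond × Set ℕ) (fun x => x.1) (fun _ => e) (fun x => ex x.2 τ)
            (DF.fst DF.id) (fun i => DF.constN (e i)) (fun i => ?_)
          rcases i with _ | i
          · exact DF.snd DF.id
          · exact hcst _ _ (τ i) (hτ i).1
      obtain ⟨r, hGr, hr⟩ := hG.meet _ ((hdf (.allS φ) e τ hτ).or d) (fun p hp => by
        by_cases hc : Frc S Gm (.allS φ) p e τ
        · exact ⟨p, hp, hRefl S Gm p hp, Or.inl hc⟩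
        · obtain ⟨σ, hn⟩ := not_forall.1 hc
          obtain ⟨hσ, hn⟩ := Classical.not_imp.1 hn
          obtain ⟨q, hq, hqp, hf⟩ := hnf φ e (ex σ τ) p hp hn
          exact ⟨q, hq, hqp, Or.inr ⟨σ, hσ.1, hσ, hf⟩⟩)
      rcases hr with hr | ⟨σ, -, hσ, hr⟩
      · exact ⟨r, hGr, hr⟩
      · exfalso
        have h1 := h (evl S G σ) ⟨σ, hσ, rfl⟩
        rw [← hex] at h1
        obtain ⟨q, hq, hf⟩ := (ih e (ex σ τ) (hexN σ hσ)).1 h1
        exact hcons φ e (ex σ τ) q r hq hGr hf hr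
    · rintro ⟨p, hp, hF⟩ X ⟨σ, hσ, rfl⟩
      have h1 := (ih e (ex σ τ) (hexN σ hσ)).2 ⟨p, hp, hF σ hσ⟩
      rw [hex] at h1
      exact h1

end Pool.Agent.Lib.Z2
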