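import Pool.Agent.Lib.Z2.Fo.SpecP

/-!
# C45, forcing part: `Ub` (MP_8dbd20_lc)
-/

set_option autoImplicit false

namespace Pool.Agent.Lib.Z2

private theorem ub_fin (h_Fin : S_Fin) (S : Str) [Good S] (l : List (Node × ℕ)) (s : Node) :
    {k | (s, k) ∈ l} ∈ S.U := by
  have h : {k | (s, k) ∈ l} = {k | k ∈ l.filterMap fun x => if x.1 = s then some x.2 else none} := by
    ext k
    rw [Set.mem_ofPred_eq, Set.mem_ofPred_eq, List.mem_filterMap]
    constructor
    · intro hk
      exact ⟨(s, k), hk, by rw [if_pos rfl]⟩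
    · rintro ⟨⟨t, j⟩, hx, he⟩
      by_cases ht : t = s
      · rw [if_pos ht] at he
        have hj : j = k := Option.some.inj he
        rw [← ht, ← hj]
        exact hx
      · rw [if_neg ht] at he
        exact absurd he (by simp)
  rw [h]
  exact (h_Fin S).2 _

theorem tUb (h_Fin : S_Fin) : S_Ub := by
  intro S _ α _ p s hp hs
  have h3 : DF S (fun a => bts (p a)) := hp.fst.snd.snd
  have h4 : DF S (fun a => (s a).tail) := DF.prim Primrec.list_tail hs
  refine ⟨DF.set ?_ ?_, DF.set ?_ ?_⟩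
  · intro a _
    exact ub_fin h_Fin S (bts (p a)) (s a)
  · change Dfn S (fun x : α × ℕ => (s x.1, x.2) ∈ bts (p x.1))
    exact Dfn.pmem (DF.pair (hs.comp DF.id.fst) DF.id.snd) (h3.comp DF.id.fst)
  · intro a _
    by_cases h : s a = []
    · have h5 : ubp (p a) (s a) = ∅ := by
        ext k
        change (s a ≠ [] ∧ _) ↔ k ∈ (∅ : Set ℕ)
        rw [Set.mem_empty_iff_false, iff_false]
        exact fun hk => hk.1 h
      rw [h5]
      exact Good.ue S
    · have h5 : ubp (p a) (s a) = {k | ((s a).tail, k) ∈ bts (p a)} := by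
        ext k
        exact ⟨fun hk => hk.2, fun hk => ⟨h, hk⟩⟩
      rw [h5]
      exact ub_fin h_Fin S (bts (p a)) (s a).tail
  · change Dfn S (fun x : α × ℕ => s x.1 ≠ [] ∧ ((s x.1).tail, x.2) ∈ bts (p x.1))
    refine Dfn.and (Dfn.not (Dfn.eq (hs.comp DF.id.fst) (DF.constN ([] : Node)))) ?_
    exact Dfn.pmem (DF.pair (h4.comp DF.id.fst) DF.id.snd) (h3.comp DF.id.fst)

end Pool.Agent.Lib.Z2
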